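import Mathlib

set_option autoImplicit false

/-!
# Potentials for the periods at least 10

Histories are lists, most recent symbol first; Player 1's symbols have odd index.
-/

namespace Pool.Agent.Zk83.Game

open Finset

/-- Player 1's last `j` symbols match with period `2 * q` -/
def PE (q : ℕ) (H : List (Fin 5)) (j : ℕ) : Prop := ∀ i < j, H[2 * i + 1]? = H[2 * i + 1 + 2 * q]?

/-- the last `r` symbols match with period `2 * q + 1` -/
def PO (q : ℕ) (H : List (Fin 5)) (r : ℕ) : Prop := ∀ i < r, H[i]? = H[i + (2 * q + 1)]?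

open Classical in
noncomputable def jE (q : ℕ) (H : List (Fin 5)) : ℕ := Nat.findGreatest (PE q H) (q - 1)

open Classical in
noncomputable def rO (q : ℕ) (H : List (Fin 5)) : ℕ := Nat.findGreatest (PO q H) (2 * q - 1)

theorem PE_zero (q : ℕ) (H : List (Fin 5)) : PE q H 0 := fun i hi => absurd hi (by omega)
theorem PO_zero (q : ℕ) (H : List (Fin 5)) : PO q H 0 := fun i hi => absurd hi (by omega)

theorem jE_le (q : ℕ) (H : List (Fin 5)) : jE q H ≤ q - 1 := by
  classical exact Nat.findGreatest_le _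

theorem rO_le (q : ℕ) (H : List (Fin 5)) : rO q H ≤ 2 * q - 1 := by
  classical exact Nat.findGreatest_le _

theorem jE_spec (q : ℕ) (H : List (Fin 5)) : PE q H (jE q H) := by
  classical exact Nat.findGreatest_spec (P := PE q H) (Nat.zero_le _) (PE_zero q H)

theorem rO_spec (q : ℕ) (H : List (Fin 5)) : PO q H (rO q H) := by
  classical exact Nat.findGreatest_spec (P := PO q H) (Nat.zero_le _) (PO_zero q H)

theorem le_jE {q : ℕ} {H : List (Fin 5)} {j : ℕ} (hj : j ≤ q - 1) (h : PE q H j) : j ≤ jE q H := by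
  classical exact Nat.le_findGreatest hj h

theorem le_rO {q : ℕ} {H : List (Fin 5)} {r : ℕ} (hr : r ≤ 2 * q - 1) (h : PO q H r) :
    r ≤ rO q H := by
  classical exact Nat.le_findGreatest hr h

theorem jE_step {q : ℕ} (H : List (Fin 5)) (a b : Fin 5) :
    jE q (b :: a :: H) ≤ jE q H + 1 := by
  have h1 := jE_spec q (b :: a :: H)
  have h2 := jE_le q (b :: a :: H)
  rcases Nat.eq_zero_or_pos (jE q (b :: a :: H)) with h | h
  · omega
  · have : jE q (b :: a :: H) - 1 ≤ jE q H := by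
      apply le_jE (by omega)
      intro i hi
      have := h1 (i + 1) (by omega)
      rw [show 2 * (i + 1) + 1 = (2 * i + 1) + 1 + 1 by ring,
        show (2 * i + 1) + 1 + 1 + 2 * q = (2 * i + 1 + 2 * q) + 1 + 1 by ring] at this
      simpa using this
    omega

theorem jE_ne {q : ℕ} (hq : 1 ≤ q) {H : List (Fin 5)} {a : Fin 5} (b : Fin 5)
    (h : H[2 * q - 1]? ≠ some a) : jE q (b :: a :: H) = 0 := by
  by_contra hne
  have h1 := jE_spec q (b :: a :: H) 0 (by omega)
  apply h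
  rw [show 2 * 0 + 1 + 2 * q = (2 * q - 1) + 1 + 1 by omega] at h1
  simpa using h1.symm

theorem rO_step {q : ℕ} (H : List (Fin 5)) (a b : Fin 5) :
    rO q (b :: a :: H) ≤ rO q H + 2 := by
  have h1 := rO_spec q (b :: a :: H)
  have h2 := rO_le q (b :: a :: H)
  rcases Nat.lt_or_ge (rO q (b :: a :: H)) 2 with h | h
  · omega
  · have : rO q (b :: a :: H) - 2 ≤ rO q H := by
      apply le_rO (by omega)
      intro i hi
      have := h1 (i + 2) (by omega)
      rw [show i + 2 + (2 * q + 1) = (i + (2 * q + 1)) + 1 + 1 by ring] at this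
      simpa using this
    omega

theorem rO_ne {q : ℕ} (hq : 1 ≤ q) {H : List (Fin 5)} (a : Fin 5) {b : Fin 5}
    (h : H[2 * q - 1]? ≠ some b) : rO q (b :: a :: H) = 0 := by
  by_contra hne
  have h1 := rO_spec q (b :: a :: H) 0 (by omega)
  apply h
  rw [show 0 + (2 * q + 1) = (2 * q - 1) + 1 + 1 by omega] at h1
  simpa using h1.symm

theorem rO_ne' {q : ℕ} {H : List (Fin 5)} {a : Fin 5} (b : Fin 5)
    (h : H[2 * q]? ≠ some a) : rO q (b :: a :: H) ≤ 1 := by
  by_contra hne
  have h1 := rO_spec q (b :: a :: H) 1 (by omega)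
  apply h
  rw [show 1 + (2 * q + 1) = (2 * q) + 1 + 1 by omega] at h1
  simpa using h1.symm

noncomputable def dE (q : ℕ) (H : List (Fin 5)) : ℝ := (1 / 2) * (3 / 5) ^ (q - 1 - jE q H)
noncomputable def dO (q : ℕ) (H : List (Fin 5)) : ℝ := (1 / 2) * (3 / 5) ^ (q - (rO q H + 1) / 2)
noncomputable def bE (q : ℕ) : ℝ := (1 / 2) * (3 / 5) ^ (q - 1)
noncomputable def bO (q : ℕ) : ℝ := (1 / 2) * (3 / 5) ^ q

theorem pow_anti {m n : ℕ} (h : m ≤ n) : ((3:ℝ) / 5) ^ n ≤ (3 / 5) ^ m :=
  pow_le_pow_of_le_one (by norm_num) (by norm_num) h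

theorem pow_succ_le {m n : ℕ} (h : m ≤ n + 1) : ((3:ℝ) / 5) ^ n ≤ 5 / 3 * (3 / 5) ^ m := by
  have := pow_anti h
  rw [pow_succ] at this
  have h0 : (0:ℝ) ≤ (3 / 5) ^ n := by positivity
  linarith

theorem bE_le_dE (q : ℕ) (H : List (Fin 5)) : bE q ≤ dE q H := by
  unfold bE dE
  have := pow_anti (show q - 1 - jE q H ≤ q - 1 by omega)
  linarith

theorem bO_le_dO (q : ℕ) (H : List (Fin 5)) : bO q ≤ dO q H := by
  unfold bO dO
  have := pow_anti (show q - (rO q H + 1) / 2 ≤ q by omega)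
  linarith

theorem dE_pos (q : ℕ) (H : List (Fin 5)) : 0 < dE q H := by unfold dE; positivity
theorem dO_pos (q : ℕ) (H : List (Fin 5)) : 0 < dO q H := by unfold dO; positivity
theorem bE_pos (q : ℕ) : 0 < bE q := by unfold bE; positivity
theorem bO_pos (q : ℕ) : 0 < bO q := by unfold bO; positivity

theorem dE_any (q : ℕ) (H : List (Fin 5)) (a b : Fin 5) :
    dE q (b :: a :: H) ≤ 5 / 3 * dE q H := by
  unfold dE
  have h1 := jE_step (q := q) H a b
  have h2 := pow_succ_le (m := q - 1 - jE q H) (n := q - 1 - jE q (b :: a :: H)) (by omega)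
  linarith

theorem dE_ne {q : ℕ} (hq : 1 ≤ q) {H : List (Fin 5)} {a : Fin 5} (b : Fin 5)
    (h : H[2 * q - 1]? ≠ some a) : dE q (b :: a :: H) = bE q := by
  unfold dE bE
  rw [jE_ne hq b h, Nat.sub_zero]

theorem dO_any (q : ℕ) (H : List (Fin 5)) (a b : Fin 5) :
    dO q (b :: a :: H) ≤ 5 / 3 * dO q H := by
  unfold dO
  have h1 := rO_step (q := q) H a b
  have h2 := pow_succ_le (m := q - (rO q H + 1) / 2) (n := q - (rO q (b :: a :: H) + 1) / 2)
    (by omega)
  linarith

theorem dO_unm {q : ℕ} (hq : 1 ≤ q) {H : List (Fin 5)} (a : Fin 5) {b : Fin 5}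
    (h : H[2 * q - 1]? ≠ some b) : dO q (b :: a :: H) = bO q := by
  unfold dO bO
  rw [rO_ne hq a h]
  simp

theorem dO_ne {q : ℕ} {H : List (Fin 5)} {a : Fin 5} (b : Fin 5)
    (h : H[2 * q]? ≠ some a) : dO q (b :: a :: H) ≤ 5 / 3 * bO q := by
  unfold dO bO
  have h1 := rO_ne' (q := q) b h
  have h2 := pow_succ_le (m := q) (n := q - (rO q (b :: a :: H) + 1) / 2) (by omega)
  linarith

theorem dE_two {q : ℕ} (hq : 1 ≤ q) (H : List (Fin 5)) {a1 a2 : Fin 5} (hne : a1 ≠ a2)
    (b1 b2 : Fin 5) :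
    dE q (b1 :: a1 :: H) + dE q (b2 :: a2 :: H) ≤ 5 / 3 * dE q H + bE q := by
  by_cases h1 : H[2 * q - 1]? = some a1
  · have h2 : H[2 * q - 1]? ≠ some a2 := by
      rw [h1]; intro h; exact hne (Option.some.inj h)
    rw [dE_ne hq b2 h2]
    have := dE_any q H a1 b1
    linarith
  · rw [dE_ne hq b1 h1]
    have := dE_any q H a2 b2
    linarith

open Classical in
theorem dO_two {q : ℕ} (hq : 1 ≤ q) (H : List (Fin 5)) {a1 a2 : Fin 5} (hne : a1 ≠ a2)
    (b1 b2 : Fin 5) :
    dO q (b1 :: a1 :: H) + dO q (b2 :: a2 :: H) ≤ 5 / 3 * dO q H + 1 / 3 * bO q +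
      2 / 3 * ((if H[2 * q - 1]? = some b1 then bO q else 0) +
        (if H[2 * q - 1]? = some b2 then bO q else 0)) := by
  have g := bO_le_dO q H
  have g0 := bO_pos q
  by_cases h1 : H[2 * q - 1]? = some b1
  · by_cases h2 : H[2 * q - 1]? = some b2
    · rw [if_pos h1, if_pos h2]
      by_cases h3 : H[2 * q]? = some a1
      · have h4 : H[2 * q]? ≠ some a2 := by
          rw [h3]; intro h; exact hne (Option.some.inj h)
        have e1 := dO_ne b2 h4
        have e2 := dO_any q H a1 b1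
        linarith
      · have e1 := dO_ne b1 h3
        have e2 := dO_any q H a2 b2
        linarith
    · rw [if_pos h1, if_neg h2, dO_unm hq a2 h2]
      have e2 := dO_any q H a1 b1
      linarith
  · rw [if_neg h1, dO_unm hq a1 h1]
    by_cases h2 : H[2 * q - 1]? = some b2
    · rw [if_pos h2]
      have e2 := dO_any q H a2 b2
      linarith
    · rw [if_neg h2, dO_unm hq a2 h2]
      linarith

/-- the potential of all periods from 10 on -/
noncomputable def Psi (K : ℕ) (H : List (Fin 5)) : ℝ := ∑ i ∈ range K, (dE (i + 5) H + dO (i + 5) H)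

theorem Psi_nonneg (K : ℕ) (H : List (Fin 5)) : 0 ≤ Psi K H :=
  sum_nonneg fun i _ => (add_pos (dE_pos _ _) (dO_pos _ _)).le

theorem Psi_one (K : ℕ) (H : List (Fin 5)) (a b : Fin 5) :
    Psi K (b :: a :: H) ≤ 5 / 3 * Psi K H := by
  unfold Psi
  rw [mul_sum]
  apply sum_le_sum
  intro i _
  have h1 := dE_any (i + 5) H a b
  have h2 := dO_any (i + 5) H a b
  linarith

theorem sum_pow_le (K s : ℕ) : ∑ i ∈ range K, ((3:ℝ) / 5) ^ (i + s) ≤ 5 / 2 * (3 / 5) ^ s := by
  have h : ∑ k ∈ range K, ((3:ℝ) / 5) ^ (k + s) = (3 / 5) ^ s * ∑ k ∈ range K, ((3:ℝ) / 5) ^ k := by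
    rw [mul_sum]
    apply sum_congr rfl
    intro i _
    rw [pow_add]; ring
  rw [h, geom_sum_eq (by norm_num)]
  have h0 : (0:ℝ) ≤ (3 / 5) ^ K := by positivity
  have h1 : (0:ℝ) < (3 / 5) ^ s := by positivity
  have h2 : ((3 / 5 : ℝ) ^ K - 1) / (3 / 5 - 1) ≤ 5 / 2 := by
    rw [div_le_iff_of_neg (by norm_num)]
    linarith
  calc _ ≤ (3 / 5 : ℝ) ^ s * (5 / 2) := by gcongr
    _ = _ := by ring

open Classical in
theorem alt_sum (m : ℕ → Prop) (hm : ∀ q, m q → ¬ m (q + 1)) (n : ℕ) :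
    ∀ s, ∑ i ∈ range n, (if m (i + s) then ((3:ℝ) / 5) ^ (i + s) else 0) ≤ 25 / 16 * (3 / 5) ^ s := by
  induction n using Nat.strong_induction_on with
  | _ n ih =>
    intro s
    have h1 : (0:ℝ) < (3 / 5) ^ s := by positivity
    rcases n with _ | n
    · simp; positivity
    · rw [sum_range_succ']
      by_cases hs : m s
      · rcases n with _ | n
        · simp [hs]; linarith
        · rw [sum_range_succ']
          have h2 := ih n (by omega) (s + 2)
          have h3 : ∀ i, (if m (i + 1 + 1 + s) then ((3:ℝ) / 5) ^ (i + 1 + 1 + s) else 0) =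
              (if m (i + (s + 2)) then ((3:ℝ) / 5) ^ (i + (s + 2)) else 0) := by
            intro i
            rw [show i + 1 + 1 + s = i + (s + 2) by ring]
          simp only [h3]
          have h4 : ¬ m (0 + 1 + s) := by
            rw [show 0 + 1 + s = s + 1 by ring]; exact hm s hs
          have h5 : m (0 + s) := by simpa using hs
          rw [if_neg h4, if_pos h5]
          rw [pow_add] at h2
          norm_num at h2 ⊢
          linarith
      · have h2 := ih n (by omega) (s + 1)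
        have h3 : ∀ i, (if m (i + 1 + s) then ((3:ℝ) / 5) ^ (i + 1 + s) else 0) =
            (if m (i + (s + 1)) then ((3:ℝ) / 5) ^ (i + (s + 1)) else 0) := by
          intro i
          rw [show i + 1 + s = i + (s + 1) by ring]
        simp only [h3]
        have h5 : ¬ m (0 + s) := by simpa using hs
        rw [if_neg h5]
        rw [pow_add] at h2
        norm_num at h2 ⊢
        linarith

/-- consecutive symbols of Player 1 are different -/
def Inv (H : List (Fin 5)) : Prop := ∀ i a, H[2 * i + 1]? = some a → H[2 * i + 3]? ≠ some a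

open Classical in
theorem Psi_two (K : ℕ) (H : List (Fin 5)) (hI : Inv H) {a1 a2 : Fin 5} (hne : a1 ≠ a2)
    (b1 b2 : Fin 5) :
    Psi K (b1 :: a1 :: H) + Psi K (b2 :: a2 :: H) ≤ 5 / 3 * Psi K H + 2754 / 10000 := by
  have hb : ∀ b : Fin 5, ∑ i ∈ range K, (if H[2 * (i + 5) - 1]? = some b then bO (i + 5) else 0) ≤
      243 / 4000 := by
    intro b
    have h := alt_sum (fun q => H[2 * q - 1]? = some b ∧ 1 ≤ q) (by
      rintro q ⟨h1, h1'⟩ ⟨h2, -⟩
      have := hI (q - 1) b (by rw [show 2 * (q - 1) + 1 = 2 * q - 1 by omega]; exact h1)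
      apply this
      rw [show 2 * (q - 1) + 3 = 2 * (q + 1) - 1 by omega]
      exact h2) K 5
    have h3 : ∑ i ∈ range K, (if H[2 * (i + 5) - 1]? = some b then bO (i + 5) else 0) =
        1 / 2 * ∑ i ∈ range K, (if H[2 * (i + 5) - 1]? = some b ∧ 1 ≤ i + 5 then
          ((3:ℝ) / 5) ^ (i + 5) else 0) := by
      rw [mul_sum]
      apply sum_congr rfl
      intro i _
      have : (H[2 * (i + 5) - 1]? = some b ∧ 1 ≤ i + 5) ↔ H[2 * (i + 5) - 1]? = some b := by
        constructor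
        · exact fun h => h.1
        · exact fun h => ⟨h, by omega⟩
      simp only [this]
      by_cases h4 : H[2 * (i + 5) - 1]? = some b
      · rw [if_pos h4, if_pos h4]; rfl
      · rw [if_neg h4, if_neg h4]; ring
    rw [h3]
    norm_num at h ⊢
    linarith
  have h1 : Psi K (b1 :: a1 :: H) + Psi K (b2 :: a2 :: H) ≤ ∑ i ∈ range K,
      (5 / 3 * (dE (i + 5) H + dO (i + 5) H) + bE (i + 5) + 1 / 3 * bO (i + 5) +
      2 / 3 * (if H[2 * (i + 5) - 1]? = some b1 then bO (i + 5) else 0) +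
      2 / 3 * (if H[2 * (i + 5) - 1]? = some b2 then bO (i + 5) else 0)) := by
    unfold Psi
    rw [← sum_add_distrib]
    apply sum_le_sum
    intro i _
    have h1 := dE_two (q := i + 5) (by omega) H hne b1 b2
    have h2 := dO_two (q := i + 5) (by omega) H hne b1 b2
    linarith
  refine h1.trans ?_
  rw [sum_add_distrib, sum_add_distrib, sum_add_distrib, sum_add_distrib, ← mul_sum, ← mul_sum,
    ← mul_sum, ← mul_sum]
  have h2 := hb b1
  have h3 := hb b2
  have h4 : ∑ i ∈ range K, bE (i + 5) ≤ 81 / 500 := by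
    have := sum_pow_le K 4
    have h : ∑ i ∈ range K, bE (i + 5) = 1 / 2 * ∑ i ∈ range K, ((3:ℝ) / 5) ^ (i + 4) := by
      rw [mul_sum]; rfl
    rw [h]
    norm_num at this ⊢
    linarith
  have h5 : ∑ i ∈ range K, bO (i + 5) ≤ 243 / 2500 := by
    have := sum_pow_le K 5
    have h : ∑ i ∈ range K, bO (i + 5) = 1 / 2 * ∑ i ∈ range K, ((3:ℝ) / 5) ^ (i + 5) := by
      rw [mul_sum]; rfl
    rw [h]
    norm_num at this ⊢
    linarith
  have h6 : ∑ i ∈ range K, (dE (i + 5) H + dO (i + 5) H) = Psi K H := rfl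
  rw [h6]
  linarith

/-- letters that Player 1 does not play because of the periods at least 10 -/
def LongBad (K : ℕ) (H : List (Fin 5)) (a : Fin 5) : Prop :=
  (∃ i < K, jE (i + 5) H = i + 4 ∧ H[2 * (i + 5) - 1]? = some a) ∨
  (∃ i < K, rO (i + 5) H = 2 * (i + 5) - 1 ∧ H[2 * (i + 5)]? = some a)

theorem dE_full {i : ℕ} {H : List (Fin 5)} (h : jE (i + 5) H = i + 4) : dE (i + 5) H = 1 / 2 := by
  unfold dE
  rw [h, show i + 5 - 1 - (i + 4) = 0 by omega]
  norm_num

theorem dO_full {i : ℕ} {H : List (Fin 5)} (h : rO (i + 5) H = 2 * (i + 5) - 1) :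
    dO (i + 5) H = 1 / 2 := by
  unfold dO
  rw [h, show i + 5 - (2 * (i + 5) - 1 + 1) / 2 = 0 by omega]
  norm_num

theorem bE_le {i : ℕ} : bE (i + 5) ≤ 648 / 10000 := by
  unfold bE
  have := pow_anti (show 4 ≤ i + 5 - 1 by omega)
  norm_num at this ⊢
  linarith

theorem bO_le {i : ℕ} : 5 / 3 * bO (i + 5) ≤ 648 / 10000 := by
  unfold bO
  have := pow_anti (show 5 ≤ i + 5 by omega)
  norm_num at this ⊢
  linarith

theorem sum_erase_le {K i : ℕ} (hi : i < K) (f g : ℕ → ℝ) (h : ∀ j, g j ≤ 5 / 3 * f j) :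
    ∑ j ∈ range K, g j ≤ 5 / 3 * (∑ j ∈ range K, f j - f i) + g i := by
  rw [← Finset.sum_erase_add _ _ (mem_range.2 hi), ← Finset.sum_erase_add _ f (mem_range.2 hi)]
  have : ∑ j ∈ (range K).erase i, g j ≤ 5 / 3 * ∑ j ∈ (range K).erase i, f j := by
    rw [mul_sum]
    exact sum_le_sum fun j _ => h j
  linarith

theorem Psi_omit {K : ℕ} {H : List (Fin 5)} {a1 a2 : Fin 5} (hne : a1 ≠ a2) (b : Fin 5)
    (h : LongBad K H a2) :
    Psi K (b :: a1 :: H) ≤ 5 / 3 * (Psi K H - 1 / 2) + 648 / 10000 := by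
  have hsum : ∀ G : List (Fin 5), Psi K G = ∑ i ∈ range K, dE (i + 5) G +
      ∑ i ∈ range K, dO (i + 5) G := by
    intro G; unfold Psi; rw [sum_add_distrib]
  rw [hsum, hsum]
  rcases h with ⟨i, hi, h1, h2⟩ | ⟨i, hi, h1, h2⟩
  · have e1 := sum_erase_le hi (fun j => dE (j + 5) H) (fun j => dE (j + 5) (b :: a1 :: H))
      (fun j => dE_any _ _ _ _)
    have e2 : ∑ i ∈ range K, dO (i + 5) (b :: a1 :: H) ≤ 5 / 3 * ∑ i ∈ range K, dO (i + 5) H := by
      rw [mul_sum]; exact sum_le_sum fun j _ => dO_any _ _ _ _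
    beta_reduce at e1
    rw [dE_full h1, dE_ne (by omega) b (show H[2 * (i + 5) - 1]? ≠ some a1 by
      rw [h2]; intro h; exact hne (Option.some.inj h).symm)] at e1
    have := bE_le (i := i)
    linarith
  · have e1 := sum_erase_le hi (fun j => dO (j + 5) H) (fun j => dO (j + 5) (b :: a1 :: H))
      (fun j => dO_any _ _ _ _)
    have e2 : ∑ i ∈ range K, dE (i + 5) (b :: a1 :: H) ≤ 5 / 3 * ∑ i ∈ range K, dE (i + 5) H := by
      rw [mul_sum]; exact sum_le_sum fun j _ => dE_any _ _ _ _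
    beta_reduce at e1
    rw [dO_full h1] at e1
    have e3 := dO_ne (q := i + 5) b (show H[2 * (i + 5)]? ≠ some a1 by
      rw [h2]; intro h; exact hne (Option.some.inj h).symm)
    have := bO_le (i := i)
    linarith

theorem Psi_ge_half {K : ℕ} {H : List (Fin 5)} {a : Fin 5} (h : LongBad K H a) :
    1 / 2 ≤ Psi K H := by
  unfold Psi
  rcases h with ⟨i, hi, h1, h2⟩ | ⟨i, hi, h1, h2⟩
  · calc (1:ℝ) / 2 = dE (i + 5) H := (dE_full h1).symm
      _ ≤ dE (i + 5) H + dO (i + 5) H := by have := dO_pos (i + 5) H; linarith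
      _ ≤ _ := single_le_sum (f := fun i => dE (i + 5) H + dO (i + 5) H)
        (fun j _ => (add_pos (dE_pos _ _) (dO_pos _ _)).le) (mem_range.2 hi)
  · calc (1:ℝ) / 2 = dO (i + 5) H := (dO_full h1).symm
      _ ≤ dE (i + 5) H + dO (i + 5) H := by have := dE_pos (i + 5) H; linarith
      _ ≤ _ := single_le_sum (f := fun i => dE (i + 5) H + dO (i + 5) H)
        (fun j _ => (add_pos (dE_pos _ _) (dO_pos _ _)).le) (mem_range.2 hi)

theorem pair_le_sum {K i j : ℕ} (hi : i < K) (hj : j < K) (hij : i ≠ j) (f : ℕ → ℝ)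
    (hf : ∀ k, 0 ≤ f k) : f i + f j ≤ ∑ k ∈ range K, f k := by
  rw [← sum_pair hij]
  apply sum_le_sum_of_subset_of_nonneg
  · intro k hk
    simp only [mem_insert, mem_singleton] at hk
    rcases hk with rfl | rfl <;> simpa
  · intro k _ _; exact hf k

theorem Psi_ge_one {K : ℕ} {H : List (Fin 5)} {a1 a2 : Fin 5} (hne : a1 ≠ a2)
    (h1 : LongBad K H a1) (h2 : LongBad K H a2) : 1 ≤ Psi K H := by
  have hsum : Psi K H = ∑ i ∈ range K, dE (i + 5) H + ∑ i ∈ range K, dO (i + 5) H := by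
    unfold Psi; rw [sum_add_distrib]
  have nE : 0 ≤ ∑ i ∈ range K, dE (i + 5) H := sum_nonneg fun i _ => (dE_pos _ _).le
  have nO : 0 ≤ ∑ i ∈ range K, dO (i + 5) H := sum_nonneg fun i _ => (dO_pos _ _).le
  have sE : ∀ i < K, dE (i + 5) H ≤ ∑ i ∈ range K, dE (i + 5) H := fun i hi =>
    single_le_sum (f := fun i => dE (i + 5) H) (fun j _ => (dE_pos _ _).le) (mem_range.2 hi)
  have sO : ∀ i < K, dO (i + 5) H ≤ ∑ i ∈ range K, dO (i + 5) H := fun i hi =>
    single_le_sum (f := fun i => dO (i + 5) H) (fun j _ => (dO_pos _ _).le) (mem_range.2 hi)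
  rw [hsum]
  rcases h1 with ⟨i, hi, h1, h1'⟩ | ⟨i, hi, h1, h1'⟩
  · rcases h2 with ⟨j, hj, h2, h2'⟩ | ⟨j, hj, h2, h2'⟩
    · have hij : i ≠ j := by
        rintro rfl
        rw [h1'] at h2'
        exact hne (Option.some.inj h2')
      have := pair_le_sum hi hj hij (fun k => dE (k + 5) H) (fun k => (dE_pos _ _).le)
      simp only [dE_full h1, dE_full h2] at this
      linarith
    · have e1 := sE i hi
      have e2 := sO j hj
      rw [dE_full h1] at e1
      rw [dO_full h2] at e2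
      linarith
  · rcases h2 with ⟨j, hj, h2, h2'⟩ | ⟨j, hj, h2, h2'⟩
    · have e1 := sE j hj
      have e2 := sO i hi
      rw [dE_full h2] at e1
      rw [dO_full h1] at e2
      linarith
    · have hij : i ≠ j := by
        rintro rfl
        rw [h1'] at h2'
        exact hne (Option.some.inj h2')
      have := pair_le_sum hi hj hij (fun k => dO (k + 5) H) (fun k => (dO_pos _ _).le)
      simp only [dO_full h1, dO_full h2] at this
      linarith

end Pool.Agent.Zk83.Game
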