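import Mathlib

set_option autoImplicit false

/-!
# Certificate trees for the 5-letter sequence game

The state of the game is described by the last nine symbols, up to renaming (the symbols are
labelled in the order of their first appearance, going back in time), and by one class for each
of the periods 6, 7, 8, 9, which bounds the length of the current match with that period.
-/

namespace Pool.Agent.Zk83.Game

/-- labels; also used for classes (`a = 0, ..., e = 4`) -/
inductive Lt
  | a | b | c | d | e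
  deriving DecidableEq

open Lt

instance : Fintype Lt := ⟨{.a, .b, .c, .d, .e}, by intro x; cases x <;> decide⟩

def eqb : Lt → Lt → Bool
  | .a, .a => true
  | .b, .b => true
  | .c, .c => true
  | .d, .d => true
  | .e, .e => true
  | _, _ => false

theorem eqb_iff : ∀ x y : Lt, eqb x y = true ↔ x = y := by decide

/-- `leb x y` says `x ≤ y` in the order `a < b < c < d < e` -/
def leb : Lt → Lt → Bool
  | .a, _ => true
  | .b, .a => false
  | .b, _ => true
  | .c, .a => false
  | .c, .b => false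
  | .c, _ => true
  | .d, .d => true
  | .d, .e => true
  | .d, _ => false
  | .e, .e => true
  | .e, _ => false

/-- renaming of labels when the symbol labelled `x` is played -/
def rho : Lt → Lt → Lt
  | .a, y => y
  | .b, .a => .b
  | .b, .b => .a
  | .b, y => y
  | .c, .a => .b
  | .c, .b => .c
  | .c, .c => .a
  | .c, y => y
  | .d, .a => .b
  | .d, .b => .c
  | .d, .c => .d
  | .d, .d => .a
  | .d, y => y
  | .e, .a => .b
  | .e, .b => .c
  | .e, .c => .d
  | .e, .d => .e
  | .e, .e => .a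

theorem rho_bij : ∀ x : Lt, Function.Bijective (rho x) := by
  intro x
  rw [Fintype.bijective_iff_injective_and_card]
  refine ⟨?_, rfl⟩
  revert x
  decide

theorem rho_self : ∀ x : Lt, rho x x = .a := by decide

def inc6 : Lt → Lt
  | .a => .b
  | _ => .c

def inc8 : Lt → Lt
  | .a => .b
  | .b => .c
  | _ => .d

def inc9 : Lt → Lt
  | .a => .b
  | .b => .c
  | .c => .d
  | _ => .e

/-- list of entries: classes of the periods 6, 7, 8, 9, weight, and one or two letters (one if
`x1 = x2`) with lower bounds for the weights that are reached by playing them -/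
inductive Es
  | nil
  | cons (c6 c7 c8 c9 : Lt) (w : Nat) (x1 : Lt) (v1 : Nat) (x2 : Lt) (v2 : Nat) (r : Es)

inductive Tr
  | nil
  | leaf (es : Es)
  | node (ta tb tc td te : Tr)

def child : Tr → Lt → Tr
  | .node ta _ _ _ _, .a => ta
  | .node _ tb _ _ _, .b => tb
  | .node _ _ tc _ _, .c => tc
  | .node _ _ _ td _, .d => td
  | .node _ _ _ _ te, .e => te
  | _, _ => .nil

def entries : Tr → Es
  | .leaf es => es
  | _ => .nil

/-- largest weight of an entry dominating the classes `c6, ..., c9` (0 if there is none) -/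
def best : Es → Lt → Lt → Lt → Lt → Nat
  | .nil, _, _, _, _ => 0
  | .cons k6 k7 k8 k9 w _ _ _ _ r, c6, c7, c8, c9 =>
    match leb c6 k6 && (leb c7 k7 && (leb c8 k8 && leb c9 k9)) with
    | true => match Nat.ble (best r c6 c7 c8 c9) w with
      | true => w
      | false => best r c6 c7 c8 c9
    | false => best r c6 c7 c8 c9

def get8 (T : Tr) (l1 l2 l3 l4 l5 l6 l7 l8 : Lt) : Es :=
  entries (child (child (child (child (child (child (child (child T l1) l2) l3) l4) l5) l6) l7) l8)

def cl6 (l4 l5 c6 x y : Lt) : Lt :=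
  match eqb x l5 && eqb y (rho x l4) with
  | true => inc6 c6
  | false => .a

def cl7 (l5 l6 c7 x y : Lt) : Lt :=
  match eqb y (rho x l5) with
  | true => match eqb x l6 with
    | true => inc8 c7
    | false => .b
  | false => .a

def cl8 (l6 l7 c8 x y : Lt) : Lt :=
  match eqb x l7 && eqb y (rho x l6) with
  | true => inc8 c8
  | false => .a

def cl9 (l7 l8 c9 x y : Lt) : Lt :=
  match eqb y (rho x l7) with
  | true => match eqb x l8 with
    | true => inc9 c9
    | false => .b
  | false => .a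

/-- weight of the position after the moves `x` (label before the move) and `y` (label after the
renaming `rho x`) -/
def look (T : Tr) (l0 l1 l2 l3 l4 l5 l6 l7 l8 c6 c7 c8 c9 x y : Lt) : Nat :=
  best (get8 T (rho y .a) (rho y (rho x l0)) (rho y (rho x l1)) (rho y (rho x l2))
      (rho y (rho x l3)) (rho y (rho x l4)) (rho y (rho x l5)) (rho y (rho x l6)))
    (cl6 l4 l5 c6 x y) (cl7 l5 l6 c7 x y) (cl8 l6 l7 c8 x y) (cl9 l7 l8 c9 x y)

/-- all replies of Player 2 lead to weight at least `v` -/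
def geAll (T : Tr) (l0 l1 l2 l3 l4 l5 l6 l7 l8 c6 c7 c8 c9 x : Lt) (v : Nat) : Bool :=
  Nat.ble v (look T l0 l1 l2 l3 l4 l5 l6 l7 l8 c6 c7 c8 c9 x .a) &&
  (Nat.ble v (look T l0 l1 l2 l3 l4 l5 l6 l7 l8 c6 c7 c8 c9 x .b) &&
  (Nat.ble v (look T l0 l1 l2 l3 l4 l5 l6 l7 l8 c6 c7 c8 c9 x .c) &&
  (Nat.ble v (look T l0 l1 l2 l3 l4 l5 l6 l7 l8 c6 c7 c8 c9 x .d) &&
  Nat.ble v (look T l0 l1 l2 l3 l4 l5 l6 l7 l8 c6 c7 c8 c9 x .e))))

/-- the label `x` may be played, as far as the periods up to 9 are concerned -/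
def allowed (l0 l1 l2 l3 l4 l5 l6 l7 l8 c6 c7 c8 c9 x : Lt) : Bool :=
  !(eqb x l0) && (!(eqb x l1) && (!(eqb l0 l3 && eqb x l2) &&
  (!(eqb l0 l4 && (eqb l1 l5 && eqb x l3)) &&
  (!(eqb l0 l5 && (eqb l1 l6 && (eqb l2 l7 && eqb x l4))) &&
  (!(leb .c c6 && eqb x l5) && (!(leb .d c7 && eqb x l6) && (!(leb .d c8 && eqb x l7) &&
  !(leb .e c9 && eqb x l8))))))))

/-- the numerical condition on an entry with one letter -/
def cond1 (w v1 : Nat) : Bool := Nat.ble w 5000 && Nat.ble (5 * w) (3 * v1)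

/-- the numerical condition on an entry with two letters -/
def cond2 (w v1 v2 : Nat) : Bool :=
  Nat.ble w 10000 && (Nat.ble (5 * w + 8262) (3 * (v1 + v2)) &&
  (Nat.ble (10 * w + 3888) (6 * v1 + 50000) && Nat.ble (10 * w + 3888) (6 * v2 + 50000)))

/-- all entries of the list are correct -/
def chkEs (T : Tr) (l0 l1 l2 l3 l4 l5 l6 l7 l8 : Lt) : Es → Bool
  | .nil => true
  | .cons c6 c7 c8 c9 w x1 v1 x2 v2 r =>
    allowed l0 l1 l2 l3 l4 l5 l6 l7 l8 c6 c7 c8 c9 x1 &&
    (geAll T l0 l1 l2 l3 l4 l5 l6 l7 l8 c6 c7 c8 c9 x1 v1 &&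
    ((match eqb x1 x2 with
      | true => cond1 w v1
      | false => cond2 w v1 v2 &&
        (allowed l0 l1 l2 l3 l4 l5 l6 l7 l8 c6 c7 c8 c9 x2 &&
        geAll T l0 l1 l2 l3 l4 l5 l6 l7 l8 c6 c7 c8 c9 x2 v2)) &&
    chkEs T l0 l1 l2 l3 l4 l5 l6 l7 l8 r))

def allc : Tr → (Lt → Tr → Bool) → Bool
  | .node ta tb tc td te, f =>
    f .a ta && (f .b tb && (f .c tc && (f .d td && f .e te)))
  | _, _ => true

def chkLeaf (T : Tr) (l1 l2 l3 l4 l5 l6 l7 l8 : Lt) : Tr → Bool
  | .leaf es => chkEs T .a l1 l2 l3 l4 l5 l6 l7 l8 es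
  | _ => true

def chk4 (T : Tr) (l1 l2 l3 l4 : Lt) (t : Tr) : Bool :=
  allc t fun l5 t => allc t fun l6 t => allc t fun l7 t => allc t fun l8 t =>
    chkLeaf T l1 l2 l3 l4 l5 l6 l7 l8 t

def chkAll (T : Tr) : Bool :=
  allc T fun l1 t => allc t fun l2 t => allc t fun l3 t => allc t fun l4 t => chk4 T l1 l2 l3 l4 t

end Pool.Agent.Zk83.Game
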