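import Mathlib
import Pool.Agent.H42.Game.Def
import Pool.Agent.H42.Game.Upper
import Pool.Agent.H42.Game.Strategy
import Pool.Agent.Zk83.Game.Tree
import Pool.Agent.Zk83.Game.Check
import Pool.Agent.Zk83.Game.Potential

set_option autoImplicit false
set_option linter.constructorNameAsVariable false

namespace Pool.Agent.Zk83.Game

open H42Game (Act Bad GoodL good_cons Win WinAll hst hst_succ no_rep PlayerOneWins)

/-! ### Soundness of the tree check -/

theorem allc_child {t : Tr} {f : Lt → Tr → Bool} (h : t = .nil ∨ allc t f = true) (l : Lt) :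
    child t l = .nil ∨ f l (child t l) = true := by
  rcases h with rfl | h
  · left; cases l <;> rfl
  · cases t with
    | nil => left; cases l <;> rfl
    | leaf es => left; cases l <;> rfl
    | node ta tb tc td te =>
      right
      simp only [allc, Bool.and_eq_true] at h
      obtain ⟨h1, h2, h3, h4, h5⟩ := h
      cases l <;> assumption

theorem chkAll_get {T : Tr} (h : chkAll T = true) (l1 l2 l3 l4 l5 l6 l7 l8 : Lt) :
    chkEs T .a l1 l2 l3 l4 l5 l6 l7 l8 (get8 T l1 l2 l3 l4 l5 l6 l7 l8) = true := by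
  have h1 := allc_child (Or.inr h) l1
  have h2 := allc_child h1 l2
  have h3 := allc_child h2 l3
  have h4 := allc_child h3 l4
  have h5 := allc_child (f := fun l5 t => allc t fun l6 t => allc t fun l7 t => allc t fun l8 t =>
    chkLeaf T l1 l2 l3 l4 l5 l6 l7 l8 t) h4 l5
  have h6 := allc_child h5 l6
  have h7 := allc_child h6 l7
  have h8 := allc_child h7 l8
  unfold get8
  rcases h8 with h8 | h8
  · rw [h8]; rfl
  · revert h8
    generalize child (child (child (child (child (child (child (child T l1) l2) l3) l4) l5) l6) l7)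
      l8 = t
    intro h8
    cases t with
    | nil => rfl
    | leaf es => exact h8
    | node ta tb tc td te => rfl

/-- a correct entry -/
def EntryOK (T : Tr) (l0 l1 l2 l3 l4 l5 l6 l7 l8 c6 c7 c8 c9 : Lt) (w : ℕ) (x1 : Lt) (v1 : ℕ)
    (x2 : Lt) (v2 : ℕ) : Prop :=
  allowed l0 l1 l2 l3 l4 l5 l6 l7 l8 c6 c7 c8 c9 x1 = true ∧
  geAll T l0 l1 l2 l3 l4 l5 l6 l7 l8 c6 c7 c8 c9 x1 v1 = true ∧
  ((x1 = x2 ∧ cond1 w v1 = true) ∨ (x1 ≠ x2 ∧ cond2 w v1 v2 = true ∧
    allowed l0 l1 l2 l3 l4 l5 l6 l7 l8 c6 c7 c8 c9 x2 = true ∧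
    geAll T l0 l1 l2 l3 l4 l5 l6 l7 l8 c6 c7 c8 c9 x2 v2 = true))

theorem best_spec {T : Tr} {l0 l1 l2 l3 l4 l5 l6 l7 l8 : Lt} (es : Es)
    (h : chkEs T l0 l1 l2 l3 l4 l5 l6 l7 l8 es = true) (c6 c7 c8 c9 : Lt) :
    best es c6 c7 c8 c9 = 0 ∨ ∃ k6 k7 k8 k9 x1 v1 x2 v2, leb c6 k6 = true ∧ leb c7 k7 = true ∧
      leb c8 k8 = true ∧ leb c9 k9 = true ∧
      EntryOK T l0 l1 l2 l3 l4 l5 l6 l7 l8 k6 k7 k8 k9 (best es c6 c7 c8 c9) x1 v1 x2 v2 := by
  induction es with
  | nil => left; rfl
  | cons k6 k7 k8 k9 w x1 v1 x2 v2 r ih =>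
    simp only [chkEs, Bool.and_eq_true] at h
    obtain ⟨h1, h2, h3, h4⟩ := h
    have ih' := ih h4
    unfold best
    cases hle : (leb c6 k6 && (leb c7 k7 && (leb c8 k8 && leb c9 k9))) with
    | false => exact ih'
    | true =>
      cases hb : Nat.ble (best r c6 c7 c8 c9) w with
      | false => exact ih'
      | true =>
        right
        simp only [Bool.and_eq_true] at hle
        refine ⟨k6, k7, k8, k9, x1, v1, x2, v2, hle.1, hle.2.1, hle.2.2.1, hle.2.2.2, h1, h2, ?_⟩
        by_cases hx : x1 = x2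
        · left
          refine ⟨hx, ?_⟩
          have : eqb x1 x2 = true := (eqb_iff _ _).2 hx
          rw [this] at h3
          exact h3
        · right
          refine ⟨hx, ?_⟩
          have : eqb x1 x2 = false := by
            rw [← Bool.not_eq_true, eqb_iff]; exact hx
          rw [this] at h3
          simp only [Bool.and_eq_true] at h3
          exact h3

theorem geAll_spec {T : Tr} {l0 l1 l2 l3 l4 l5 l6 l7 l8 c6 c7 c8 c9 x : Lt} {v : ℕ}
    (h : geAll T l0 l1 l2 l3 l4 l5 l6 l7 l8 c6 c7 c8 c9 x v = true) (y : Lt) :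
    v ≤ look T l0 l1 l2 l3 l4 l5 l6 l7 l8 c6 c7 c8 c9 x y := by
  simp only [geAll, Bool.and_eq_true, Nat.ble_eq] at h
  obtain ⟨h1, h2, h3, h4, h5⟩ := h
  cases y <;> assumption

/-! ### Representation of histories -/

/-- there is a mismatch with period `p` among the last `k + 1` symbols -/
def Cond (H : List (Fin 5)) (p k : ℕ) : Prop := ∃ i ≤ k, H[i]? ≠ H[i + p]?

theorem Cond.mono {H : List (Fin 5)} {p k k' : ℕ} (h : Cond H p k) (hk : k ≤ k') : Cond H p k' := by
  obtain ⟨i, hi, h⟩ := h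
  exact ⟨i, hi.trans hk, h⟩

theorem Cond.shift {H : List (Fin 5)} {p k : ℕ} (h : Cond H p k) (a b : Fin 5) {k' : ℕ}
    (hk : k + 2 ≤ k') : Cond (b :: a :: H) p k' := by
  obtain ⟨i, hi, h⟩ := h
  refine ⟨i + 2, by omega, ?_⟩
  rw [show i + 2 + p = (i + p) + 1 + 1 by ring]
  simpa using h

theorem Cond.zero {H : List (Fin 5)} {p : ℕ} (a b : Fin 5) (h : H[p]? ≠ some b) (k : ℕ) :
    Cond (b :: a :: H) (p + 2) k := by
  refine ⟨0, Nat.zero_le _, ?_⟩
  rw [show 0 + (p + 2) = p + 1 + 1 by ring]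
  simpa using fun h' => h h'.symm

theorem Cond.one {H : List (Fin 5)} {p : ℕ} (a b : Fin 5) (h : H[p + 1]? ≠ some a) {k : ℕ}
    (hk : 1 ≤ k) : Cond (b :: a :: H) (p + 2) k := by
  refine ⟨1, hk, ?_⟩
  rw [show 1 + (p + 2) = (p + 1) + 1 + 1 by ring]
  simpa using fun h' => h h'.symm

theorem Cond.not_act {H : List (Fin 5)} {p k : ℕ} (h : Cond H p k) (hk : k + 2 < p) :
    ¬ Act p H := by
  rintro ⟨-, h2⟩
  obtain ⟨i, hi, h⟩ := h
  exact h (h2 i (by omega))

def C6 (H : List (Fin 5)) : Lt → Prop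
  | .a => Cond H 6 1
  | .b => Cond H 6 3
  | _ => True

def C7 (H : List (Fin 5)) : Lt → Prop
  | .a => Cond H 7 0
  | .b => Cond H 7 2
  | .c => Cond H 7 4
  | _ => True

def C8 (H : List (Fin 5)) : Lt → Prop
  | .a => Cond H 8 1
  | .b => Cond H 8 3
  | .c => Cond H 8 5
  | _ => True

def C9 (H : List (Fin 5)) : Lt → Prop
  | .a => Cond H 9 0
  | .b => Cond H 9 2
  | .c => Cond H 9 4
  | .d => Cond H 9 6
  | _ => True

theorem C6.mono {H : List (Fin 5)} {c k : Lt} (h : leb c k = true) (hc : C6 H c) : C6 H k := by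
  cases c <;> cases k <;> simp only [leb, Bool.false_eq_true] at h <;> simp only [C6] at hc ⊢ <;>
    first
    | trivial
    | exact hc.mono (by norm_num)

theorem C7.mono {H : List (Fin 5)} {c k : Lt} (h : leb c k = true) (hc : C7 H c) : C7 H k := by
  cases c <;> cases k <;> simp only [leb, Bool.false_eq_true] at h <;> simp only [C7] at hc ⊢ <;>
    first
    | trivial
    | exact hc.mono (by norm_num)

theorem C8.mono {H : List (Fin 5)} {c k : Lt} (h : leb c k = true) (hc : C8 H c) : C8 H k := by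
  cases c <;> cases k <;> simp only [leb, Bool.false_eq_true] at h <;> simp only [C8] at hc ⊢ <;>
    first
    | trivial
    | exact hc.mono (by norm_num)

theorem C9.mono {H : List (Fin 5)} {c k : Lt} (h : leb c k = true) (hc : C9 H c) : C9 H k := by
  cases c <;> cases k <;> simp only [leb, Bool.false_eq_true] at h <;> simp only [C9] at hc ⊢ <;>
    first
    | trivial
    | exact hc.mono (by norm_num)

structure Rep (σ : Lt → Fin 5) (l0 l1 l2 l3 l4 l5 l6 l7 l8 c6 c7 c8 c9 : Lt)
    (H : List (Fin 5)) : Prop where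
  bij : Function.Bijective σ
  h0 : H[0]? = some (σ l0)
  h1 : H[1]? = some (σ l1)
  h2 : H[2]? = some (σ l2)
  h3 : H[3]? = some (σ l3)
  h4 : H[4]? = some (σ l4)
  h5 : H[5]? = some (σ l5)
  h6 : H[6]? = some (σ l6)
  h7 : H[7]? = some (σ l7)
  h8 : H[8]? = some (σ l8)
  h6' : C6 H c6
  h7' : C7 H c7
  h8' : C8 H c8
  h9' : C9 H c9

theorem Rep.mono {σ : Lt → Fin 5} {l0 l1 l2 l3 l4 l5 l6 l7 l8 c6 c7 c8 c9 : Lt}
    {H : List (Fin 5)} (R : Rep σ l0 l1 l2 l3 l4 l5 l6 l7 l8 c6 c7 c8 c9 H)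
    {k6 k7 k8 k9 : Lt} (e6 : leb c6 k6 = true) (e7 : leb c7 k7 = true) (e8 : leb c8 k8 = true)
    (e9 : leb c9 k9 = true) : Rep σ l0 l1 l2 l3 l4 l5 l6 l7 l8 k6 k7 k8 k9 H :=
  ⟨R.bij, R.h0, R.h1, R.h2, R.h3, R.h4, R.h5, R.h6, R.h7, R.h8, R.h6'.mono e6, R.h7'.mono e7,
    R.h8'.mono e8, R.h9'.mono e9⟩

theorem C6.step {H : List (Fin 5)} {c : Lt} (h : C6 H c) (a b : Fin 5) :
    C6 (b :: a :: H) (inc6 c) := by
  cases c <;> simp only [C6, inc6] at h ⊢
  exact h.shift a b (by norm_num)

theorem C7.step {H : List (Fin 5)} {c : Lt} (h : C7 H c) (a b : Fin 5) :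
    C7 (b :: a :: H) (inc8 c) := by
  cases c <;> simp only [C7, inc8] at h ⊢
  · exact h.shift a b (by norm_num)
  · exact h.shift a b (by norm_num)

theorem C8.step {H : List (Fin 5)} {c : Lt} (h : C8 H c) (a b : Fin 5) :
    C8 (b :: a :: H) (inc8 c) := by
  cases c <;> simp only [C8, inc8] at h ⊢
  · exact h.shift a b (by norm_num)
  · exact h.shift a b (by norm_num)

theorem C9.step {H : List (Fin 5)} {c : Lt} (h : C9 H c) (a b : Fin 5) :
    C9 (b :: a :: H) (inc9 c) := by
  cases c <;> simp only [C9, inc9] at h ⊢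
  · exact h.shift a b (by norm_num)
  · exact h.shift a b (by norm_num)
  · exact h.shift a b (by norm_num)

theorem some_ne {σ : Lt → Fin 5} (hσ : Function.Injective σ) {x y : Lt} (h : eqb x y = false)
    {o : Option (Fin 5)} (ho : o = some (σ y)) : o ≠ some (σ x) := by
  rw [ho]
  intro h'
  have := hσ (Option.some.inj h')
  subst this
  rw [(eqb_iff y y).2 rfl] at h
  cases h

theorem eqb_rho (x y z : Lt) : eqb (rho x y) (rho x z) = eqb y z := by
  revert x y z; decide

/-- after Player 1 plays the letter with label `x` and Player 2 any letter `b`, the new history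
is represented by the new labels -/
theorem Rep.step {σ : Lt → Fin 5} {l0 l1 l2 l3 l4 l5 l6 l7 l8 c6 c7 c8 c9 : Lt}
    {H : List (Fin 5)} (R : Rep σ l0 l1 l2 l3 l4 l5 l6 l7 l8 c6 c7 c8 c9 H) (x : Lt)
    (b : Fin 5) : ∃ (y : Lt) (τ : Lt → Fin 5),
      Rep τ .a (rho y .a) (rho y (rho x l0)) (rho y (rho x l1)) (rho y (rho x l2))
        (rho y (rho x l3)) (rho y (rho x l4)) (rho y (rho x l5)) (rho y (rho x l6))
        (cl6 l4 l5 c6 x y) (cl7 l5 l6 c7 x y) (cl8 l6 l7 c8 x y) (cl9 l7 l8 c9 x y)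
        (b :: σ x :: H) := by
  -- the renaming after `x`
  let ex := Equiv.ofBijective (rho x) (rho_bij x)
  let σ1 : Lt → Fin 5 := fun z => σ (ex.symm z)
  have hσ1 : Function.Bijective σ1 := R.bij.comp ex.symm.bijective
  have e1 : ∀ z, σ1 (rho x z) = σ z := by
    intro z
    show σ (ex.symm (ex z)) = σ z
    rw [Equiv.symm_apply_apply]
  obtain ⟨y, hy⟩ := hσ1.2 b
  let ey := Equiv.ofBijective (rho y) (rho_bij y)
  let σ2 : Lt → Fin 5 := fun z => σ1 (ey.symm z)
  have hσ2 : Function.Bijective σ2 := hσ1.comp ey.symm.bijective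
  have e2 : ∀ z, σ2 (rho y z) = σ1 z := by
    intro z
    show σ1 (ey.symm (ey z)) = σ1 z
    rw [Equiv.symm_apply_apply]
  have ha : σ1 .a = σ x := by rw [← rho_self x, e1]
  have hb : σ2 .a = b := by rw [← rho_self y, e2, hy]
  -- comparison of letters
  have nx : ∀ {l : Lt} {o : Option (Fin 5)}, eqb x l = false → o = some (σ l) →
      o ≠ some (σ x) := fun h ho => some_ne R.bij.1 h ho
  have ny : ∀ {l : Lt} {o : Option (Fin 5)}, eqb y (rho x l) = false → o = some (σ l) →
      o ≠ some b := by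
    intro l o h ho
    rw [← hy]
    exact some_ne hσ1.1 h (by rw [ho, e1])
  refine ⟨y, σ2, hσ2, ?_, ?_, ?_, ?_, ?_, ?_, ?_, ?_, ?_, ?_, ?_, ?_, ?_⟩
  · simp [hb]
  · simp [e2, ha]
  · simpa [e2, e1] using R.h0
  · simpa [e2, e1] using R.h1
  · simpa [e2, e1] using R.h2
  · simpa [e2, e1] using R.h3
  · simpa [e2, e1] using R.h4
  · simpa [e2, e1] using R.h5
  · simpa [e2, e1] using R.h6
  · unfold cl6
    cases h5 : eqb x l5 with
    | false => exact Cond.one _ _ (nx h5 R.h5) (by norm_num)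
    | true =>
      cases h4 : eqb y (rho x l4) with
      | false => exact Cond.zero _ _ (ny h4 R.h4) _
      | true => exact R.h6'.step _ _
  · unfold cl7
    cases h5 : eqb y (rho x l5) with
    | false => exact Cond.zero _ _ (ny h5 R.h5) _
    | true =>
      cases h6 : eqb x l6 with
      | false => exact Cond.one _ _ (nx h6 R.h6) (by norm_num)
      | true => exact R.h7'.step _ _
  · unfold cl8
    cases h7 : eqb x l7 with
    | false => exact Cond.one _ _ (nx h7 R.h7) (by norm_num)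
    | true =>
      cases h6 : eqb y (rho x l6) with
      | false => exact Cond.zero _ _ (ny h6 R.h6) _
      | true => exact R.h8'.step _ _
  · unfold cl9
    cases h7 : eqb y (rho x l7) with
    | false => exact Cond.zero _ _ (ny h7 R.h7) _
    | true =>
      cases h8 : eqb x l8 with
      | false => exact Cond.one _ _ (nx h8 R.h8) (by norm_num)
      | true => exact R.h9'.step _ _

/-- an allowed letter that is not bad because of a long period is not bad -/
theorem Rep.not_bad {σ : Lt → Fin 5} {l0 l1 l2 l3 l4 l5 l6 l7 l8 c6 c7 c8 c9 : Lt}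
    {H : List (Fin 5)} (R : Rep σ l0 l1 l2 l3 l4 l5 l6 l7 l8 c6 c7 c8 c9 H) {x : Lt}
    (hx : allowed l0 l1 l2 l3 l4 l5 l6 l7 l8 c6 c7 c8 c9 x = true) {K : ℕ}
    (hK : H.length ≤ K) (hL : ¬ LongBad K H (σ x)) : ¬ Bad H (σ x) := by
  simp only [allowed, Bool.and_eq_true, Bool.not_eq_true', Bool.and_eq_false_imp] at hx
  obtain ⟨x0, x1, x3, x4, x5, x6, x7, x8, x9⟩ := hx
  have inj : ∀ {l m : Lt} {i j : ℕ}, H[i]? = some (σ l) → H[j]? = some (σ m) → H[i]? = H[j]? →
      eqb l m = true := by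
    intro l m i j h1 h2 h3
    rw [h1, h2] at h3
    rw [eqb_iff]
    exact R.bij.1 (Option.some.inj h3)
  have nx : ∀ {l : Lt} {i : ℕ}, H[i]? = some (σ l) → H[i]? = some (σ x) → eqb x l = true := by
    intro l i h1 h2
    rw [h1] at h2
    rw [eqb_iff]
    exact (R.bij.1 (Option.some.inj h2)).symm
  rintro (h | h | ⟨p, hp, hA, h⟩)
  · rw [nx R.h0 h] at x0; cases x0
  · rw [nx R.h1 h] at x1; cases x1
  · rcases Nat.lt_or_ge p 10 with h10 | h10
    · interval_cases p
      · have e0 := inj R.h0 R.h3 (hA.2 0 (by norm_num))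
        have := x3 e0
        rw [nx R.h2 h] at this; cases this
      · have e0 := inj R.h0 R.h4 (hA.2 0 (by norm_num))
        have e1 := inj R.h1 R.h5 (hA.2 1 (by norm_num))
        have := x4 e0 e1
        rw [nx R.h3 h] at this; cases this
      · have e0 := inj R.h0 R.h5 (hA.2 0 (by norm_num))
        have e1 := inj R.h1 R.h6 (hA.2 1 (by norm_num))
        have e2 := inj R.h2 R.h7 (hA.2 2 (by norm_num))
        have := x5 e0 e1 e2
        rw [nx R.h4 h] at this; cases this
      · have hc : leb .c c6 = true := by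
          have := R.h6'
          cases c6 <;> simp only [C6] at this <;> first | rfl | exact absurd hA (this.not_act (by norm_num))
        have := x6 hc
        rw [nx R.h5 h] at this; cases this
      · have hc : leb .d c7 = true := by
          have := R.h7'
          cases c7 <;> simp only [C7] at this <;> first | rfl | exact absurd hA (this.not_act (by norm_num))
        have := x7 hc
        rw [nx R.h6 h] at this; cases this
      · have hc : leb .d c8 = true := by
          have := R.h8'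
          cases c8 <;> simp only [C8] at this <;> first | rfl | exact absurd hA (this.not_act (by norm_num))
        have := x8 hc
        rw [nx R.h7 h] at this; cases this
      · have hc : leb .e c9 = true := by
          have := R.h9'
          cases c9 <;> simp only [C9] at this <;> first | rfl | exact absurd hA (this.not_act (by norm_num))
        have := x9 hc
        rw [nx R.h8 h] at this; cases this
    · apply hL
      obtain ⟨hl, hA⟩ := hA
      rcases Nat.even_or_odd' p with ⟨q, rfl | rfl⟩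
      · left
        refine ⟨q - 5, by omega, ?_, ?_⟩
        · rw [show q - 5 + 5 = q by omega]
          apply le_antisymm
          · have := jE_le q H; omega
          · apply le_jE (by omega)
            intro i hi
            exact hA (2 * i + 1) (by omega)
        · rw [show q - 5 + 5 = q by omega]; exact h
      · right
        refine ⟨q - 5, by omega, ?_, ?_⟩
        · rw [show q - 5 + 5 = q by omega]
          apply le_antisymm
          · exact rO_le q H
          · apply le_rO le_rfl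
            intro i hi
            exact hA i (by omega)
        · rw [show q - 5 + 5 = q by omega]; exact h

/-! ### The invariant -/

/-- the invariant kept by Player 1 -/
def Safe (K : ℕ) (H : List (Fin 5)) : Prop :=
  GoodL H ∧ Inv H ∧ ∃ (σ : Lt → Fin 5) (l1 l2 l3 l4 l5 l6 l7 l8 c6 c7 c8 c9 : Lt),
    Rep σ .a l1 l2 l3 l4 l5 l6 l7 l8 c6 c7 c8 c9 H ∧
    10000 * Psi K H < (best (get8 tree l1 l2 l3 l4 l5 l6 l7 l8) c6 c7 c8 c9 : ℝ)

theorem Inv.cons {H : List (Fin 5)} (hI : Inv H) {a : Fin 5} (b : Fin 5) (h : H[1]? ≠ some a) :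
    Inv (b :: a :: H) := by
  intro i c hc
  rcases i with _ | i
  · simp only [Nat.mul_zero, Nat.zero_add, List.getElem?_cons_succ, List.getElem?_cons_zero,
      Option.some.injEq] at hc ⊢
    subst hc
    exact h
  · rw [show 2 * (i + 1) + 1 = (2 * i + 1) + 1 + 1 by ring] at hc
    rw [show 2 * (i + 1) + 3 = (2 * i + 3) + 1 + 1 by ring]
    simp only [List.getElem?_cons_succ] at hc ⊢
    exact hI i c hc

theorem Safe.step {K : ℕ} {H : List (Fin 5)} (hS : Safe K H) (hK : H.length ≤ K) :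
    ∃ a, ∀ b, Safe K (b :: a :: H) := by
  obtain ⟨hG, hI, σ, l1, l2, l3, l4, l5, l6, l7, l8, c6, c7, c8, c9, R, hlt⟩ := hS
  have hP := Psi_nonneg K H
  rcases best_spec _ (chkAll_get tree_ok l1 l2 l3 l4 l5 l6 l7 l8) c6 c7 c8 c9 with h0 |
    ⟨k6, k7, k8, k9, x1, v1, x2, v2, e6, e7, e8, e9, hA1, hG1, hrest⟩
  · rw [h0] at hlt
    norm_num at hlt
    linarith
  have R' := R.mono e6 e7 e8 e9
  generalize best (get8 tree l1 l2 l3 l4 l5 l6 l7 l8) c6 c7 c8 c9 = w at hlt hrest
  by_contra hcon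
  push Not at hcon
  -- every letter that is not bad leads to a large potential
  have key : ∀ x v, allowed .a l1 l2 l3 l4 l5 l6 l7 l8 k6 k7 k8 k9 x = true →
      geAll tree .a l1 l2 l3 l4 l5 l6 l7 l8 k6 k7 k8 k9 x v = true → ¬ LongBad K H (σ x) →
      ∃ b, (v : ℝ) ≤ 10000 * Psi K (b :: σ x :: H) := by
    intro x v hA hV hL
    have hnb := R'.not_bad hA hK hL
    obtain ⟨b, hb⟩ := hcon (σ x)
    refine ⟨b, ?_⟩
    by_contra hlt'
    push Not at hlt'
    apply hb
    refine ⟨good_cons hG hnb, hI.cons b fun h => hnb (Or.inr (Or.inl h)), ?_⟩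
    obtain ⟨y, τ, R2⟩ := R'.step x b
    refine ⟨τ, _, _, _, _, _, _, _, _, _, _, _, _, R2, ?_⟩
    refine hlt'.trans_le ?_
    have := geAll_spec hV y
    exact_mod_cast this
  rcases hrest with ⟨hx, hc⟩ | ⟨hx, hc, hA2, hG2⟩
  · simp only [cond1, Bool.and_eq_true, Nat.ble_eq] at hc
    have c1 : (w : ℝ) ≤ 5000 := by exact_mod_cast hc.1
    have c2 : 5 * (w : ℝ) ≤ 3 * v1 := by exact_mod_cast hc.2
    by_cases hL : LongBad K H (σ x1)
    · have := Psi_ge_half hL
      linarith
    · obtain ⟨b, hb⟩ := key x1 v1 hA1 hG1 hL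
      have := Psi_one K H (σ x1) b
      linarith
  · simp only [cond2, Bool.and_eq_true, Nat.ble_eq] at hc
    have c0 : (w : ℝ) ≤ 10000 := by exact_mod_cast hc.1
    have c1 : 5 * (w : ℝ) + 8262 ≤ 3 * (v1 + v2) := by exact_mod_cast hc.2.1
    have c2 : 10 * (w : ℝ) + 3888 ≤ 6 * v1 + 50000 := by exact_mod_cast hc.2.2.1
    have c3 : 10 * (w : ℝ) + 3888 ≤ 6 * v2 + 50000 := by exact_mod_cast hc.2.2.2
    have hne : σ x1 ≠ σ x2 := fun h => hx (R.bij.1 h)
    by_cases hL1 : LongBad K H (σ x1)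
    · by_cases hL2 : LongBad K H (σ x2)
      · have := Psi_ge_one hne hL1 hL2
        linarith
      · obtain ⟨b, hb⟩ := key x2 v2 hA2 hG2 hL2
        have := Psi_omit hne.symm b hL1
        linarith
    · by_cases hL2 : LongBad K H (σ x2)
      · obtain ⟨b, hb⟩ := key x1 v1 hA1 hG1 hL1
        have := Psi_omit hne b hL2
        linarith
      · obtain ⟨b1, hb1⟩ := key x1 v1 hA1 hG1 hL1
        obtain ⟨b2, hb2⟩ := key x2 v2 hA2 hG2 hL2
        have := Psi_two K H hI hne b1 b2
        linarith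

end Pool.Agent.Zk83.Game
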