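import Mathlib
import Pool.Agent.Zk83.Game.Main

set_option autoImplicit false

namespace Pool.Agent.Zk83.Game

open H42Game (GoodL Win WinAll hst hst_succ no_rep PlayerOneWins)

theorem good_of_append {h u : List (Fin 5)} (H : GoodL (h ++ u)) : GoodL h := by
  have e : ∀ i < h.length, (h ++ u)[i]? = h[i]? := fun i hi => List.getElem?_append_left hi
  constructor
  · intro j p hp hl
    obtain ⟨i, hi, hne⟩ := H.1 j p hp (by rw [List.length_append]; omega)
    refine ⟨i, hi, ?_⟩
    rwa [e _ (by omega), e _ (by omega)] at hne
  · intro j hl
    have := H.2 j (by rw [List.length_append]; omega)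
    rwa [e _ (by omega), e _ (by omega), e _ (by omega)] at this

theorem win_of_safe {K : ℕ} {u : List (Fin 5)} (n : ℕ) : ∀ h : List (Fin 5), Safe K (h ++ u) →
    (h ++ u).length + 2 * n ≤ K → Win n h := by
  induction n with
  | zero => intro h hS _; exact good_of_append hS.1
  | succ n ih =>
    intro h hS hK
    refine ⟨good_of_append hS.1, ?_⟩
    obtain ⟨a, ha⟩ := hS.step (by omega)
    refine ⟨a, fun b => ih (b :: a :: h) (by simpa using ha b) ?_⟩
    simp only [List.cons_append, List.length_cons]
    omega

/-- the (virtual) past before the game starts, most recent symbol first -/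
def start : List (Fin 5) := [3, 4, 2, 3, 1, 2, 0, 1, 4, 0]

def startMap : Lt → Fin 5
  | .a => 3
  | .b => 4
  | .c => 2
  | .d => 1
  | .e => 0

theorem start_bij : Function.Bijective startMap := by
  rw [Fintype.bijective_iff_injective_and_card]
  refine ⟨?_, rfl⟩
  decide

theorem start_good : GoodL start := by
  constructor
  · intro j p hp hl
    have hl' : 2 * p + j ≤ 10 := hl
    have hp' : p ≤ 5 := by omega
    have hj : j ≤ 6 := by omega
    revert hl'
    interval_cases p <;> interval_cases j <;> simp [start] <;> decide
  · intro j hl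
    have hl' : j + 3 ≤ 10 := hl
    have hj : j ≤ 7 := by omega
    interval_cases j <;> simp [start]

theorem start_inv : Inv start := by
  intro i a h
  have hi : i ≤ 4 := by
    by_contra hcon
    rw [List.getElem?_eq_none (by simp [start]; omega)] at h
    cases h
  interval_cases i <;> simp [start] at h ⊢ <;> subst h <;> decide

theorem start_psi (K : ℕ) : Psi K start ≤ 1 / 2 := by
  have hE : ∀ i, dE (i + 5) start = bE (i + 5) := by
    intro i
    have : jE (i + 5) start = 0 := by
      by_contra hne
      have := jE_spec (i + 5) start 0 (by omega)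
      rw [List.getElem?_eq_none (l := start) (i := 2 * 0 + 1 + 2 * (i + 5))
        (by simp [start]; omega)] at this
      simp [start] at this
    unfold dE bE
    rw [this, Nat.sub_zero]
  have hO : ∀ i, dO (i + 5) start = bO (i + 5) := by
    intro i
    have : rO (i + 5) start = 0 := by
      by_contra hne
      have := rO_spec (i + 5) start 0 (by omega)
      rw [List.getElem?_eq_none (l := start) (i := 0 + (2 * (i + 5) + 1))
        (by simp [start]; omega)] at this
      simp [start] at this
    unfold dO bO
    rw [this]
    simp
  unfold Psi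
  simp only [hE, hO]
  rw [Finset.sum_add_distrib]
  have h4 : ∑ i ∈ Finset.range K, bE (i + 5) ≤ 81 / 500 := by
    have := sum_pow_le K 4
    have h : ∑ i ∈ Finset.range K, bE (i + 5) =
        1 / 2 * ∑ i ∈ Finset.range K, ((3:ℝ) / 5) ^ (i + 4) := by
      rw [Finset.mul_sum]; rfl
    rw [h]
    norm_num at this ⊢
    linarith
  have h5 : ∑ i ∈ Finset.range K, bO (i + 5) ≤ 243 / 2500 := by
    have := sum_pow_le K 5
    have h : ∑ i ∈ Finset.range K, bO (i + 5) =
        1 / 2 * ∑ i ∈ Finset.range K, ((3:ℝ) / 5) ^ (i + 5) := by
      rw [Finset.mul_sum]; rfl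
    rw [h]
    norm_num at this ⊢
    linarith
  linarith

theorem start_best : best (get8 tree .b .c .a .d .c .e .d .b) .a .a .a .a = 10000 := by
  decide +kernel

theorem start_safe (K : ℕ) : Safe K start := by
  refine ⟨start_good, start_inv, startMap, .b, .c, .a, .d, .c, .e, .d, .b, .a, .a, .a, .a, ?_, ?_⟩
  · refine ⟨start_bij, rfl, rfl, rfl, rfl, rfl, rfl, rfl, rfl, rfl, ?_, ?_, ?_, ?_⟩
    · exact ⟨0, by norm_num, by simp [start]⟩
    · exact ⟨0, by norm_num, by simp [start]⟩
    · exact ⟨0, by norm_num, by simp [start]⟩
    · exact ⟨0, by norm_num, by simp [start]⟩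
  · rw [start_best]
    have := start_psi K
    push_cast
    linarith

theorem win_all (N : ℕ) : Win N ([] : List (Fin 5)) :=
  win_of_safe (K := 10 + 2 * N) (u := start) N [] (start_safe _) le_rfl

theorem wins_five : PlayerOneWins 5 := by
  classical
  refine ⟨fun l => if h : WinAll l.reverse then h.step.choose else 0, ?_⟩
  intro x hx
  have key : ∀ n, WinAll (hst x (2 * n)) := by
    intro n
    induction n with
    | zero =>
      intro N
      have : hst x (2 * 0) = [] := by simp [hst]
      rw [this]
      exact win_all N
    | succ n ih =>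
      rw [show 2 * (n + 1) = 2 * n + 1 + 1 by ring, hst_succ, hst_succ]
      have h1 : x (2 * n) = ih.step.choose := by
        rw [hx n]
        simp only
        rw [dif_pos (show WinAll ((List.range (2 * n)).map x).reverse from ih)]
        rfl
      have h2 := ih.step.choose_spec
      rw [← h1] at h2
      exact h2 _
  exact no_rep fun n => key n 0

end Pool.Agent.Zk83.Game
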