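import Pool.Agent.Zk83.Game.Tree

set_option autoImplicit false
set_option maxRecDepth 100000

/-! The certificate tree (generated by a computer search; checked in `Check.lean`). -/

namespace Pool.Agent.Zk83.Game

def tabba : Tr := (.node (.node .nil (.node .nil .nil (.node .nil (.leaf (.cons .c .d .d .e 10000 .d 10000 .e 10000 .nil)) .nil (.leaf (.cons .c .d .d .d 10000 .d 10000 .e 10000 .nil)) .nil) .nil .nil) (.node .nil (.node .nil .nil (.leaf (.cons .c .d .d .e 10000 .d 10000 .e 10000 .nil)) (.leaf (.cons .c .d .d .d 10000 .d 10000 .e 10000 .nil)) .nil) (.node .nil (.leaf (.cons .c .d .d .e 10000 .d 10000 .e 10000 .nil)) .nil (.leaf (.cons .c .d .d .d 10000 .d 10000 .e 10000 .nil)) .nil) (.node .nil (.leaf (.cons .c .d .c .e 10000 .d 10000 .e 10000 .nil)) (.leaf (.cons .c .d .c .e 10000 .d 10000 .e 10000 .nil)) .nil (.leaf (.cons .c .d .c .d 10000 .d 10000 .e 10000 .nil))) .nil) .nil .nil) .nil (.node (.node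 .nil (.node .nil .nil (.leaf (.cons .c .d .d .e 10000 .d 10000 .e 10000 .nil)) (.leaf (.cons .c .d .d .d 10000 .d 10000 .e 10000 .nil)) .nil) .nil (.node (.leaf (.cons .c .d .d .e 10000 .b 10000 .e 10000 .nil)) (.leaf (.cons .c .d .d .d 10000 .b 10000 .e 10000 .nil)) (.leaf (.cons .c .d .d .e 10000 .b 10000 .e 10000 .nil)) .nil (.leaf (.cons .c .d .d .d 10000 .b 10000 .e 10000 .nil))) .nil) (.node .nil (.node (.leaf (.cons .c .d .d .e 10000 .d 10000 .e 10000 .nil)) .nil (.leaf (.cons .c .d .d .e 10000 .d 10000 .e 10000 .nil)) (.leaf (.cons .c .d .d .d 10000 .d 10000 .e 10000 .nil)) .nil) .nil (.node (.leaf (.cons .c .d .c .e 10000 .d 10000 .e 10000 .nil)) (.leaf (.cons .c .d .c .e 10000 .d 10000 .e 10000 .nil)) (.leaf (.cons .c .d .c .e 10000 .d 10000 .e 10000 .nil)) .nil (.leaf (.cons .c .d .c .d 10000 .d 10000 .e 10000 .nil))) .nil) .nil (.node (.node .nil .nil (.leaf (.cons .c .d .d .e 10000 .b 10000 .e 10000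 .nil)) .nil .nil) (.node .nil .nil (.leaf (.cons .c .d .c .e 10000 .b 10000 .e 10000 .nil)) (.leaf (.cons .c .d .c .e 10000 .b 10000 .e 10000 .nil)) (.leaf (.cons .c .d .c .d 10000 .b 10000 .e 10000 .nil))) .nil (.node (.leaf (.cons .c .d .d .e 10000 .b 10000 .e 10000 .nil)) (.leaf (.cons .c .d .d .d 10000 .b 10000 .e 10000 .nil)) (.leaf (.cons .c .d .d .e 10000 .b 10000 .e 10000 .nil)) .nil (.leaf (.cons .c .d .d .d 10000 .b 10000 .e 10000 .nil))) (.node (.leaf (.cons .c .d .c .e 10000 .b 10000 .e 10000 .nil)) (.leaf (.cons .c .d .c .d 10000 .b 10000 .e 10000 .nil)) (.leaf (.cons .c .d .c .e 10000 .b 10000 .e 10000 .nil)) (.leaf (.cons .c .d .c .e 10000 .b 10000 .e 10000 .nil)) .nil)) .nil) .nil .nil)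

def tabbc : Tr := (.node (.node .nil (.node .nil .nil .nil (.node (.leaf (.cons .c .d .d .e 10000 .c 10000 .e 10000 .nil)) (.leaf (.cons .c .d .d .e 10000 .c 10000 .e 10000 .nil)) (.leaf (.cons .c .d .d .d 10000 .c 10000 .e 10000 .nil)) .nil (.leaf (.cons .c .d .d .d 10000 .c 10000 .e 10000 .nil))) .nil) (.node .nil (.node .nil .nil (.leaf (.cons .c .d .d .e 10000 .d 10000 .e 10000 .nil)) (.leaf (.cons .c .d .d .d 10000 .d 10000 .e 10000 .nil)) .nil) (.node (.leaf (.cons .c .d .d .e 10000 .b 10000 .d 10000 .nil)) (.leaf (.cons .c .d .d .e 10000 .d 10000 .e 10000 .nil)) .nil (.leaf (.cons .c .d .d .e 10000 .b 10000 .e 10000 .nil)) .nil) (.node (.leaf (.cons .c .d .d .e 10000 .b 10000 .e 10000 .nil)) (.leaf (.cons .c .d .d .d 10000 .b 10000 .e 10000 .nil)) (.leaf (.cons .c .d .d .e 10000 .b 10000 .e 10000 .nil)) .nil (.leaf (.cons .c .d .d .d 10000 .b 10000 .e 10000 .nil))) .nil) (.node .nil (.node .nil .nil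 (.leaf (.cons .c .d .d .d 10000 .c 10000 .e 10000 .nil)) (.leaf (.cons .c .d .d .e 10000 .c 10000 .e 10000 .nil)) (.leaf (.cons .c .d .d .d 10000 .c 10000 .e 10000 .nil))) (.node .nil (.leaf (.cons .c .d .d .d 10000 .b 10000 .e 10000 .nil)) .nil (.leaf (.cons .c .d .d .e 10000 .b 10000 .e 10000 .nil)) (.leaf (.cons .c .d .d .d 10000 .b 10000 .e 10000 .nil))) (.node (.leaf (.cons .c .d .d .e 10000 .b 10000 .c 10000 .nil)) (.leaf (.cons .c .d .d .e 10000 .c 10000 .e 10000 .nil)) (.leaf (.cons .c .d .d .e 10000 .b 10000 .e 10000 .nil)) .nil (.leaf (.cons .c .d .d .e 10000 .b 10000 .c 10000 .nil))) (.node (.leaf (.cons .c .d .d .e 10000 .b 10000 .c 10000 .nil)) (.leaf (.cons .c .d .d .d 10000 .b 10000 .c 10000 .nil)) (.leaf (.cons .c .d .d .d 10000 .b 10000 .c 10000 .nil)) (.leaf (.cons .c .d .d .e 10000 .b 10000 .c 10000 .nil)) .nil)) .nil) .nil (.node (.node .nil (.node .nil .nil (.leaf (.cons .c .d .d .e 10000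 .d 10000 .e 10000 .nil)) (.leaf (.cons .c .d .d .d 10000 .d 10000 .e 10000 .nil)) .nil) .nil (.node .nil (.leaf (.cons .c .d .d .d 10000 .b 10000 .e 10000 .nil)) (.leaf (.cons .c .d .d .e 10000 .b 10000 .e 10000 .nil)) .nil (.leaf (.cons .c .d .d .d 10000 .b 10000 .e 10000 .nil))) .nil) (.node .nil (.node .nil .nil (.leaf (.cons .c .d .d .e 10000 .d 10000 .e 10000 .nil)) (.leaf (.cons .c .d .d .d 10000 .d 10000 .e 10000 .nil)) .nil) .nil (.node .nil (.leaf (.cons .c .d .c .e 10000 .d 10000 .e 10000 .nil)) (.leaf (.cons .c .d .c .e 10000 .d 10000 .e 10000 .nil)) .nil (.leaf (.cons .c .d .c .d 10000 .d 10000 .e 10000 .nil))) .nil) .nil (.node .nil (.node .nil .nil (.leaf (.cons .c .d .c .e 10000 .b 10000 .e 10000 .nil)) (.leaf (.cons .c .d .c .e 10000 .b 10000 .e 10000 .nil)) (.leaf (.cons .c .d .c .d 10000 .b 10000 .e 10000 .nil))) .nil (.node .nil (.leaf (.cons .c .d .d .d 10000 .b 10000 .e 10000 .nil)) (.leaf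 (.cons .c .d .d .e 10000 .b 10000 .e 10000 .nil)) .nil (.leaf (.cons .c .d .d .d 10000 .b 10000 .e 10000 .nil))) (.node .nil (.leaf (.cons .c .d .c .d 10000 .b 10000 .e 10000 .nil)) (.leaf (.cons .c .d .c .e 10000 .b 10000 .e 10000 .nil)) (.leaf (.cons .c .d .c .e 10000 .b 10000 .e 10000 .nil)) .nil)) .nil) (.node (.node (.node .nil .nil (.leaf (.cons .c .d .d .e 10000 .b 10000 .e 10000 .nil)) .nil .nil) (.node .nil .nil (.leaf (.cons .c .d .d .d 10000 .c 10000 .e 10000 .nil)) (.leaf (.cons .c .d .d .e 10000 .c 10000 .e 10000 .nil)) (.leaf (.cons .c .d .d .d 10000 .c 10000 .e 10000 .nil))) (.node (.leaf (.cons .c .d .d .e 10000 .b 10000 .e 10000 .nil)) (.leaf (.cons .c .d .d .d 10000 .b 10000 .e 10000 .nil)) .nil (.leaf (.cons .c .d .d .e 10000 .b 10000 .e 10000 .nil)) (.leaf (.cons .c .d .d .d 10000 .b 10000 .e 10000 .nil))) .nil (.node (.leaf (.cons .c .d .d .e 10000 .b 10000 .c 10000 .nil)) (.leaf (.cons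 .c .d .d .d 10000 .b 10000 .c 10000 .nil)) (.leaf (.cons .c .d .d .d 10000 .b 10000 .c 10000 .nil)) (.leaf (.cons .c .d .d .e 10000 .b 10000 .c 10000 .nil)) .nil)) (.node (.node .nil .nil (.leaf (.cons .c .d .d .d 10000 .c 10000 .e 10000 .nil)) .nil .nil) (.node (.leaf (.cons .c .d .d .e 10000 .c 10000 .e 10000 .nil)) .nil (.leaf (.cons .c .d .d .d 10000 .c 10000 .e 10000 .nil)) (.leaf (.cons .c .d .d .e 10000 .c 10000 .e 10000 .nil)) (.leaf (.cons .c .d .d .d 10000 .c 10000 .e 10000 .nil))) .nil .nil (.node (.leaf (.cons .c .d .c .e 10000 .c 10000 .e 10000 .nil)) (.leaf (.cons .c .d .c .e 10000 .c 10000 .e 10000 .nil)) (.leaf (.cons .c .d .c .d 10000 .c 10000 .e 10000 .nil)) (.leaf (.cons .c .d .c .e 10000 .c 10000 .e 10000 .nil)) .nil)) (.node (.node .nil .nil (.leaf (.cons .c .d .d .e 10000 .b 10000 .e 10000 .nil)) .nil .nil) (.node .nil .nil (.leaf (.cons .c .d .c .e 10000 .b 10000 .e 10000 .nil)) (.leaf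 (.cons .c .d .c .e 10000 .b 10000 .e 10000 .nil)) (.leaf (.cons .c .d .c .d 10000 .b 10000 .e 10000 .nil))) (.node (.leaf (.cons .c .d .d .e 10000 .b 10000 .e 10000 .nil)) (.leaf (.cons .c .d .d .d 10000 .b 10000 .e 10000 .nil)) .nil (.leaf (.cons .c .d .d .e 10000 .b 10000 .e 10000 .nil)) (.leaf (.cons .c .d .d .d 10000 .b 10000 .e 10000 .nil))) .nil (.node (.leaf (.cons .c .d .c .e 10000 .b 10000 .e 10000 .nil)) (.leaf (.cons .c .d .c .d 10000 .b 10000 .e 10000 .nil)) (.leaf (.cons .c .d .c .e 10000 .b 10000 .e 10000 .nil)) (.leaf (.cons .c .d .c .e 10000 .b 10000 .e 10000 .nil)) .nil)) .nil (.node (.node .nil .nil (.leaf (.cons .c .d .d .d 10000 .b 10000 .c 10000 .nil)) .nil .nil) (.node .nil .nil (.leaf (.cons .c .d .c .d 10000 .b 10000 .c 10000 .nil)) (.leaf (.cons .c .d .c .e 10000 .b 10000 .c 10000 .nil)) (.leaf (.cons .c .d .c .e 10000 .b 10000 .c 10000 .nil))) (.node (.leaf (.cons .c .d .c .e 10000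 .b 10000 .c 10000 .nil)) (.leaf (.cons .c .d .c .d 10000 .b 10000 .c 10000 .nil)) .nil (.leaf (.cons .c .d .c .e 10000 .b 10000 .c 10000 .nil)) (.leaf (.cons .c .d .c .e 10000 .b 10000 .c 10000 .nil))) .nil (.node (.leaf (.cons .c .d .d .e 10000 .b 10000 .c 10000 .nil)) (.leaf (.cons .c .d .d .d 10000 .b 10000 .c 10000 .nil)) (.leaf (.cons .c .d .d .d 10000 .b 10000 .c 10000 .nil)) (.leaf (.cons .c .d .d .e 10000 .b 10000 .c 10000 .nil)) .nil))) .nil)

def tabca : Tr := (.node (.node .nil (.node .nil (.node (.leaf (.cons .c .d .d .e 10000 .d 10000 .e 10000 .nil)) .nil (.leaf (.cons .c .d .d .e 10000 .d 10000 .e 10000 .nil)) (.leaf (.cons .c .d .d .d 10000 .d 10000 .e 10000 .nil)) .nil) .nil (.node (.leaf (.cons .c .d .c .e 10000 .d 10000 .e 10000 (.cons .c .c .d .e 10000 .b 10000 .e 10000 .nil))) (.leaf (.cons .c .d .c .e 10000 .d 10000 .e 10000 .nil)) (.leaf (.cons .c .d .c .e 10000 .d 10000 .e 10000 .nil))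 .nil (.leaf (.cons .c .d .c .d 10000 .d 10000 .e 10000 .nil))) .nil) (.node .nil (.node (.leaf (.cons .c .d .d .e 10000 .d 10000 .e 10000 .nil)) .nil (.leaf (.cons .c .d .d .e 10000 .d 10000 .e 10000 .nil)) (.leaf (.cons .c .d .d .d 10000 .d 10000 .e 10000 .nil)) .nil) (.node (.leaf (.cons .c .d .d .e 10000 .b 10000 .d 10000 .nil)) (.leaf (.cons .c .d .d .e 10000 .d 10000 .e 10000 .nil)) .nil (.leaf (.cons .c .d .d .e 10000 .b 10000 .e 10000 .nil)) .nil) (.node (.leaf (.cons .c .d .d .e 10000 .b 10000 .e 10000 .nil)) (.leaf (.cons .c .d .d .d 10000 .b 10000 .e 10000 .nil)) (.leaf (.cons .c .d .d .e 10000 .b 10000 .e 10000 .nil)) .nil (.leaf (.cons .c .d .d .d 10000 .b 10000 .e 10000 .nil))) .nil) (.node .nil (.node (.leaf (.cons .c .c .d .e 10000 .d 10000 .e 10000 .nil)) .nil (.leaf (.cons .c .d .c .e 10000 .b 10000 .e 10000 .nil)) (.leaf (.cons .c .d .c .e 10000 .b 10000 .e 10000 .nil)) (.leaf (.cons .c .d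 .c .d 10000 .b 10000 .e 10000 .nil))) (.node (.leaf (.cons .c .d .d .e 10000 .b 10000 .e 10000 .nil)) (.leaf (.cons .c .d .d .d 10000 .b 10000 .e 10000 .nil)) .nil (.leaf (.cons .c .d .d .e 10000 .b 10000 .e 10000 .nil)) (.leaf (.cons .c .d .d .d 10000 .b 10000 .e 10000 .nil))) (.node (.leaf (.cons .c .d .d .e 10000 .b 10000 .e 10000 .nil)) (.leaf (.cons .c .d .d .d 10000 .b 10000 .e 10000 .nil)) (.leaf (.cons .c .d .d .e 10000 .b 10000 .e 10000 .nil)) .nil (.leaf (.cons .c .d .d .d 10000 .b 10000 .e 10000 .nil))) (.node (.leaf (.cons .c .d .c .e 10000 .b 10000 .e 10000 (.cons .c .c .d .e 10000 .b 10000 .d 10000 .nil))) (.leaf (.cons .c .d .c .d 10000 .b 10000 .e 10000 .nil)) (.leaf (.cons .c .d .c .e 10000 .b 10000 .e 10000 .nil)) (.leaf (.cons .c .d .c .e 10000 .b 10000 .e 10000 .nil)) .nil)) .nil) .nil .nil (.node (.node (.node .nil (.leaf (.cons .c .d .d .e 10000 .c 10000 .e 10000 .nil)) (.leaf (.cons .c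 .d .d .e 10000 .b 10000 .e 10000 .nil)) (.leaf (.cons .c .d .d .e 10000 .b 10000 .c 10000 .nil)) (.leaf (.cons .c .d .d .e 10000 .b 10000 .c 10000 .nil))) (.node (.leaf (.cons .c .d .d .e 10000 .c 10000 .e 10000 .nil)) .nil (.leaf (.cons .c .d .d .d 10000 .c 10000 .e 10000 .nil)) (.leaf (.cons .c .d .d .e 10000 .c 10000 .e 10000 .nil)) (.leaf (.cons .c .d .d .d 10000 .c 10000 .e 10000 .nil))) (.node (.leaf (.cons .c .d .d .e 10000 .b 10000 .e 10000 .nil)) (.leaf (.cons .c .d .d .d 10000 .b 10000 .e 10000 .nil)) .nil (.leaf (.cons .c .d .d .e 10000 .b 10000 .e 10000 .nil)) (.leaf (.cons .c .d .d .d 10000 .b 10000 .e 10000 .nil))) .nil (.node (.leaf (.cons .c .d .d .e 10000 .b 10000 .c 10000 .nil)) (.leaf (.cons .c .d .d .d 10000 .b 10000 .c 10000 .nil)) (.leaf (.cons .c .d .d .d 10000 .b 10000 .c 10000 .nil)) (.leaf (.cons .c .d .d .e 10000 .b 10000 .c 10000 .nil)) .nil)) (.node (.node .nil (.leaf (.cons .c .d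 .d .e 10000 .c 10000 .e 10000 .nil)) (.leaf (.cons .c .d .d .d 10000 .c 10000 .e 10000 .nil)) (.leaf (.cons .c .d .d .e 10000 .c 10000 .e 10000 .nil)) (.leaf (.cons .c .d .d .d 10000 .c 10000 .e 10000 .nil))) (.node (.leaf (.cons .c .d .d .e 10000 .c 10000 .e 10000 .nil)) .nil (.leaf (.cons .c .d .d .d 10000 .c 10000 .e 10000 .nil)) (.leaf (.cons .c .d .d .e 10000 .c 10000 .e 10000 .nil)) (.leaf (.cons .c .d .d .d 10000 .c 10000 .e 10000 .nil))) (.node (.leaf (.cons .c .c .d .e 10000 .b 10000 .e 10000 .nil)) (.leaf (.cons .b .d .d .e 10000 .d 10000 .e 10000 .nil)) .nil (.leaf (.cons .c .c .d .e 10000 .b 10000 .e 10000 .nil)) (.leaf (.cons .c .c .d .d 10000 .b 10000 .e 10000 .nil))) .nil (.node (.leaf (.cons .c .d .c .e 10000 .c 10000 .e 10000 (.cons .c .c .d .e 10000 .b 10000 .c 10000 .nil))) (.leaf (.cons .c .d .c .e 10000 .c 10000 .e 10000 .nil)) (.leaf (.cons .c .d .c .d 10000 .c 10000 .e 10000 .nil)) (.leaf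 (.cons .c .d .c .e 10000 .c 10000 .e 10000 .nil)) .nil)) (.node .nil (.node (.leaf (.cons .c .d .c .e 10000 .b 10000 .e 10000 (.cons .c .c .d .e 10000 .c 10000 .e 10000 .nil))) .nil (.leaf (.cons .c .d .c .e 10000 .b 10000 .e 10000 .nil)) (.leaf (.cons .c .d .c .e 10000 .b 10000 .e 10000 .nil)) (.leaf (.cons .c .d .c .d 10000 .b 10000 .e 10000 .nil))) (.node (.leaf (.cons .c .d .d .e 10000 .b 10000 .e 10000 .nil)) (.leaf (.cons .c .d .d .d 10000 .b 10000 .e 10000 .nil)) .nil (.leaf (.cons .c .d .d .e 10000 .b 10000 .e 10000 .nil)) (.leaf (.cons .c .d .d .d 10000 .b 10000 .e 10000 .nil))) .nil (.node (.leaf (.cons .c .d .c .e 10000 .b 10000 .e 10000 (.cons .c .c .d .e 10000 .b 10000 .c 10000 .nil))) (.leaf (.cons .c .d .c .d 10000 .b 10000 .e 10000 .nil)) (.leaf (.cons .c .d .c .e 10000 .b 10000 .e 10000 .nil)) (.leaf (.cons .c .d .c .e 10000 .b 10000 .e 10000 .nil)) .nil)) .nil (.node (.node .nil (.leaf (.cons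 .c .d .d .d 10000 .b 10000 .c 10000 .nil)) (.leaf (.cons .c .d .d .d 10000 .b 10000 .c 10000 .nil)) (.leaf (.cons .c .d .d .e 10000 .b 10000 .c 10000 .nil)) (.leaf (.cons .c .d .d .e 10000 .b 10000 .c 10000 .nil))) (.node (.leaf (.cons .c .d .c .e 10000 .b 10000 .c 10000 (.cons .c .c .d .e 10000 .c 10000 .e 10000 .nil))) .nil (.leaf (.cons .c .c .c .e 10000 .b 10000 .e 10000 .nil)) (.leaf (.cons .c .d .c .e 10000 .b 10000 .c 10000 .nil)) (.leaf (.cons .c .d .c .e 10000 .b 10000 .c 10000 .nil))) (.node (.leaf (.cons .c .d .c .e 10000 .b 10000 .c 10000 (.cons .c .c .d .e 10000 .b 10000 .e 10000 .nil))) (.leaf (.cons .c .d .c .d 10000 .b 10000 .c 10000 .nil)) .nil (.leaf (.cons .c .d .c .e 10000 .b 10000 .c 10000 .nil)) (.leaf (.cons .c .d .c .e 10000 .b 10000 .c 10000 .nil))) .nil (.node (.leaf (.cons .c .d .d .e 10000 .b 10000 .c 10000 .nil)) (.leaf (.cons .c .d .d .d 10000 .b 10000 .c 10000 .nil)) (.leaf (.cons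 .c .d .d .d 10000 .b 10000 .c 10000 .nil)) (.leaf (.cons .c .d .d .e 10000 .b 10000 .c 10000 .nil)) .nil))) .nil)

def tabcb : Tr := (.node (.node .nil (.node .nil (.node (.leaf (.cons .c .d .d .e 10000 .c 10000 .d 10000 .nil)) .nil (.leaf (.cons .c .d .d .e 10000 .d 10000 .e 10000 .nil)) (.leaf (.cons .c .d .d .e 10000 .c 10000 .e 10000 .nil)) .nil) .nil (.node (.leaf (.cons .c .d .d .e 10000 .c 10000 .e 10000 .nil)) (.leaf (.cons .c .d .d .e 10000 .c 10000 .e 10000 .nil)) (.leaf (.cons .c .d .d .d 10000 .c 10000 .e 10000 .nil)) .nil (.leaf (.cons .c .d .d .d 10000 .c 10000 .e 10000 .nil))) .nil) (.node .nil .nil (.node (.leaf (.cons .c .d .d .e 10000 .b 10000 .d 10000 .nil)) (.leaf (.cons .c .d .d .e 10000 .d 10000 .e 10000 .nil)) .nil (.leaf (.cons .c .d .d .e 10000 .b 10000 .e 10000 .nil)) .nil) (.node (.leaf (.cons .c .d .d .e 10000 .b 10000 .e 10000 .nil)) (.leaf (.cons .c .d .d .d 10000 .b 10000 .e 10000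 .nil)) (.leaf (.cons .c .d .d .e 10000 .b 10000 .e 10000 .nil)) .nil (.leaf (.cons .c .d .d .d 10000 .b 10000 .e 10000 .nil))) .nil) (.node .nil (.node (.leaf (.cons .c .d .d .e 10000 .c 10000 .e 10000 .nil)) .nil (.leaf (.cons .c .d .c .e 10000 .b 10000 .e 10000 .nil)) (.leaf (.cons .c .d .d .e 10000 .c 10000 .e 10000 .nil)) (.leaf (.cons .c .d .d .d 10000 .c 10000 .e 10000 .nil))) (.node (.leaf (.cons .c .d .d .e 10000 .b 10000 .e 10000 .nil)) (.leaf (.cons .c .d .d .d 10000 .b 10000 .e 10000 .nil)) .nil (.leaf (.cons .c .d .d .e 10000 .b 10000 .e 10000 .nil)) (.leaf (.cons .c .d .d .d 10000 .b 10000 .e 10000 .nil))) (.node (.leaf (.cons .c .d .d .e 10000 .b 10000 .c 10000 .nil)) (.leaf (.cons .c .d .d .e 10000 .c 10000 .e 10000 .nil)) (.leaf (.cons .c .d .d .e 10000 .b 10000 .e 10000 .nil)) .nil (.leaf (.cons .c .d .d .e 10000 .b 10000 .c 10000 .nil))) (.node (.leaf (.cons .c .d .d .e 10000 .b 10000 .c 10000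 .nil)) (.leaf (.cons .c .d .d .d 10000 .b 10000 .c 10000 .nil)) (.leaf (.cons .c .d .d .d 10000 .b 10000 .c 10000 .nil)) (.leaf (.cons .c .d .d .e 10000 .b 10000 .c 10000 .nil)) .nil)) .nil) (.node (.node (.node .nil .nil (.leaf (.cons .c .d .d .e 10000 .d 10000 .e 10000 .nil)) (.leaf (.cons .c .d .d .e 10000 .c 10000 .e 10000 .nil)) .nil) .nil (.node (.leaf (.cons .c .d .d .e 10000 .d 10000 .e 10000 .nil)) (.leaf (.cons .c .d .d .e 10000 .d 10000 .e 10000 .nil)) .nil (.leaf (.cons .c .d .d .d 10000 .d 10000 .e 10000 .nil)) .nil) (.node (.leaf (.cons .c .d .d .e 10000 .c 10000 .e 10000 .nil)) (.leaf (.cons .c .d .d .e 10000 .c 10000 .e 10000 .nil)) (.leaf (.cons .c .d .d .d 10000 .c 10000 .e 10000 .nil)) .nil (.leaf (.cons .c .d .d .d 10000 .c 10000 .e 10000 .nil))) .nil) .nil (.node (.node .nil (.leaf (.cons .c .d .d .e 10000 .d 10000 .e 10000 .nil)) (.leaf (.cons .c .d .d .e 10000 .d 10000 .e 10000 .nil))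 (.leaf (.cons .c .d .d .d 10000 .d 10000 .e 10000 .nil)) .nil) .nil (.node .nil (.leaf (.cons .c .d .d .e 10000 .d 10000 .e 10000 .nil)) .nil (.leaf (.cons .c .d .d .d 10000 .d 10000 .e 10000 .nil)) .nil) (.node (.leaf (.cons .c .d .c .e 10000 .d 10000 .e 10000 (.cons .c .c .d .e 10000 .c 10000 .e 10000 .nil))) (.leaf (.cons .c .d .c .e 10000 .d 10000 .e 10000 .nil)) (.leaf (.cons .c .d .c .e 10000 .d 10000 .e 10000 .nil)) .nil (.leaf (.cons .c .d .c .d 10000 .d 10000 .e 10000 .nil))) .nil) (.node (.node .nil (.leaf (.cons .c .d .d .e 10000 .c 10000 .e 10000 .nil)) (.leaf (.cons .c .d .d .d 10000 .c 10000 .e 10000 .nil)) (.leaf (.cons .c .d .d .e 10000 .c 10000 .e 10000 .nil)) (.leaf (.cons .c .d .d .d 10000 .c 10000 .e 10000 .nil))) .nil (.node (.leaf (.cons .c .d .c .e 10000 .c 10000 .e 10000 (.cons .c .c .d .e 10000 .d 10000 .e 10000 .nil))) (.leaf (.cons .c .d .c .e 10000 .c 10000 .e 10000 .nil)) .nil (.leaf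 (.cons .c .d .c .e 10000 .c 10000 .e 10000 .nil)) (.leaf (.cons .c .d .c .d 10000 .c 10000 .e 10000 .nil))) (.node (.leaf (.cons .c .d .d .e 10000 .c 10000 .e 10000 .nil)) (.leaf (.cons .c .d .d .e 10000 .c 10000 .e 10000 .nil)) (.leaf (.cons .c .d .d .d 10000 .c 10000 .e 10000 .nil)) .nil (.leaf (.cons .c .d .d .d 10000 .c 10000 .e 10000 .nil))) (.node (.leaf (.cons .c .d .c .e 10000 .c 10000 .e 10000 (.cons .c .c .d .e 10000 .c 10000 .d 10000 .nil))) (.leaf (.cons .c .d .c .e 10000 .c 10000 .e 10000 .nil)) (.leaf (.cons .c .d .c .d 10000 .c 10000 .e 10000 .nil)) (.leaf (.cons .c .d .c .e 10000 .c 10000 .e 10000 .nil)) .nil)) .nil) .nil (.node (.node (.node .nil (.leaf (.cons .c .d .d .e 10000 .c 10000 .e 10000 .nil)) (.leaf (.cons .c .d .d .e 10000 .b 10000 .e 10000 .nil)) (.leaf (.cons .c .d .d .e 10000 .b 10000 .c 10000 .nil)) (.leaf (.cons .c .d .d .e 10000 .b 10000 .c 10000 .nil))) (.node (.leaf (.cons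 .c .d .d .e 10000 .c 10000 .e 10000 .nil)) .nil (.leaf (.cons .c .d .d .d 10000 .c 10000 .e 10000 .nil)) (.leaf (.cons .c .d .d .e 10000 .c 10000 .e 10000 .nil)) (.leaf (.cons .c .d .d .d 10000 .c 10000 .e 10000 .nil))) (.node (.leaf (.cons .c .d .d .e 10000 .b 10000 .e 10000 .nil)) (.leaf (.cons .c .d .d .d 10000 .b 10000 .e 10000 .nil)) .nil (.leaf (.cons .c .d .d .e 10000 .b 10000 .e 10000 .nil)) (.leaf (.cons .c .d .d .d 10000 .b 10000 .e 10000 .nil))) .nil (.node (.leaf (.cons .c .d .d .e 10000 .b 10000 .c 10000 .nil)) (.leaf (.cons .c .d .d .d 10000 .b 10000 .c 10000 .nil)) (.leaf (.cons .c .d .d .d 10000 .b 10000 .c 10000 .nil)) (.leaf (.cons .c .d .d .e 10000 .b 10000 .c 10000 .nil)) .nil)) (.node (.node .nil (.leaf (.cons .c .d .d .e 10000 .c 10000 .e 10000 .nil)) (.leaf (.cons .c .d .d .d 10000 .c 10000 .e 10000 .nil)) (.leaf (.cons .c .d .d .e 10000 .c 10000 .e 10000 .nil)) (.leaf (.cons .c .d .d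 .d 10000 .c 10000 .e 10000 .nil))) (.node (.leaf (.cons .c .d .d .e 10000 .c 10000 .e 10000 .nil)) .nil (.leaf (.cons .c .d .d .d 10000 .c 10000 .e 10000 .nil)) (.leaf (.cons .c .d .d .e 10000 .c 10000 .e 10000 .nil)) (.leaf (.cons .c .d .d .d 10000 .c 10000 .e 10000 .nil))) (.node (.leaf (.cons .c .c .d .e 10000 .b 10000 .e 10000 .nil)) (.leaf (.cons .b .d .d .e 10000 .d 10000 .e 10000 .nil)) .nil (.leaf (.cons .c .c .d .e 10000 .b 10000 .e 10000 .nil)) (.leaf (.cons .c .c .d .d 10000 .b 10000 .e 10000 .nil))) .nil (.node (.leaf (.cons .c .d .c .e 10000 .c 10000 .e 10000 (.cons .c .c .d .e 10000 .b 10000 .c 10000 .nil))) (.leaf (.cons .c .d .c .e 10000 .c 10000 .e 10000 .nil)) (.leaf (.cons .c .d .c .d 10000 .c 10000 .e 10000 .nil)) (.leaf (.cons .c .d .c .e 10000 .c 10000 .e 10000 .nil)) .nil)) (.node (.node .nil (.leaf (.cons .c .d .d .d 10000 .b 10000 .e 10000 .nil)) (.leaf (.cons .c .d .d .e 10000 .b 10000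 .e 10000 .nil)) (.leaf (.cons .c .d .d .e 10000 .b 10000 .e 10000 .nil)) (.leaf (.cons .c .d .d .d 10000 .b 10000 .e 10000 .nil))) .nil (.node (.leaf (.cons .c .d .d .e 10000 .b 10000 .e 10000 .nil)) (.leaf (.cons .c .d .d .d 10000 .b 10000 .e 10000 .nil)) .nil (.leaf (.cons .c .d .d .e 10000 .b 10000 .e 10000 .nil)) (.leaf (.cons .c .d .d .d 10000 .b 10000 .e 10000 .nil))) .nil (.node (.leaf (.cons .c .d .c .e 10000 .b 10000 .e 10000 (.cons .c .c .d .e 10000 .b 10000 .c 10000 .nil))) (.leaf (.cons .c .d .c .d 10000 .b 10000 .e 10000 .nil)) (.leaf (.cons .c .d .c .e 10000 .b 10000 .e 10000 .nil)) (.leaf (.cons .c .d .c .e 10000 .b 10000 .e 10000 .nil)) .nil)) .nil (.node (.node .nil (.leaf (.cons .c .d .d .d 10000 .b 10000 .c 10000 .nil)) (.leaf (.cons .c .d .d .d 10000 .b 10000 .c 10000 .nil)) (.leaf (.cons .c .d .d .e 10000 .b 10000 .c 10000 .nil)) (.leaf (.cons .c .d .d .e 10000 .b 10000 .c 10000 .nil)))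 (.node (.leaf (.cons .c .d .c .e 10000 .b 10000 .c 10000 (.cons .c .c .d .e 10000 .c 10000 .e 10000 .nil))) .nil (.leaf (.cons .c .c .c .e 10000 .b 10000 .e 10000 .nil)) (.leaf (.cons .c .d .c .e 10000 .b 10000 .c 10000 .nil)) (.leaf (.cons .c .d .c .e 10000 .b 10000 .c 10000 .nil))) (.node (.leaf (.cons .c .d .c .e 10000 .b 10000 .c 10000 (.cons .c .c .d .e 10000 .b 10000 .e 10000 .nil))) (.leaf (.cons .c .d .c .d 10000 .b 10000 .c 10000 .nil)) .nil (.leaf (.cons .c .d .c .e 10000 .b 10000 .c 10000 .nil)) (.leaf (.cons .c .d .c .e 10000 .b 10000 .c 10000 .nil))) .nil (.node (.leaf (.cons .c .d .d .e 10000 .b 10000 .c 10000 .nil)) (.leaf (.cons .c .d .d .d 10000 .b 10000 .c 10000 .nil)) (.leaf (.cons .c .d .d .d 10000 .b 10000 .c 10000 .nil)) (.leaf (.cons .c .d .d .e 10000 .b 10000 .c 10000 .nil)) .nil))) .nil)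

def tabcd : Tr := (.node (.node .nil (.node .nil (.node (.leaf (.cons .c .d .d .e 10000 .c 10000 .d 10000 .nil)) .nil (.leaf (.cons .c .d .d .e 10000 .d 10000 .e 10000 .nil)) (.leaf (.cons .c .d .d .e 10000 .c 10000 .e 10000 .nil)) (.leaf (.cons .c .d .d .e 10000 .c 10000 .d 10000 .nil))) .nil (.node (.leaf (.cons .c .d .d .e 10000 .c 10000 .e 10000 .nil)) (.leaf (.cons .c .d .d .e 10000 .c 10000 .e 10000 .nil)) (.leaf (.cons .c .d .d .d 10000 .c 10000 .e 10000 .nil)) .nil (.leaf (.cons .c .d .d .d 10000 .c 10000 .e 10000 .nil))) (.node (.leaf (.cons .c .d .d .e 10000 .c 10000 .d 10000 .nil)) (.leaf (.cons .c .d .d .e 10000 .c 10000 .d 10000 .nil)) (.leaf (.cons .c .d .d .d 10000 .c 10000 .d 10000 .nil)) (.leaf (.cons .c .d .d .d 10000 .c 10000 .d 10000 .nil)) .nil)) (.node .nil (.node (.leaf (.cons .c .d .d .e 10000 .d 10000 .e 10000 .nil)) .nil (.leaf (.cons .c .d .d .e 10000 .d 10000 .e 10000 .nil)) (.leaf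 (.cons .c .d .d .d 10000 .d 10000 .e 10000 .nil)) (.leaf (.cons .c .d .d .d 10000 .d 10000 .e 10000 .nil))) (.node (.leaf (.cons .c .d .d .e 10000 .b 10000 .d 10000 .nil)) (.leaf (.cons .c .d .d .e 10000 .d 10000 .e 10000 .nil)) .nil (.leaf (.cons .c .d .d .e 10000 .b 10000 .e 10000 .nil)) (.leaf (.cons .c .d .d .e 10000 .b 10000 .d 10000 .nil))) .nil (.node (.leaf (.cons .c .d .d .e 10000 .b 10000 .d 10000 .nil)) (.leaf (.cons .c .d .d .d 10000 .b 10000 .d 10000 .nil)) (.leaf (.cons .c .d .d .e 10000 .b 10000 .d 10000 .nil)) (.leaf (.cons .c .d .d .d 10000 .b 10000 .d 10000 .nil)) .nil)) (.node .nil (.node (.leaf (.cons .c .d .d .e 10000 .c 10000 .e 10000 .nil)) .nil (.leaf (.cons .c .d .c .e 10000 .b 10000 .e 10000 .nil)) (.leaf (.cons .c .d .d .e 10000 .c 10000 .e 10000 .nil)) (.leaf (.cons .c .d .d .d 10000 .c 10000 .e 10000 .nil))) (.node (.leaf (.cons .c .d .d .e 10000 .b 10000 .e 10000 .nil)) (.leaf (.cons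 .c .d .d .d 10000 .b 10000 .e 10000 .nil)) .nil (.leaf (.cons .c .d .d .e 10000 .b 10000 .e 10000 .nil)) (.leaf (.cons .c .d .d .d 10000 .b 10000 .e 10000 .nil))) (.node (.leaf (.cons .c .d .d .e 10000 .b 10000 .c 10000 .nil)) (.leaf (.cons .c .d .d .e 10000 .c 10000 .e 10000 .nil)) (.leaf (.cons .c .d .d .e 10000 .b 10000 .e 10000 .nil)) .nil (.leaf (.cons .c .d .d .e 10000 .b 10000 .c 10000 .nil))) (.node (.leaf (.cons .c .d .d .e 10000 .b 10000 .c 10000 .nil)) (.leaf (.cons .c .d .d .d 10000 .b 10000 .c 10000 .nil)) (.leaf (.cons .c .d .d .d 10000 .b 10000 .c 10000 .nil)) (.leaf (.cons .c .d .d .e 10000 .b 10000 .c 10000 .nil)) .nil)) (.node .nil (.node (.leaf (.cons .c .d .d .e 10000 .c 10000 .d 10000 .nil)) .nil (.leaf (.cons .c .d .c .e 10000 .b 10000 .d 10000 .nil)) (.leaf (.cons .c .d .d .d 10000 .c 10000 .d 10000 .nil)) (.leaf (.cons .c .d .d .e 10000 .c 10000 .d 10000 .nil))) (.node (.leaf (.cons .c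 .d .d .e 10000 .b 10000 .d 10000 .nil)) (.leaf (.cons .c .d .d .d 10000 .b 10000 .d 10000 .nil)) .nil (.leaf (.cons .c .d .c .e 10000 .b 10000 .c 10000 .nil)) (.leaf (.cons .c .d .d .e 10000 .b 10000 .d 10000 .nil))) (.node (.leaf (.cons .c .d .d .e 10000 .b 10000 .c 10000 .nil)) (.leaf (.cons .c .d .d .d 10000 .b 10000 .c 10000 .nil)) (.leaf (.cons .c .d .d .d 10000 .b 10000 .c 10000 .nil)) .nil (.leaf (.cons .c .d .d .e 10000 .b 10000 .c 10000 .nil))) (.node (.leaf (.cons .c .d .d .e 10000 .b 10000 .c 10000 .nil)) (.leaf (.cons .c .d .d .e 10000 .c 10000 .d 10000 .nil)) (.leaf (.cons .c .d .d .e 10000 .b 10000 .d 10000 .nil)) (.leaf (.cons .c .d .d .e 10000 .b 10000 .c 10000 .nil)) .nil))) (.node (.node (.node .nil (.leaf (.cons .c .d .d .e 10000 .c 10000 .d 10000 .nil)) (.leaf (.cons .c .d .d .e 10000 .d 10000 .e 10000 .nil)) (.leaf (.cons .c .d .d .e 10000 .c 10000 .e 10000 .nil)) (.leaf (.cons .c .d .d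 .e 10000 .c 10000 .d 10000 .nil))) .nil (.node (.leaf (.cons .c .d .d .e 10000 .d 10000 .e 10000 .nil)) (.leaf (.cons .c .d .d .e 10000 .d 10000 .e 10000 .nil)) .nil (.leaf (.cons .c .d .d .d 10000 .d 10000 .e 10000 .nil)) (.leaf (.cons .c .d .d .d 10000 .d 10000 .e 10000 .nil))) (.node (.leaf (.cons .c .d .d .e 10000 .c 10000 .e 10000 .nil)) (.leaf (.cons .c .d .d .e 10000 .c 10000 .e 10000 .nil)) (.leaf (.cons .c .d .d .d 10000 .c 10000 .e 10000 .nil)) .nil (.leaf (.cons .c .d .d .d 10000 .c 10000 .e 10000 .nil))) (.node (.leaf (.cons .c .d .d .e 10000 .c 10000 .d 10000 .nil)) (.leaf (.cons .c .d .d .e 10000 .c 10000 .d 10000 .nil)) (.leaf (.cons .c .d .d .d 10000 .c 10000 .d 10000 .nil)) (.leaf (.cons .c .d .d .d 10000 .c 10000 .d 10000 .nil)) .nil)) .nil (.node (.node .nil (.leaf (.cons .c .d .d .e 10000 .d 10000 .e 10000 .nil)) (.leaf (.cons .c .d .d .e 10000 .d 10000 .e 10000 .nil)) (.leaf (.cons .c .d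 .d .d 10000 .d 10000 .e 10000 .nil)) (.leaf (.cons .c .d .d .d 10000 .d 10000 .e 10000 .nil))) .nil (.node (.leaf (.cons .c .d .d .e 10000 .d 10000 .e 10000 .nil)) (.leaf (.cons .c .d .d .e 10000 .d 10000 .e 10000 .nil)) .nil (.leaf (.cons .c .d .d .d 10000 .d 10000 .e 10000 .nil)) (.leaf (.cons .c .d .d .d 10000 .d 10000 .e 10000 .nil))) .nil (.node (.leaf (.cons .c .d .c .e 10000 .d 10000 .e 10000 (.cons .b .d .d .e 10000 .b 10000 .d 10000 .nil))) (.leaf (.cons .c .d .c .e 10000 .d 10000 .e 10000 .nil)) (.leaf (.cons .c .d .c .e 10000 .d 10000 .e 10000 .nil)) (.leaf (.cons .c .d .c .d 10000 .d 10000 .e 10000 .nil)) .nil)) (.node (.node .nil (.leaf (.cons .c .d .d .e 10000 .c 10000 .e 10000 .nil)) (.leaf (.cons .c .d .d .d 10000 .c 10000 .e 10000 .nil)) (.leaf (.cons .c .d .d .e 10000 .c 10000 .e 10000 .nil)) (.leaf (.cons .c .d .d .d 10000 .c 10000 .e 10000 .nil))) .nil (.node (.leaf (.cons .c .d .c .e 10000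 .c 10000 .e 10000 (.cons .c .c .d .e 10000 .d 10000 .e 10000 .nil))) (.leaf (.cons .c .d .c .e 10000 .c 10000 .e 10000 .nil)) .nil (.leaf (.cons .c .d .c .e 10000 .c 10000 .e 10000 .nil)) (.leaf (.cons .c .d .c .d 10000 .c 10000 .e 10000 .nil))) (.node (.leaf (.cons .c .d .d .e 10000 .c 10000 .e 10000 .nil)) (.leaf (.cons .c .d .d .e 10000 .c 10000 .e 10000 .nil)) (.leaf (.cons .c .d .d .d 10000 .c 10000 .e 10000 .nil)) .nil (.leaf (.cons .c .d .d .d 10000 .c 10000 .e 10000 .nil))) (.node (.leaf (.cons .c .d .c .e 10000 .c 10000 .e 10000 (.cons .c .c .d .e 10000 .c 10000 .d 10000 .nil))) (.leaf (.cons .c .d .c .e 10000 .c 10000 .e 10000 .nil)) (.leaf (.cons .c .d .c .d 10000 .c 10000 .e 10000 .nil)) (.leaf (.cons .c .d .c .e 10000 .c 10000 .e 10000 .nil)) .nil)) (.node (.node .nil (.leaf (.cons .c .d .d .e 10000 .c 10000 .d 10000 .nil)) (.leaf (.cons .c .d .d .d 10000 .c 10000 .d 10000 .nil)) (.leaf (.cons .c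 .d .d .d 10000 .c 10000 .d 10000 .nil)) (.leaf (.cons .c .d .d .e 10000 .c 10000 .d 10000 .nil))) .nil (.node (.leaf (.cons .c .d .c .e 10000 .c 10000 .d 10000 (.cons .c .c .d .e 10000 .d 10000 .e 10000 .nil))) (.leaf (.cons .c .d .c .e 10000 .c 10000 .d 10000 .nil)) .nil (.leaf (.cons .c .d .c .d 10000 .c 10000 .d 10000 .nil)) (.leaf (.cons .c .d .c .e 10000 .c 10000 .d 10000 .nil))) (.node (.leaf (.cons .c .d .c .e 10000 .c 10000 .d 10000 (.cons .c .c .d .e 10000 .c 10000 .e 10000 .nil))) (.leaf (.cons .c .d .c .e 10000 .c 10000 .d 10000 .nil)) (.leaf (.cons .c .d .c .d 10000 .c 10000 .d 10000 .nil)) .nil (.leaf (.cons .c .d .c .e 10000 .c 10000 .d 10000 .nil))) (.node (.leaf (.cons .c .d .d .e 10000 .c 10000 .d 10000 .nil)) (.leaf (.cons .c .d .d .e 10000 .c 10000 .d 10000 .nil)) (.leaf (.cons .c .d .d .d 10000 .c 10000 .d 10000 .nil)) (.leaf (.cons .c .d .d .d 10000 .c 10000 .d 10000 .nil)) .nil))) .nil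 (.node (.node (.node .nil (.leaf (.cons .c .d .d .e 10000 .c 10000 .e 10000 .nil)) (.leaf (.cons .c .d .d .e 10000 .b 10000 .e 10000 .nil)) (.leaf (.cons .c .d .d .e 10000 .b 10000 .c 10000 .nil)) (.leaf (.cons .c .d .d .e 10000 .b 10000 .c 10000 .nil))) (.node (.leaf (.cons .c .d .d .e 10000 .c 10000 .e 10000 .nil)) .nil (.leaf (.cons .c .d .d .d 10000 .c 10000 .e 10000 .nil)) (.leaf (.cons .c .d .d .e 10000 .c 10000 .e 10000 .nil)) (.leaf (.cons .c .d .d .d 10000 .c 10000 .e 10000 .nil))) (.node (.leaf (.cons .c .d .d .e 10000 .b 10000 .e 10000 .nil)) (.leaf (.cons .c .d .d .d 10000 .b 10000 .e 10000 .nil)) .nil (.leaf (.cons .c .d .d .e 10000 .b 10000 .e 10000 .nil)) (.leaf (.cons .c .d .d .d 10000 .b 10000 .e 10000 .nil))) .nil (.node (.leaf (.cons .c .d .d .e 10000 .b 10000 .c 10000 .nil)) (.leaf (.cons .c .d .d .d 10000 .b 10000 .c 10000 .nil)) (.leaf (.cons .c .d .d .d 10000 .b 10000 .c 10000 .nil)) (.leaf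 (.cons .c .d .d .e 10000 .b 10000 .c 10000 .nil)) .nil)) (.node (.node .nil (.leaf (.cons .c .d .d .e 10000 .c 10000 .e 10000 .nil)) (.leaf (.cons .c .d .d .d 10000 .c 10000 .e 10000 .nil)) (.leaf (.cons .c .d .d .e 10000 .c 10000 .e 10000 .nil)) (.leaf (.cons .c .d .d .d 10000 .c 10000 .e 10000 .nil))) (.node (.leaf (.cons .c .d .d .e 10000 .c 10000 .e 10000 .nil)) .nil (.leaf (.cons .c .d .d .d 10000 .c 10000 .e 10000 .nil)) (.leaf (.cons .c .d .d .e 10000 .c 10000 .e 10000 .nil)) (.leaf (.cons .c .d .d .d 10000 .c 10000 .e 10000 .nil))) (.node (.leaf (.cons .c .c .d .e 10000 .b 10000 .e 10000 .nil)) (.leaf (.cons .b .d .d .e 10000 .d 10000 .e 10000 .nil)) .nil (.leaf (.cons .c .c .d .e 10000 .b 10000 .e 10000 .nil)) (.leaf (.cons .c .c .d .d 10000 .b 10000 .e 10000 .nil))) .nil (.node (.leaf (.cons .c .d .c .e 10000 .c 10000 .e 10000 (.cons .c .c .d .e 10000 .b 10000 .c 10000 .nil))) (.leaf (.cons .c .d .c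 .e 10000 .c 10000 .e 10000 .nil)) (.leaf (.cons .c .d .c .d 10000 .c 10000 .e 10000 .nil)) (.leaf (.cons .c .d .c .e 10000 .c 10000 .e 10000 .nil)) .nil)) (.node (.node .nil (.leaf (.cons .c .d .d .d 10000 .b 10000 .e 10000 .nil)) (.leaf (.cons .c .d .d .e 10000 .b 10000 .e 10000 .nil)) (.leaf (.cons .c .d .d .e 10000 .b 10000 .e 10000 .nil)) (.leaf (.cons .c .d .d .d 10000 .b 10000 .e 10000 .nil))) (.node (.leaf (.cons .c .c .d .e 10000 .c 10000 .e 10000 .nil)) .nil (.leaf (.cons .c .d .c .e 10000 .b 10000 .e 10000 .nil)) (.leaf (.cons .c .d .c .e 10000 .b 10000 .e 10000 .nil)) (.leaf (.cons .c .d .c .d 10000 .b 10000 .e 10000 .nil))) (.node (.leaf (.cons .c .d .d .e 10000 .b 10000 .e 10000 .nil)) (.leaf (.cons .c .d .d .d 10000 .b 10000 .e 10000 .nil)) .nil (.leaf (.cons .c .d .d .e 10000 .b 10000 .e 10000 .nil)) (.leaf (.cons .c .d .d .d 10000 .b 10000 .e 10000 .nil))) .nil (.node (.leaf (.cons .c .d .c .e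 10000 .b 10000 .e 10000 (.cons .c .c .d .e 10000 .b 10000 .c 10000 .nil))) (.leaf (.cons .c .d .c .d 10000 .b 10000 .e 10000 .nil)) (.leaf (.cons .c .d .c .e 10000 .b 10000 .e 10000 .nil)) (.leaf (.cons .c .d .c .e 10000 .b 10000 .e 10000 .nil)) .nil)) .nil (.node (.node .nil (.leaf (.cons .c .d .d .d 10000 .b 10000 .c 10000 .nil)) (.leaf (.cons .c .d .d .d 10000 .b 10000 .c 10000 .nil)) (.leaf (.cons .c .d .d .e 10000 .b 10000 .c 10000 .nil)) (.leaf (.cons .c .d .d .e 10000 .b 10000 .c 10000 .nil))) (.node (.leaf (.cons .c .c .d .e 10000 .c 10000 .e 10000 .nil)) .nil (.leaf (.cons .c .c .c .e 10000 .b 10000 .e 10000 .nil)) (.leaf (.cons .c .d .c .e 10000 .b 10000 .c 10000 .nil)) (.leaf (.cons .c .d .c .e 10000 .b 10000 .c 10000 .nil))) (.node (.leaf (.cons .c .d .c .e 10000 .b 10000 .c 10000 (.cons .c .c .d .e 10000 .b 10000 .e 10000 .nil))) (.leaf (.cons .c .d .c .d 10000 .b 10000 .c 10000 .nil)) .nil (.leaf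 (.cons .c .d .c .e 10000 .b 10000 .c 10000 .nil)) (.leaf (.cons .c .d .c .e 10000 .b 10000 .c 10000 .nil))) .nil (.node (.leaf (.cons .c .d .d .e 10000 .b 10000 .c 10000 .nil)) (.leaf (.cons .c .d .d .d 10000 .b 10000 .c 10000 .nil)) (.leaf (.cons .c .d .d .d 10000 .b 10000 .c 10000 .nil)) (.leaf (.cons .c .d .d .e 10000 .b 10000 .c 10000 .nil)) .nil))) (.node (.node (.node .nil (.leaf (.cons .c .d .d .e 10000 .c 10000 .d 10000 .nil)) (.leaf (.cons .c .d .d .e 10000 .b 10000 .d 10000 .nil)) (.leaf (.cons .c .d .d .e 10000 .b 10000 .c 10000 .nil)) (.leaf (.cons .c .d .d .e 10000 .b 10000 .c 10000 .nil))) (.node (.leaf (.cons .c .d .d .e 10000 .c 10000 .d 10000 .nil)) .nil (.leaf (.cons .c .d .d .d 10000 .c 10000 .d 10000 .nil)) (.leaf (.cons .c .d .d .d 10000 .c 10000 .d 10000 .nil)) (.leaf (.cons .c .d .d .e 10000 .c 10000 .d 10000 .nil))) (.node (.leaf (.cons .c .d .d .e 10000 .b 10000 .d 10000 .nil)) (.leaf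 (.cons .c .d .d .d 10000 .b 10000 .d 10000 .nil)) .nil (.leaf (.cons .c .d .d .d 10000 .b 10000 .d 10000 .nil)) (.leaf (.cons .c .d .d .e 10000 .b 10000 .d 10000 .nil))) (.node (.leaf (.cons .c .d .d .e 10000 .b 10000 .c 10000 .nil)) (.leaf (.cons .c .d .d .d 10000 .b 10000 .c 10000 .nil)) (.leaf (.cons .c .d .d .d 10000 .b 10000 .c 10000 .nil)) .nil (.leaf (.cons .c .d .d .e 10000 .b 10000 .c 10000 .nil))) .nil) (.node (.node .nil (.leaf (.cons .c .d .d .e 10000 .c 10000 .d 10000 .nil)) (.leaf (.cons .c .d .d .d 10000 .c 10000 .d 10000 .nil)) (.leaf (.cons .c .d .d .d 10000 .c 10000 .d 10000 .nil)) (.leaf (.cons .c .d .d .e 10000 .c 10000 .d 10000 .nil))) (.node (.leaf (.cons .c .d .d .e 10000 .c 10000 .d 10000 .nil)) .nil (.leaf (.cons .c .d .d .d 10000 .c 10000 .d 10000 .nil)) (.leaf (.cons .c .d .d .d 10000 .c 10000 .d 10000 .nil)) (.leaf (.cons .c .d .d .e 10000 .c 10000 .d 10000 .nil))) (.node (.leaf (.cons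 .c .c .d .e 10000 .b 10000 .d 10000 .nil)) (.leaf (.cons .b .d .d .e 10000 .d 10000 .e 10000 .nil)) .nil (.leaf (.cons .c .c .d .d 10000 .b 10000 .d 10000 .nil)) (.leaf (.cons .c .c .d .e 10000 .b 10000 .d 10000 .nil))) (.node (.leaf (.cons .c .d .c .e 10000 .c 10000 .d 10000 (.cons .c .c .d .e 10000 .b 10000 .c 10000 .nil))) (.leaf (.cons .c .d .c .e 10000 .c 10000 .d 10000 .nil)) (.leaf (.cons .c .d .c .d 10000 .c 10000 .d 10000 .nil)) .nil (.leaf (.cons .c .d .c .e 10000 .c 10000 .d 10000 .nil))) .nil) (.node (.node .nil (.leaf (.cons .c .d .d .d 10000 .b 10000 .d 10000 .nil)) (.leaf (.cons .c .d .d .e 10000 .b 10000 .d 10000 .nil)) (.leaf (.cons .c .d .d .d 10000 .b 10000 .d 10000 .nil)) (.leaf (.cons .c .d .d .e 10000 .b 10000 .d 10000 .nil))) (.node (.leaf (.cons .c .d .c .e 10000 .b 10000 .d 10000 (.cons .c .c .d .e 10000 .c 10000 .d 10000 .nil))) .nil (.leaf (.cons .c .d .c .e 10000 .b 10000 .d 10000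 .nil)) (.leaf (.cons .c .d .c .d 10000 .b 10000 .d 10000 .nil)) (.leaf (.cons .c .d .c .e 10000 .b 10000 .d 10000 .nil))) (.node (.leaf (.cons .c .d .d .e 10000 .b 10000 .d 10000 .nil)) (.leaf (.cons .c .d .d .d 10000 .b 10000 .d 10000 .nil)) .nil (.leaf (.cons .c .d .d .d 10000 .b 10000 .d 10000 .nil)) (.leaf (.cons .c .d .d .e 10000 .b 10000 .d 10000 .nil))) .nil .nil) (.node (.node .nil (.leaf (.cons .c .d .d .d 10000 .b 10000 .c 10000 .nil)) (.leaf (.cons .c .d .d .d 10000 .b 10000 .c 10000 .nil)) (.leaf (.cons .c .d .d .e 10000 .b 10000 .c 10000 .nil)) (.leaf (.cons .c .d .d .e 10000 .b 10000 .c 10000 .nil))) (.node (.leaf (.cons .c .d .c .e 10000 .b 10000 .c 10000 (.cons .c .c .d .e 10000 .c 10000 .d 10000 .nil))) .nil (.leaf (.cons .c .c .c .e 10000 .b 10000 .d 10000 .nil)) (.leaf (.cons .c .d .c .e 10000 .b 10000 .c 10000 .nil)) (.leaf (.cons .c .d .c .e 10000 .b 10000 .c 10000 .nil))) (.node (.leaf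 (.cons .c .d .c .e 10000 .b 10000 .c 10000 .nil)) (.leaf (.cons .c .d .c .d 10000 .b 10000 .c 10000 .nil)) .nil (.leaf (.cons .c .d .c .e 10000 .b 10000 .c 10000 .nil)) (.leaf (.cons .c .d .c .e 10000 .b 10000 .c 10000 .nil))) (.node (.leaf (.cons .c .d .d .e 10000 .b 10000 .c 10000 .nil)) (.leaf (.cons .c .d .d .d 10000 .b 10000 .c 10000 .nil)) (.leaf (.cons .c .d .d .d 10000 .b 10000 .c 10000 .nil)) .nil (.leaf (.cons .c .d .d .e 10000 .b 10000 .c 10000 .nil))) .nil) .nil))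

def tbaab : Tr := (.node .nil (.node (.node .nil .nil (.node (.leaf (.cons .c .d .d .e 10000 .d 10000 .e 10000 .nil)) .nil .nil (.leaf (.cons .c .d .d .d 10000 .d 10000 .e 10000 .nil)) .nil) .nil .nil) .nil (.node (.node .nil .nil (.leaf (.cons .c .d .d .e 10000 .d 10000 .e 10000 .nil)) (.leaf (.cons .c .d .d .d 10000 .d 10000 .e 10000 .nil)) .nil) .nil (.node (.leaf (.cons .c .d .d .e 10000 .d 10000 .e 10000 .nil)) .nil .nil (.leaf (.cons .c .d .d .d 10000 .d 10000 .e 10000 .nil)) .nil) (.node (.leaf (.cons .c .d .c .e 10000 .d 10000 .e 10000 .nil)) .nil (.leaf (.cons .c .d .c .e 10000 .d 10000 .e 10000 .nil)) .nil (.leaf (.cons .c .d .c .d 10000 .d 10000 .e 10000 .nil))) .nil) .nil .nil) (.node (.node (.node .nil (.leaf (.cons .c .d .d .e 10000 .d 10000 .e 10000 .nil)) (.leaf (.cons .c .d .d .e 10000 .d 10000 .e 10000 .nil)) (.leaf (.cons .c .d .d .d 10000 .d 10000 .e 10000 .nil)) .nil) .nil .nil (.node (.leaf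 (.cons .c .d .c .e 10000 .d 10000 .e 10000 .nil)) (.leaf (.cons .c .d .c .e 10000 .d 10000 .e 10000 .nil)) (.leaf (.cons .c .d .c .e 10000 .d 10000 .e 10000 .nil)) .nil (.leaf (.cons .c .d .c .d 10000 .d 10000 .e 10000 (.cons .b .d .c .e 10000 .c 10000 .d 10000 .nil)))) .nil) (.node (.node .nil .nil (.leaf (.cons .c .d .d .e 10000 .d 10000 .e 10000 .nil)) (.leaf (.cons .c .d .d .d 10000 .d 10000 .e 10000 .nil)) .nil) .nil .nil (.node (.leaf (.cons .b .d .d .e 10000 .c 10000 .e 10000 .nil)) (.leaf (.cons .b .d .d .e 10000 .c 10000 .e 10000 .nil)) (.leaf (.cons .c .d .b .e 10000 .d 10000 .e 10000 .nil)) .nil (.leaf (.cons .b .d .d .d 10000 .c 10000 .e 10000 (.cons .b .d .b .e 10000 .c 10000 .d 10000 .nil)))) .nil) .nil (.node (.node .nil .nil (.leaf (.cons .c .c .d .e 10000 .d 10000 .e 10000 .nil)) (.leaf (.cons .b .d .d .e 10000 .c 10000 .e 10000 .nil)) (.leaf (.cons .c .c .d .d 10000 .d 10000 .e 10000 .nil)))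 (.node .nil .nil (.leaf (.cons .c .c .d .e 10000 .d 10000 .e 10000 .nil)) .nil .nil) .nil (.node (.leaf (.cons .b .d .d .e 10000 .c 10000 .e 10000 .nil)) (.leaf (.cons .b .d .d .e 10000 .c 10000 .e 10000 .nil)) (.leaf (.cons .c .c .c .e 10000 .d 10000 .e 10000 .nil)) .nil (.leaf (.cons .b .d .d .d 10000 .c 10000 .e 10000 (.cons .b .c .c .e 10000 .c 10000 .d 10000 .nil)))) (.node (.leaf (.cons .c .c .c .e 10000 .d 10000 .e 10000 .nil)) (.leaf (.cons .c .c .c .e 10000 .d 10000 .e 10000 .nil)) (.leaf (.cons .c .c .c .e 10000 .d 10000 .e 10000 .nil)) (.leaf (.cons .b .d .c .e 10000 .c 10000 .e 10000 .nil)) .nil)) .nil) .nil .nil)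

def tbaac : Tr := (.node .nil (.node (.node .nil .nil .nil (.node (.leaf (.cons .c .d .d .e 10000 .c 10000 .e 10000 .nil)) (.leaf (.cons .c .d .d .e 10000 .c 10000 .e 10000 .nil)) (.leaf (.cons .c .d .d .d 10000 .c 10000 .e 10000 (.cons .c .d .c .e 10000 .d 10000 .e 10000 .nil))) .nil (.leaf (.cons .c .d .c .e 10000 .c 10000 .d 10000 .nil))) .nil) .nil (.node (.node .nil .nil (.leaf (.cons .c .d .d .e 10000 .d 10000 .e 10000 .nil)) (.leaf (.cons .c .d .d .d 10000 .d 10000 .e 10000 .nil)) .nil) .nil (.node (.leaf (.cons .c .d .d .e 10000 .d 10000 .e 10000 .nil)) (.leaf (.cons .c .d .d .e 10000 .d 10000 .e 10000 .nil)) .nil (.leaf (.cons .c .d .d .d 10000 .d 10000 .e 10000 (.cons .c .c .c .e 10000 .c 10000 .e 10000 .nil))) .nil) (.node (.leaf (.cons .c .d .c .e 10000 .d 10000 .e 10000 .nil)) (.leaf (.cons .c .d .c .e 10000 .d 10000 .e 10000 .nil)) (.leaf (.cons .c .d .c .e 10000 .d 10000 .e 10000 .nil)) .nil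 (.leaf (.cons .c .d .c .d 10000 .d 10000 .e 10000 (.cons .c .c .c .e 10000 .c 10000 .d 10000 .nil)))) .nil) (.node (.node .nil .nil (.leaf (.cons .c .d .d .d 10000 .c 10000 .e 10000 .nil)) (.leaf (.cons .c .d .d .e 10000 .c 10000 .e 10000 .nil)) (.leaf (.cons .c .d .d .d 10000 .c 10000 .e 10000 .nil))) .nil (.node (.leaf (.cons .c .d .c .e 10000 .c 10000 .e 10000 .nil)) .nil .nil (.leaf (.cons .c .d .c .e 10000 .c 10000 .e 10000 .nil)) (.leaf (.cons .c .d .c .d 10000 .c 10000 .e 10000 (.cons .c .b .c .e 10000 .c 10000 .d 10000 .nil)))) (.node (.leaf (.cons .c .d .d .e 10000 .c 10000 .e 10000 .nil)) (.leaf (.cons .c .d .d .e 10000 .c 10000 .e 10000 .nil)) (.leaf (.cons .c .d .d .d 10000 .c 10000 .e 10000 (.cons .c .b .c .e 10000 .d 10000 .e 10000 .nil))) .nil (.leaf (.cons .c .d .d .d 10000 .c 10000 .e 10000 (.cons .c .b .c .e 10000 .c 10000 .d 10000 .nil)))) (.node (.leaf (.cons .c .d .c .e 10000 .c 10000 .e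 10000 .nil)) (.leaf (.cons .c .d .c .e 10000 .c 10000 .e 10000 .nil)) (.leaf (.cons .c .d .c .d 10000 .c 10000 .e 10000 (.cons .c .b .c .e 10000 .d 10000 .e 10000 .nil))) (.leaf (.cons .c .d .c .e 10000 .c 10000 .e 10000 .nil)) .nil)) .nil) (.node (.node (.node .nil .nil (.leaf (.cons .c .d .d .e 10000 .d 10000 .e 10000 .nil)) (.leaf (.cons .c .d .d .d 10000 .d 10000 .e 10000 .nil)) .nil) .nil .nil (.node (.leaf (.cons .c .d .c .e 10000 .d 10000 .e 10000 .nil)) .nil (.leaf (.cons .c .d .c .e 10000 .d 10000 .e 10000 .nil)) .nil (.leaf (.cons .c .d .c .d 10000 .d 10000 .e 10000 .nil))) .nil) (.node (.node .nil .nil (.leaf (.cons .c .d .d .e 10000 .d 10000 .e 10000 .nil)) (.leaf (.cons .c .d .d .d 10000 .d 10000 .e 10000 .nil)) .nil) .nil .nil (.node (.leaf (.cons .b .d .d .e 10000 .c 10000 .e 10000 .nil)) .nil (.leaf (.cons .c .d .b .e 10000 .d 10000 .e 10000 .nil)) .nil (.leaf (.cons .b .d .d .d 10000 .c 10000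 .e 10000 (.cons .b .d .b .e 10000 .c 10000 .d 10000 .nil)))) .nil) .nil (.node (.node .nil .nil (.leaf (.cons .c .c .d .e 10000 .d 10000 .e 10000 .nil)) (.leaf (.cons .b .d .d .e 10000 .c 10000 .e 10000 .nil)) (.leaf (.cons .c .c .d .d 10000 .d 10000 .e 10000 .nil))) .nil .nil (.node (.leaf (.cons .b .d .d .e 10000 .c 10000 .e 10000 .nil)) .nil (.leaf (.cons .c .c .c .e 10000 .d 10000 .e 10000 .nil)) .nil (.leaf (.cons .b .d .d .d 10000 .c 10000 .e 10000 .nil))) (.node (.leaf (.cons .c .c .c .e 10000 .d 10000 .e 10000 .nil)) .nil (.leaf (.cons .c .c .c .e 10000 .d 10000 .e 10000 .nil)) (.leaf (.cons .b .d .c .e 10000 .c 10000 .e 10000 .nil)) .nil)) .nil) (.node (.node (.node .nil (.leaf (.cons .c .d .d .e 10000 .c 10000 .e 10000 .nil)) (.leaf (.cons .c .d .d .d 10000 .c 10000 .e 10000 .nil)) (.leaf (.cons .c .d .d .e 10000 .c 10000 .e 10000 .nil)) (.leaf (.cons .c .d .d .d 10000 .c 10000 .e 10000 .nil))) (.node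 .nil .nil (.leaf (.cons .c .d .d .d 10000 .c 10000 .e 10000 .nil)) .nil .nil) .nil .nil (.node (.leaf (.cons .c .d .c .e 10000 .c 10000 .e 10000 .nil)) (.leaf (.cons .c .d .c .e 10000 .c 10000 .e 10000 .nil)) (.leaf (.cons .b .d .c .e 10000 .d 10000 .e 10000 .nil)) (.leaf (.cons .c .d .c .e 10000 .c 10000 .e 10000 .nil)) .nil)) (.node (.node .nil .nil (.leaf (.cons .c .d .d .d 10000 .c 10000 .e 10000 .nil)) (.leaf (.cons .c .d .d .e 10000 .c 10000 .e 10000 .nil)) (.leaf (.cons .c .d .d .d 10000 .c 10000 .e 10000 .nil))) (.node .nil .nil (.leaf (.cons .c .d .d .d 10000 .c 10000 .e 10000 .nil)) .nil .nil) (.node (.leaf (.cons .b .d .d .e 10000 .d 10000 .e 10000 .nil)) (.leaf (.cons .b .d .d .e 10000 .d 10000 .e 10000 .nil)) .nil (.leaf (.cons .c .d .a .e 10000 .c 10000 .e 10000 .nil)) (.leaf (.cons .b .d .d .d 10000 .d 10000 .e 10000 (.cons .b .d .a .e 10000 .c 10000 .d 10000 .nil)))) .nil (.node (.leaf (.cons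 .b .d .d .e 10000 .c 10000 .d 10000 .nil)) (.leaf (.cons .b .d .d .e 10000 .c 10000 .d 10000 .nil)) (.leaf (.cons .b .d .d .d 10000 .c 10000 .d 10000 (.cons .b .d .b .e 10000 .d 10000 .e 10000 .nil))) (.leaf (.cons .c .d .b .e 10000 .c 10000 .e 10000 .nil)) .nil)) (.node (.node .nil .nil (.leaf (.cons .b .d .d .e 10000 .d 10000 .e 10000 .nil)) (.leaf (.cons .c .c .d .e 10000 .c 10000 .e 10000 .nil)) (.leaf (.cons .c .c .d .d 10000 .c 10000 .e 10000 .nil))) (.node .nil .nil (.leaf (.cons .b .d .d .e 10000 .d 10000 .e 10000 .nil)) .nil .nil) (.node (.leaf (.cons .b .d .d .e 10000 .d 10000 .e 10000 .nil)) (.leaf (.cons .b .d .d .e 10000 .d 10000 .e 10000 .nil)) .nil (.leaf (.cons .c .c .c .e 10000 .c 10000 .e 10000 .nil)) (.leaf (.cons .b .d .d .d 10000 .d 10000 .e 10000 (.cons .b .c .c .e 10000 .c 10000 .d 10000 .nil)))) .nil (.node (.leaf (.cons .c .c .c .e 10000 .c 10000 .e 10000 .nil)) (.leaf (.cons .c .c .c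 .e 10000 .c 10000 .e 10000 .nil)) (.leaf (.cons .b .d .c .e 10000 .d 10000 .e 10000 .nil)) (.leaf (.cons .c .c .c .e 10000 .c 10000 .e 10000 .nil)) .nil)) .nil (.node (.node .nil .nil (.leaf (.cons .c .c .d .d 10000 .c 10000 .e 10000 .nil)) (.leaf (.cons .c .c .d .e 10000 .c 10000 .e 10000 .nil)) (.leaf (.cons .b .d .d .e 10000 .c 10000 .d 10000 .nil))) (.node .nil .nil (.leaf (.cons .b .c .d .e 10000 .d 10000 .e 10000 .nil)) .nil .nil) (.node (.leaf (.cons .c .c .c .e 10000 .c 10000 .e 10000 .nil)) (.leaf (.cons .c .c .c .e 10000 .c 10000 .e 10000 .nil)) .nil (.leaf (.cons .c .c .c .e 10000 .c 10000 .e 10000 .nil)) (.leaf (.cons .b .d .c .e 10000 .c 10000 .d 10000 .nil))) .nil (.node (.leaf (.cons .b .d .d .e 10000 .c 10000 .d 10000 .nil)) (.leaf (.cons .b .d .d .e 10000 .c 10000 .d 10000 .nil)) (.leaf (.cons .b .d .d .d 10000 .c 10000 .d 10000 (.cons .b .c .c .e 10000 .d 10000 .e 10000 .nil))) (.leaf (.cons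 .c .c .c .e 10000 .c 10000 .e 10000 .nil)) .nil))) .nil)

def tbaca : Tr := (.node (.node .nil (.node .nil (.node .nil .nil (.leaf (.cons .c .d .d .e 10000 .d 10000 .e 10000 .nil)) (.leaf (.cons .c .d .d .e 10000 .c 10000 .e 10000 .nil)) .nil) (.node (.leaf (.cons .c .d .d .e 10000 .d 10000 .e 10000 .nil)) (.leaf (.cons .c .d .d .e 10000 .d 10000 .e 10000 .nil)) .nil (.leaf (.cons .c .d .d .d 10000 .d 10000 .e 10000 (.cons .c .d .c .e 10000 .c 10000 .e 10000 .nil))) .nil) (.node (.leaf (.cons .c .d .d .e 10000 .c 10000 .e 10000 .nil)) (.leaf (.cons .c .d .d .e 10000 .c 10000 .e 10000 .nil)) (.leaf (.cons .c .d .d .d 10000 .c 10000 .e 10000 (.cons .c .d .c .e 10000 .d 10000 .e 10000 .nil))) .nil (.leaf (.cons .c .d .d .d 10000 .c 10000 .e 10000 (.cons .c .d .c .e 10000 .c 10000 .d 10000 .nil)))) .nil) (.node .nil (.node (.leaf (.cons .c .d .d .e 10000 .d 10000 .e 10000 .nil)) .nil (.leaf (.cons .c .d .d .e 10000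 .d 10000 .e 10000 .nil)) (.leaf (.cons .c .c .d .e 10000 .c 10000 .e 10000 .nil)) .nil) (.node (.leaf (.cons .c .d .d .e 10000 .d 10000 .e 10000 .nil)) .nil .nil (.leaf (.cons .c .c .c .e 10000 .c 10000 .e 10000 .nil)) .nil) (.node (.leaf (.cons .c .c .d .e 10000 .c 10000 .e 10000 .nil)) (.leaf (.cons .c .d .c .e 10000 .d 10000 .e 10000 .nil)) (.leaf (.cons .c .d .c .e 10000 .d 10000 .e 10000 .nil)) .nil (.leaf (.cons .c .c .c .e 10000 .c 10000 .d 10000 .nil))) .nil) (.node .nil (.node (.leaf (.cons .c .d .d .e 10000 .c 10000 .e 10000 .nil)) .nil (.leaf (.cons .c .c .d .e 10000 .d 10000 .e 10000 .nil)) (.leaf (.cons .c .d .d .e 10000 .c 10000 .e 10000 .nil)) (.leaf (.cons .c .c .d .e 10000 .c 10000 .d 10000 .nil))) (.node (.leaf (.cons .c .c .d .e 10000 .d 10000 .e 10000 .nil)) (.leaf (.cons .c .d .c .e 10000 .c 10000 .e 10000 .nil)) .nil (.leaf (.cons .c .d .c .e 10000 .c 10000 .e 10000 .nil)) (.leaf (.cons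 .c .d .c .d 10000 .c 10000 .e 10000 (.cons .c .c .c .e 10000 .c 10000 .d 10000 .nil)))) (.node (.leaf (.cons .c .d .d .e 10000 .c 10000 .e 10000 .nil)) (.leaf (.cons .c .d .d .e 10000 .c 10000 .e 10000 .nil)) (.leaf (.cons .c .d .d .d 10000 .c 10000 .e 10000 (.cons .c .c .c .e 10000 .d 10000 .e 10000 .nil))) .nil (.leaf (.cons .c .c .c .e 10000 .c 10000 .d 10000 .nil))) (.node (.leaf (.cons .c .c .d .e 10000 .c 10000 .d 10000 .nil)) (.leaf (.cons .c .d .c .e 10000 .c 10000 .e 10000 .nil)) (.leaf (.cons .c .d .c .d 10000 .c 10000 .e 10000 (.cons .c .c .c .e 10000 .d 10000 .e 10000 .nil))) (.leaf (.cons .c .d .c .e 10000 .c 10000 .e 10000 .nil)) .nil)) .nil) (.node (.node (.node .nil (.leaf (.cons .c .d .d .e 10000 .d 10000 .e 10000 .nil)) (.leaf (.cons .c .d .d .e 10000 .d 10000 .e 10000 .nil)) (.leaf (.cons .c .d .d .d 10000 .d 10000 .e 10000 .nil)) .nil) .nil .nil (.node (.leaf (.cons .c .d .c .e 10000 .d 10000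 .e 10000 .nil)) (.leaf (.cons .c .d .c .e 10000 .d 10000 .e 10000 .nil)) (.leaf (.cons .c .d .c .e 10000 .d 10000 .e 10000 .nil)) .nil (.leaf (.cons .c .d .c .d 10000 .d 10000 .e 10000 .nil))) .nil) .nil (.node .nil .nil (.node (.leaf (.cons .c .d .d .e 10000 .d 10000 .e 10000 .nil)) (.leaf (.cons .c .d .d .e 10000 .d 10000 .e 10000 .nil)) .nil (.leaf (.cons .c .d .d .d 10000 .d 10000 .e 10000 .nil)) .nil) (.node (.leaf (.cons .c .d .c .e 10000 .d 10000 .e 10000 .nil)) (.leaf (.cons .c .d .c .e 10000 .d 10000 .e 10000 .nil)) (.leaf (.cons .c .d .c .e 10000 .d 10000 .e 10000 .nil)) .nil (.leaf (.cons .c .d .c .d 10000 .d 10000 .e 10000 .nil))) .nil) (.node (.node .nil (.leaf (.cons .c .c .d .e 10000 .d 10000 .e 10000 .nil)) (.leaf (.cons .c .c .d .e 10000 .d 10000 .e 10000 .nil)) (.leaf (.cons .c .c .d .d 10000 .d 10000 .e 10000 .nil)) (.leaf (.cons .c .c .d .d 10000 .d 10000 .e 10000 .nil))) .nil (.node (.leaf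 (.cons .c .c .d .e 10000 .d 10000 .e 10000 .nil)) (.leaf (.cons .c .c .d .e 10000 .d 10000 .e 10000 .nil)) .nil (.leaf (.cons .c .c .d .d 10000 .d 10000 .e 10000 .nil)) (.leaf (.cons .c .c .d .d 10000 .d 10000 .e 10000 .nil))) (.node (.leaf (.cons .c .c .c .e 10000 .d 10000 .e 10000 .nil)) (.leaf (.cons .c .c .c .e 10000 .d 10000 .e 10000 .nil)) (.leaf (.cons .c .c .c .e 10000 .d 10000 .e 10000 .nil)) .nil (.leaf (.cons .c .c .c .d 10000 .d 10000 .e 10000 .nil))) (.node (.leaf (.cons .c .c .c .e 10000 .d 10000 .e 10000 .nil)) (.leaf (.cons .c .c .c .e 10000 .d 10000 .e 10000 .nil)) (.leaf (.cons .c .c .c .e 10000 .d 10000 .e 10000 .nil)) (.leaf (.cons .c .c .c .d 10000 .d 10000 .e 10000 .nil)) .nil)) .nil) .nil (.node (.node (.node .nil (.leaf (.cons .c .d .d .e 10000 .c 10000 .e 10000 .nil)) (.leaf (.cons .c .d .d .d 10000 .c 10000 .e 10000 .nil)) (.leaf (.cons .c .d .d .e 10000 .c 10000 .e 10000 .nil)) (.leaf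 (.cons .c .d .d .d 10000 .c 10000 .e 10000 .nil))) (.node (.leaf (.cons .c .d .d .e 10000 .c 10000 .e 10000 .nil)) .nil (.leaf (.cons .c .d .d .d 10000 .c 10000 .e 10000 .nil)) (.leaf (.cons .c .d .d .e 10000 .c 10000 .e 10000 .nil)) (.leaf (.cons .c .d .d .d 10000 .c 10000 .e 10000 .nil))) (.node (.leaf (.cons .b .d .d .e 10000 .d 10000 .e 10000 .nil)) (.leaf (.cons .b .d .d .e 10000 .d 10000 .e 10000 .nil)) .nil (.leaf (.cons .c .d .b .e 10000 .c 10000 .e 10000 .nil)) (.leaf (.cons .b .d .d .d 10000 .d 10000 .e 10000 (.cons .b .d .b .e 10000 .c 10000 .d 10000 .nil)))) .nil (.node (.leaf (.cons .c .d .c .e 10000 .c 10000 .e 10000 (.cons .b .d .d .e 10000 .c 10000 .d 10000 .nil))) (.leaf (.cons .c .d .c .e 10000 .c 10000 .e 10000 .nil)) (.leaf (.cons .b .d .c .e 10000 .d 10000 .e 10000 .nil)) (.leaf (.cons .c .d .c .e 10000 .c 10000 .e 10000 .nil)) .nil)) (.node (.node .nil (.leaf (.cons .c .d .d .e 10000 .c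 10000 .e 10000 .nil)) (.leaf (.cons .c .d .d .d 10000 .c 10000 .e 10000 .nil)) (.leaf (.cons .c .d .d .e 10000 .c 10000 .e 10000 .nil)) (.leaf (.cons .c .d .d .d 10000 .c 10000 .e 10000 .nil))) (.node (.leaf (.cons .c .d .d .e 10000 .c 10000 .e 10000 .nil)) .nil (.leaf (.cons .c .d .d .d 10000 .c 10000 .e 10000 .nil)) (.leaf (.cons .c .d .d .e 10000 .c 10000 .e 10000 .nil)) (.leaf (.cons .c .d .d .d 10000 .c 10000 .e 10000 .nil))) (.node (.leaf (.cons .b .d .d .e 10000 .d 10000 .e 10000 .nil)) (.leaf (.cons .b .d .d .e 10000 .d 10000 .e 10000 .nil)) .nil (.leaf (.cons .c .d .b .e 10000 .c 10000 .e 10000 .nil)) (.leaf (.cons .b .d .d .d 10000 .d 10000 .e 10000 (.cons .b .d .b .e 10000 .c 10000 .d 10000 .nil)))) .nil (.node (.leaf (.cons .b .d .d .e 10000 .c 10000 .d 10000 .nil)) (.leaf (.cons .b .d .d .e 10000 .c 10000 .d 10000 .nil)) (.leaf (.cons .b .d .d .d 10000 .c 10000 .d 10000 (.cons .b .d .b .e 10000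 .d 10000 .e 10000 .nil))) (.leaf (.cons .c .d .b .e 10000 .c 10000 .e 10000 .nil)) .nil)) (.node .nil (.node (.leaf (.cons .c .c .d .e 10000 .c 10000 .e 10000 .nil)) .nil (.leaf (.cons .b .d .d .e 10000 .d 10000 .e 10000 .nil)) (.leaf (.cons .c .c .d .e 10000 .c 10000 .e 10000 .nil)) (.leaf (.cons .b .c .d .e 10000 .c 10000 .d 10000 .nil))) (.node (.leaf (.cons .b .d .d .e 10000 .d 10000 .e 10000 .nil)) (.leaf (.cons .b .d .d .e 10000 .d 10000 .e 10000 .nil)) .nil (.leaf (.cons .c .c .c .e 10000 .c 10000 .e 10000 .nil)) (.leaf (.cons .b .d .d .d 10000 .d 10000 .e 10000 (.cons .b .c .c .e 10000 .c 10000 .d 10000 .nil)))) .nil (.node (.leaf (.cons .c .c .c .e 10000 .c 10000 .e 10000 (.cons .b .c .d .e 10000 .c 10000 .d 10000 .nil))) (.leaf (.cons .c .c .c .e 10000 .c 10000 .e 10000 .nil)) (.leaf (.cons .b .d .c .e 10000 .d 10000 .e 10000 .nil)) (.leaf (.cons .c .c .c .e 10000 .c 10000 .e 10000 .nil)) .nil)) .nil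 (.node (.node .nil (.leaf (.cons .b .d .d .e 10000 .c 10000 .d 10000 .nil)) (.leaf (.cons .b .c .d .e 10000 .d 10000 .e 10000 .nil)) (.leaf (.cons .c .c .d .e 10000 .c 10000 .e 10000 .nil)) (.leaf (.cons .b .d .d .e 10000 .c 10000 .d 10000 .nil))) (.node (.leaf (.cons .c .c .d .e 10000 .c 10000 .e 10000 .nil)) .nil (.leaf (.cons .b .c .d .e 10000 .d 10000 .e 10000 .nil)) (.leaf (.cons .c .c .d .e 10000 .c 10000 .e 10000 .nil)) (.leaf (.cons .b .d .d .e 10000 .c 10000 .d 10000 .nil))) (.node (.leaf (.cons .c .c .c .e 10000 .c 10000 .e 10000 (.cons .b .c .d .e 10000 .d 10000 .e 10000 .nil))) (.leaf (.cons .c .c .c .e 10000 .c 10000 .e 10000 .nil)) .nil (.leaf (.cons .c .c .c .e 10000 .c 10000 .e 10000 .nil)) (.leaf (.cons .b .d .c .e 10000 .c 10000 .d 10000 .nil))) .nil (.node (.leaf (.cons .b .d .d .e 10000 .c 10000 .d 10000 .nil)) (.leaf (.cons .b .d .d .e 10000 .c 10000 .d 10000 .nil)) (.leaf (.cons .b .d .d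 .d 10000 .c 10000 .d 10000 (.cons .b .c .c .e 10000 .d 10000 .e 10000 .nil))) (.leaf (.cons .c .c .c .e 10000 .c 10000 .e 10000 .nil)) .nil))) .nil)

def tbacb : Tr := (.node .nil (.node (.node (.node .nil (.leaf (.cons .c .d .d .e 10000 .c 10000 .d 10000 .nil)) (.leaf (.cons .c .d .d .e 10000 .d 10000 .e 10000 .nil)) (.leaf (.cons .c .d .d .e 10000 .c 10000 .e 10000 .nil)) .nil) .nil .nil (.node (.leaf (.cons .c .d .d .e 10000 .c 10000 .e 10000 .nil)) (.leaf (.cons .c .d .d .e 10000 .c 10000 .e 10000 .nil)) (.leaf (.cons .c .d .d .d 10000 .c 10000 .e 10000 (.cons .c .d .c .e 10000 .d 10000 .e 10000 .nil))) .nil (.leaf (.cons .c .d .c .e 10000 .c 10000 .d 10000 .nil))) .nil) .nil (.node (.node .nil (.leaf (.cons .c .d .d .e 10000 .d 10000 .e 10000 .nil)) (.leaf (.cons .c .d .d .e 10000 .d 10000 .e 10000 .nil)) (.leaf (.cons .c .d .d .d 10000 .d 10000 .e 10000 .nil)) .nil) .nil (.node (.leaf (.cons .c .d .d .e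 10000 .d 10000 .e 10000 .nil)) (.leaf (.cons .c .d .d .e 10000 .d 10000 .e 10000 .nil)) .nil (.leaf (.cons .c .d .d .d 10000 .d 10000 .e 10000 (.cons .c .c .c .e 10000 .c 10000 .e 10000 .nil))) .nil) (.node (.leaf (.cons .c .c .d .e 10000 .c 10000 .e 10000 .nil)) (.leaf (.cons .c .d .c .e 10000 .d 10000 .e 10000 .nil)) (.leaf (.cons .c .d .c .e 10000 .d 10000 .e 10000 .nil)) .nil (.leaf (.cons .c .d .c .d 10000 .d 10000 .e 10000 (.cons .c .c .c .e 10000 .c 10000 .d 10000 .nil)))) .nil) (.node (.node .nil (.leaf (.cons .c .d .d .e 10000 .c 10000 .e 10000 .nil)) (.leaf (.cons .c .c .d .e 10000 .d 10000 .e 10000 .nil)) (.leaf (.cons .c .d .d .e 10000 .c 10000 .e 10000 .nil)) (.leaf (.cons .c .d .d .d 10000 .c 10000 .e 10000 .nil))) .nil (.node (.leaf (.cons .c .d .c .e 10000 .c 10000 .e 10000 (.cons .c .c .d .e 10000 .d 10000 .e 10000 .nil))) (.leaf (.cons .c .d .c .e 10000 .c 10000 .e 10000 .nil)) .nil (.leaf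 (.cons .c .d .c .e 10000 .c 10000 .e 10000 .nil)) (.leaf (.cons .c .d .c .d 10000 .c 10000 .e 10000 (.cons .c .c .c .e 10000 .c 10000 .d 10000 .nil)))) (.node (.leaf (.cons .c .d .d .e 10000 .c 10000 .e 10000 .nil)) (.leaf (.cons .c .d .d .e 10000 .c 10000 .e 10000 .nil)) (.leaf (.cons .c .d .d .d 10000 .c 10000 .e 10000 (.cons .c .c .c .e 10000 .d 10000 .e 10000 .nil))) .nil (.leaf (.cons .c .d .d .d 10000 .c 10000 .e 10000 (.cons .c .c .c .e 10000 .c 10000 .d 10000 .nil)))) (.node (.leaf (.cons .c .c .d .e 10000 .c 10000 .d 10000 (.cons .c .d .c .e 10000 .c 10000 .e 10000 .nil))) (.leaf (.cons .c .d .c .e 10000 .c 10000 .e 10000 .nil)) (.leaf (.cons .c .d .c .d 10000 .c 10000 .e 10000 (.cons .c .c .c .e 10000 .d 10000 .e 10000 .nil))) (.leaf (.cons .c .d .c .e 10000 .c 10000 .e 10000 .nil)) .nil)) .nil) .nil (.node (.node (.node .nil (.leaf (.cons .c .d .d .e 10000 .c 10000 .e 10000 .nil)) (.leaf (.cons .c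 .d .d .d 10000 .c 10000 .e 10000 .nil)) (.leaf (.cons .c .d .d .e 10000 .c 10000 .e 10000 .nil)) (.leaf (.cons .c .d .d .d 10000 .c 10000 .e 10000 .nil))) (.node (.leaf (.cons .c .d .d .e 10000 .c 10000 .e 10000 .nil)) .nil (.leaf (.cons .c .d .d .d 10000 .c 10000 .e 10000 .nil)) (.leaf (.cons .c .d .d .e 10000 .c 10000 .e 10000 .nil)) (.leaf (.cons .c .d .d .d 10000 .c 10000 .e 10000 .nil))) (.node (.leaf (.cons .c .d .b .e 10000 .c 10000 .e 10000 (.cons .a .d .d .e 10000 .d 10000 .e 10000 .nil))) (.leaf (.cons .c .d .b .e 10000 .c 10000 .e 10000 .nil)) .nil (.leaf (.cons .c .d .b .e 10000 .c 10000 .e 10000 .nil)) (.leaf (.cons .c .d .b .d 10000 .c 10000 .e 10000 (.cons .a .d .b .e 10000 .c 10000 .d 10000 .nil)))) .nil (.node (.leaf (.cons .c .d .c .e 10000 .c 10000 .e 10000 (.cons .a .d .d .e 10000 .c 10000 .d 10000 .nil))) (.leaf (.cons .c .d .c .e 10000 .c 10000 .e 10000 .nil)) (.leaf (.cons .a .d .c .e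 10000 .d 10000 .e 10000 .nil)) (.leaf (.cons .c .d .c .e 10000 .c 10000 .e 10000 .nil)) .nil)) (.node (.node .nil (.leaf (.cons .c .d .d .e 10000 .c 10000 .e 10000 .nil)) (.leaf (.cons .c .d .d .d 10000 .c 10000 .e 10000 .nil)) (.leaf (.cons .c .d .d .e 10000 .c 10000 .e 10000 .nil)) (.leaf (.cons .c .d .d .d 10000 .c 10000 .e 10000 .nil))) (.node (.leaf (.cons .c .d .d .e 10000 .c 10000 .e 10000 .nil)) .nil (.leaf (.cons .c .d .d .d 10000 .c 10000 .e 10000 .nil)) (.leaf (.cons .c .d .d .e 10000 .c 10000 .e 10000 .nil)) (.leaf (.cons .c .d .d .d 10000 .c 10000 .e 10000 .nil))) (.node (.leaf (.cons .a .d .d .e 10000 .d 10000 .e 10000 .nil)) (.leaf (.cons .c .d .b .e 10000 .c 10000 .e 10000 .nil)) .nil (.leaf (.cons .c .d .b .e 10000 .c 10000 .e 10000 .nil)) (.leaf (.cons .c .d .b .d 10000 .c 10000 .e 10000 (.cons .a .d .b .e 10000 .c 10000 .d 10000 .nil)))) .nil (.node (.leaf (.cons .a .d .d .e 10000 .c 10000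 .d 10000 .nil)) (.leaf (.cons .c .d .b .e 10000 .c 10000 .e 10000 .nil)) (.leaf (.cons .a .d .b .e 10000 .d 10000 .e 10000 .nil)) (.leaf (.cons .c .d .b .e 10000 .c 10000 .e 10000 .nil)) .nil)) (.node (.node .nil (.leaf (.cons .a .d .d .e 10000 .d 10000 .e 10000 .nil)) (.leaf (.cons .c .c .d .d 10000 .c 10000 .e 10000 .nil)) (.leaf (.cons .c .c .d .e 10000 .c 10000 .e 10000 .nil)) (.leaf (.cons .c .c .d .d 10000 .c 10000 .e 10000 .nil))) .nil (.node (.leaf (.cons .c .c .c .e 10000 .c 10000 .e 10000 (.cons .a .d .d .e 10000 .d 10000 .e 10000 .nil))) (.leaf (.cons .c .c .c .e 10000 .c 10000 .e 10000 .nil)) .nil (.leaf (.cons .c .c .c .e 10000 .c 10000 .e 10000 .nil)) (.leaf (.cons .c .c .c .d 10000 .c 10000 .e 10000 (.cons .a .c .c .e 10000 .c 10000 .d 10000 .nil)))) .nil (.node (.leaf (.cons .c .c .c .e 10000 .c 10000 .e 10000 (.cons .a .c .d .e 10000 .c 10000 .d 10000 .nil))) (.leaf (.cons .c .c .c .e 10000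 .c 10000 .e 10000 .nil)) (.leaf (.cons .c .c .c .d 10000 .c 10000 .e 10000 (.cons .a .d .c .e 10000 .d 10000 .e 10000 .nil))) (.leaf (.cons .c .c .c .e 10000 .c 10000 .e 10000 .nil)) .nil)) .nil (.node (.node .nil (.leaf (.cons .a .d .d .e 10000 .c 10000 .d 10000 .nil)) (.leaf (.cons .c .c .d .c 10000 .c 10000 .e 10000 .nil)) (.leaf (.cons .c .c .d .e 10000 .c 10000 .e 10000 .nil)) (.leaf (.cons .c .c .d .d 10000 .c 10000 .e 10000 .nil))) (.node (.leaf (.cons .c .c .d .e 10000 .c 10000 .e 10000 .nil)) .nil (.leaf (.cons .c .c .d .c 10000 .c 10000 .e 10000 .nil)) (.leaf (.cons .c .c .d .e 10000 .c 10000 .e 10000 .nil)) (.leaf (.cons .c .c .d .d 10000 .c 10000 .e 10000 .nil))) (.node (.leaf (.cons .c .c .c .e 10000 .c 10000 .e 10000 (.cons .a .c .d .e 10000 .d 10000 .e 10000 .nil))) (.leaf (.cons .c .c .c .e 10000 .c 10000 .e 10000 .nil)) .nil (.leaf (.cons .c .c .c .e 10000 .c 10000 .e 10000 .nil)) (.leaf (.cons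 .c .c .c .d 10000 .c 10000 .e 10000 (.cons .a .d .c .e 10000 .c 10000 .d 10000 .nil)))) .nil (.node (.leaf (.cons .c .c .c .e 10000 .c 10000 .e 10000 (.cons .a .d .d .e 10000 .c 10000 .d 10000 .nil))) (.leaf (.cons .c .c .c .e 10000 .c 10000 .e 10000 .nil)) (.leaf (.cons .c .c .c .d 10000 .c 10000 .e 10000 (.cons .a .c .c .e 10000 .d 10000 .e 10000 .nil))) (.leaf (.cons .c .c .c .e 10000 .c 10000 .e 10000 .nil)) .nil))) .nil)

def tbacd : Tr := (.node (.node .nil (.node .nil (.node (.leaf (.cons .c .d .d .e 10000 .c 10000 .d 10000 .nil)) .nil (.leaf (.cons .c .d .d .e 10000 .d 10000 .e 10000 .nil)) (.leaf (.cons .c .d .d .e 10000 .c 10000 .e 10000 .nil)) (.leaf (.cons .c .d .d .e 10000 .c 10000 .d 10000 .nil))) (.node (.leaf (.cons .c .d .d .e 10000 .d 10000 .e 10000 .nil)) (.leaf (.cons .c .d .d .e 10000 .d 10000 .e 10000 .nil)) .nil (.leaf (.cons .c .d .c .e 10000 .c 10000 .e 10000 .nil)) (.leaf (.cons .c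 .d .d .d 10000 .d 10000 .e 10000 (.cons .c .d .c .e 10000 .c 10000 .d 10000 .nil)))) (.node (.leaf (.cons .c .d .d .e 10000 .c 10000 .e 10000 .nil)) (.leaf (.cons .c .d .d .e 10000 .c 10000 .e 10000 .nil)) (.leaf (.cons .c .d .d .d 10000 .c 10000 .e 10000 (.cons .c .d .c .e 10000 .d 10000 .e 10000 .nil))) .nil (.leaf (.cons .c .d .d .d 10000 .c 10000 .e 10000 (.cons .c .d .c .e 10000 .c 10000 .d 10000 .nil)))) (.node (.leaf (.cons .c .d .d .e 10000 .c 10000 .d 10000 .nil)) (.leaf (.cons .c .d .d .e 10000 .c 10000 .d 10000 .nil)) (.leaf (.cons .c .d .d .d 10000 .c 10000 .d 10000 (.cons .c .d .c .e 10000 .d 10000 .e 10000 .nil))) (.leaf (.cons .c .d .d .d 10000 .c 10000 .d 10000 (.cons .c .d .c .e 10000 .c 10000 .e 10000 .nil))) .nil)) (.node .nil (.node (.leaf (.cons .c .d .d .e 10000 .d 10000 .e 10000 .nil)) .nil (.leaf (.cons .c .d .d .e 10000 .d 10000 .e 10000 .nil)) (.leaf (.cons .c .d .d .c 10000 .d 10000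 .e 10000 (.cons .c .b .d .e 10000 .c 10000 .e 10000 .nil))) (.leaf (.cons .c .d .d .c 10000 .d 10000 .e 10000 (.cons .c .b .d .e 10000 .c 10000 .d 10000 .nil)))) (.node (.leaf (.cons .c .d .d .e 10000 .d 10000 .e 10000 .nil)) (.leaf (.cons .c .d .d .e 10000 .d 10000 .e 10000 .nil)) .nil (.leaf (.cons .c .d .d .d 10000 .d 10000 .e 10000 .nil)) (.leaf (.cons .c .d .d .d 10000 .d 10000 .e 10000 (.cons .c .b .c .e 10000 .c 10000 .d 10000 .nil)))) .nil (.node (.leaf (.cons .c .d .c .e 10000 .d 10000 .e 10000 (.cons .c .b .d .e 10000 .c 10000 .d 10000 .nil))) (.leaf (.cons .c .d .c .e 10000 .d 10000 .e 10000 .nil)) (.leaf (.cons .c .d .c .e 10000 .d 10000 .e 10000 .nil)) (.leaf (.cons .c .d .c .d 10000 .d 10000 .e 10000 (.cons .c .b .c .e 10000 .c 10000 .e 10000 .nil))) .nil)) (.node .nil (.node (.leaf (.cons .c .d .d .e 10000 .c 10000 .e 10000 .nil)) .nil (.leaf (.cons .c .c .d .e 10000 .d 10000 .e 10000 .nil)) (.leaf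 (.cons .c .d .d .e 10000 .c 10000 .e 10000 .nil)) (.leaf (.cons .c .c .d .e 10000 .c 10000 .d 10000 .nil))) (.node (.leaf (.cons .c .c .d .e 10000 .d 10000 .e 10000 .nil)) (.leaf (.cons .c .d .c .e 10000 .c 10000 .e 10000 .nil)) .nil (.leaf (.cons .c .d .c .e 10000 .c 10000 .e 10000 .nil)) (.leaf (.cons .c .d .c .d 10000 .c 10000 .e 10000 (.cons .c .c .c .e 10000 .c 10000 .d 10000 .nil)))) (.node (.leaf (.cons .c .d .d .e 10000 .c 10000 .e 10000 .nil)) (.leaf (.cons .c .d .d .e 10000 .c 10000 .e 10000 .nil)) (.leaf (.cons .c .c .c .e 10000 .d 10000 .e 10000 .nil)) .nil (.leaf (.cons .c .c .c .e 10000 .c 10000 .d 10000 .nil))) (.node (.leaf (.cons .c .c .d .e 10000 .c 10000 .d 10000 .nil)) (.leaf (.cons .c .d .c .e 10000 .c 10000 .e 10000 .nil)) (.leaf (.cons .c .d .c .d 10000 .c 10000 .e 10000 (.cons .c .c .c .e 10000 .d 10000 .e 10000 .nil))) (.leaf (.cons .c .d .c .e 10000 .c 10000 .e 10000 .nil)) .nil)) (.node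 .nil (.node (.leaf (.cons .c .d .d .e 10000 .c 10000 .d 10000 .nil)) .nil (.leaf (.cons .c .c .d .e 10000 .d 10000 .e 10000 .nil)) (.leaf (.cons .c .c .d .e 10000 .c 10000 .e 10000 .nil)) (.leaf (.cons .c .d .d .e 10000 .c 10000 .d 10000 .nil))) (.node (.leaf (.cons .c .c .d .e 10000 .d 10000 .e 10000 .nil)) (.leaf (.cons .c .d .c .e 10000 .c 10000 .d 10000 .nil)) .nil (.leaf (.cons .c .c .c .e 10000 .c 10000 .e 10000 .nil)) (.leaf (.cons .c .d .c .e 10000 .c 10000 .d 10000 .nil))) (.node (.leaf (.cons .c .d .c .e 10000 .c 10000 .d 10000 (.cons .c .c .d .e 10000 .c 10000 .e 10000 .nil))) (.leaf (.cons .c .d .c .e 10000 .c 10000 .d 10000 .nil)) (.leaf (.cons .c .d .c .d 10000 .c 10000 .d 10000 (.cons .c .c .c .e 10000 .d 10000 .e 10000 .nil))) .nil (.leaf (.cons .c .d .c .e 10000 .c 10000 .d 10000 .nil))) (.node (.leaf (.cons .c .d .d .e 10000 .c 10000 .d 10000 .nil)) (.leaf (.cons .c .d .d .e 10000 .c 10000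 .d 10000 .nil)) (.leaf (.cons .c .c .c .e 10000 .d 10000 .e 10000 .nil)) (.leaf (.cons .c .d .d .d 10000 .c 10000 .d 10000 (.cons .c .c .c .e 10000 .c 10000 .e 10000 .nil))) .nil))) (.node (.node (.node .nil (.leaf (.cons .c .d .d .e 10000 .c 10000 .d 10000 .nil)) (.leaf (.cons .c .d .d .e 10000 .d 10000 .e 10000 .nil)) (.leaf (.cons .c .d .d .e 10000 .c 10000 .e 10000 .nil)) (.leaf (.cons .c .d .d .e 10000 .c 10000 .d 10000 .nil))) .nil .nil (.node (.leaf (.cons .c .d .d .e 10000 .c 10000 .e 10000 .nil)) (.leaf (.cons .c .d .d .e 10000 .c 10000 .e 10000 .nil)) (.leaf (.cons .c .d .d .d 10000 .c 10000 .e 10000 (.cons .c .d .c .e 10000 .d 10000 .e 10000 .nil))) .nil (.leaf (.cons .c .d .d .d 10000 .c 10000 .e 10000 (.cons .c .d .c .e 10000 .c 10000 .d 10000 .nil)))) (.node (.leaf (.cons .c .d .d .e 10000 .c 10000 .d 10000 .nil)) (.leaf (.cons .c .d .d .e 10000 .c 10000 .d 10000 .nil)) (.leaf (.cons .c .d .d .d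 10000 .c 10000 .d 10000 (.cons .c .d .c .e 10000 .d 10000 .e 10000 .nil))) (.leaf (.cons .c .d .c .e 10000 .c 10000 .e 10000 .nil)) .nil)) .nil (.node (.node .nil (.leaf (.cons .c .d .d .e 10000 .d 10000 .e 10000 .nil)) (.leaf (.cons .c .d .d .e 10000 .d 10000 .e 10000 .nil)) (.leaf (.cons .c .d .d .d 10000 .d 10000 .e 10000 .nil)) (.leaf (.cons .c .d .d .d 10000 .d 10000 .e 10000 .nil))) .nil (.node (.leaf (.cons .c .d .d .e 10000 .d 10000 .e 10000 .nil)) (.leaf (.cons .c .d .d .e 10000 .d 10000 .e 10000 .nil)) .nil (.leaf (.cons .c .d .d .d 10000 .d 10000 .e 10000 (.cons .c .a .c .e 10000 .c 10000 .e 10000 .nil))) (.leaf (.cons .c .d .d .d 10000 .d 10000 .e 10000 (.cons .c .a .c .e 10000 .c 10000 .d 10000 .nil)))) .nil (.node (.leaf (.cons .c .d .c .e 10000 .d 10000 .e 10000 (.cons .c .a .d .e 10000 .c 10000 .d 10000 .nil))) (.leaf (.cons .c .d .c .e 10000 .d 10000 .e 10000 .nil)) (.leaf (.cons .c .d .c .e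 10000 .d 10000 .e 10000 .nil)) (.leaf (.cons .c .d .c .d 10000 .d 10000 .e 10000 (.cons .c .a .c .e 10000 .c 10000 .e 10000 .nil))) .nil)) (.node (.node .nil (.leaf (.cons .c .d .d .e 10000 .c 10000 .e 10000 .nil)) (.leaf (.cons .c .c .d .e 10000 .d 10000 .e 10000 .nil)) (.leaf (.cons .c .d .d .e 10000 .c 10000 .e 10000 .nil)) (.leaf (.cons .c .d .d .d 10000 .c 10000 .e 10000 .nil))) .nil (.node (.leaf (.cons .c .d .c .e 10000 .c 10000 .e 10000 (.cons .c .c .d .e 10000 .d 10000 .e 10000 .nil))) (.leaf (.cons .c .d .c .e 10000 .c 10000 .e 10000 .nil)) .nil (.leaf (.cons .c .d .c .e 10000 .c 10000 .e 10000 .nil)) (.leaf (.cons .c .d .c .d 10000 .c 10000 .e 10000 (.cons .c .c .c .e 10000 .c 10000 .d 10000 .nil)))) (.node (.leaf (.cons .c .d .d .e 10000 .c 10000 .e 10000 .nil)) (.leaf (.cons .c .d .d .e 10000 .c 10000 .e 10000 .nil)) (.leaf (.cons .c .d .d .d 10000 .c 10000 .e 10000 (.cons .c .c .c .e 10000 .d 10000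 .e 10000 .nil))) .nil (.leaf (.cons .c .d .d .d 10000 .c 10000 .e 10000 (.cons .c .c .c .e 10000 .c 10000 .d 10000 .nil)))) (.node (.leaf (.cons .c .c .d .e 10000 .c 10000 .d 10000 .nil)) (.leaf (.cons .c .d .c .e 10000 .c 10000 .e 10000 .nil)) (.leaf (.cons .c .d .c .d 10000 .c 10000 .e 10000 (.cons .c .c .c .e 10000 .d 10000 .e 10000 .nil))) (.leaf (.cons .c .d .c .e 10000 .c 10000 .e 10000 .nil)) .nil)) (.node (.node .nil (.leaf (.cons .c .d .d .e 10000 .c 10000 .d 10000 .nil)) (.leaf (.cons .c .d .d .c 10000 .c 10000 .d 10000 .nil)) (.leaf (.cons .c .d .d .d 10000 .c 10000 .d 10000 .nil)) (.leaf (.cons .c .d .d .e 10000 .c 10000 .d 10000 .nil))) .nil (.node (.leaf (.cons .c .d .c .e 10000 .c 10000 .d 10000 (.cons .c .b .d .e 10000 .d 10000 .e 10000 .nil))) (.leaf (.cons .c .d .c .e 10000 .c 10000 .d 10000 .nil)) .nil (.leaf (.cons .c .d .c .d 10000 .c 10000 .d 10000 (.cons .c .b .c .e 10000 .c 10000 .e 10000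 .nil))) (.leaf (.cons .c .d .c .e 10000 .c 10000 .d 10000 .nil))) (.node (.leaf (.cons .c .d .c .e 10000 .c 10000 .d 10000 (.cons .c .b .d .e 10000 .c 10000 .e 10000 .nil))) (.leaf (.cons .c .d .c .e 10000 .c 10000 .d 10000 .nil)) (.leaf (.cons .c .d .c .d 10000 .c 10000 .d 10000 (.cons .c .b .c .e 10000 .d 10000 .e 10000 .nil))) .nil (.leaf (.cons .c .d .c .e 10000 .c 10000 .d 10000 .nil))) (.node (.leaf (.cons .c .d .d .e 10000 .c 10000 .d 10000 .nil)) (.leaf (.cons .c .d .d .e 10000 .c 10000 .d 10000 .nil)) (.leaf (.cons .c .d .d .d 10000 .c 10000 .d 10000 (.cons .c .b .c .e 10000 .d 10000 .e 10000 .nil))) (.leaf (.cons .c .d .d .d 10000 .c 10000 .d 10000 (.cons .c .b .c .e 10000 .c 10000 .e 10000 .nil))) .nil))) .nil (.node (.node (.node .nil (.leaf (.cons .c .d .d .e 10000 .c 10000 .e 10000 .nil)) (.leaf (.cons .c .d .d .d 10000 .c 10000 .e 10000 .nil)) (.leaf (.cons .c .d .d .e 10000 .c 10000 .e 10000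 .nil)) (.leaf (.cons .c .d .d .d 10000 .c 10000 .e 10000 .nil))) (.node (.leaf (.cons .c .d .d .e 10000 .c 10000 .e 10000 .nil)) .nil (.leaf (.cons .c .d .d .d 10000 .c 10000 .e 10000 .nil)) (.leaf (.cons .c .d .d .e 10000 .c 10000 .e 10000 .nil)) (.leaf (.cons .c .d .d .d 10000 .c 10000 .e 10000 .nil))) (.node (.leaf (.cons .b .d .d .e 10000 .d 10000 .e 10000 .nil)) (.leaf (.cons .b .d .d .e 10000 .d 10000 .e 10000 .nil)) .nil (.leaf (.cons .c .d .b .e 10000 .c 10000 .e 10000 .nil)) (.leaf (.cons .b .d .d .d 10000 .d 10000 .e 10000 (.cons .b .d .b .e 10000 .c 10000 .d 10000 .nil)))) .nil (.node (.leaf (.cons .c .d .c .e 10000 .c 10000 .e 10000 (.cons .b .d .d .e 10000 .c 10000 .d 10000 .nil))) (.leaf (.cons .c .d .c .e 10000 .c 10000 .e 10000 .nil)) (.leaf (.cons .b .d .c .e 10000 .d 10000 .e 10000 .nil)) (.leaf (.cons .c .d .c .e 10000 .c 10000 .e 10000 .nil)) .nil)) (.node (.node .nil (.leaf (.cons .c .d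 .d .e 10000 .c 10000 .e 10000 .nil)) (.leaf (.cons .c .d .d .d 10000 .c 10000 .e 10000 .nil)) (.leaf (.cons .c .d .d .e 10000 .c 10000 .e 10000 .nil)) (.leaf (.cons .c .d .d .d 10000 .c 10000 .e 10000 .nil))) (.node (.leaf (.cons .c .d .d .e 10000 .c 10000 .e 10000 .nil)) .nil (.leaf (.cons .c .d .d .d 10000 .c 10000 .e 10000 .nil)) (.leaf (.cons .c .d .d .e 10000 .c 10000 .e 10000 .nil)) (.leaf (.cons .c .d .d .d 10000 .c 10000 .e 10000 .nil))) (.node (.leaf (.cons .b .d .d .e 10000 .d 10000 .e 10000 .nil)) (.leaf (.cons .b .d .d .e 10000 .d 10000 .e 10000 .nil)) .nil (.leaf (.cons .c .d .b .e 10000 .c 10000 .e 10000 .nil)) (.leaf (.cons .b .d .d .d 10000 .d 10000 .e 10000 (.cons .b .d .b .e 10000 .c 10000 .d 10000 .nil)))) .nil (.node (.leaf (.cons .b .d .d .e 10000 .c 10000 .d 10000 .nil)) (.leaf (.cons .b .d .d .e 10000 .c 10000 .d 10000 .nil)) (.leaf (.cons .b .d .b .e 10000 .d 10000 .e 10000 .nil)) (.leaf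 (.cons .c .d .b .e 10000 .c 10000 .e 10000 .nil)) .nil)) (.node (.node .nil (.leaf (.cons .b .d .d .e 10000 .d 10000 .e 10000 .nil)) (.leaf (.cons .b .d .d .e 10000 .d 10000 .e 10000 .nil)) (.leaf (.cons .c .c .d .e 10000 .c 10000 .e 10000 .nil)) (.leaf (.cons .c .c .d .d 10000 .c 10000 .e 10000 .nil))) (.node (.leaf (.cons .c .c .d .e 10000 .c 10000 .e 10000 .nil)) .nil (.leaf (.cons .b .d .d .e 10000 .d 10000 .e 10000 .nil)) (.leaf (.cons .c .c .d .e 10000 .c 10000 .e 10000 .nil)) (.leaf (.cons .b .c .d .e 10000 .c 10000 .d 10000 .nil))) (.node (.leaf (.cons .b .d .d .e 10000 .d 10000 .e 10000 .nil)) (.leaf (.cons .b .d .d .e 10000 .d 10000 .e 10000 .nil)) .nil (.leaf (.cons .c .c .c .e 10000 .c 10000 .e 10000 .nil)) (.leaf (.cons .b .d .d .d 10000 .d 10000 .e 10000 (.cons .b .c .c .e 10000 .c 10000 .d 10000 .nil)))) .nil (.node (.leaf (.cons .c .c .c .e 10000 .c 10000 .e 10000 (.cons .b .c .d .e 10000 .c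 10000 .d 10000 .nil))) (.leaf (.cons .c .c .c .e 10000 .c 10000 .e 10000 .nil)) (.leaf (.cons .b .d .c .e 10000 .d 10000 .e 10000 .nil)) (.leaf (.cons .c .c .c .e 10000 .c 10000 .e 10000 .nil)) .nil)) .nil (.node (.node .nil (.leaf (.cons .b .d .d .e 10000 .c 10000 .d 10000 .nil)) (.leaf (.cons .b .c .d .e 10000 .d 10000 .e 10000 .nil)) (.leaf (.cons .c .c .d .e 10000 .c 10000 .e 10000 .nil)) (.leaf (.cons .b .d .d .e 10000 .c 10000 .d 10000 .nil))) (.node (.leaf (.cons .c .c .d .e 10000 .c 10000 .e 10000 .nil)) .nil (.leaf (.cons .b .c .d .e 10000 .d 10000 .e 10000 .nil)) (.leaf (.cons .c .c .d .e 10000 .c 10000 .e 10000 .nil)) (.leaf (.cons .b .d .d .e 10000 .c 10000 .d 10000 .nil))) (.node (.leaf (.cons .c .c .c .e 10000 .c 10000 .e 10000 (.cons .b .c .d .e 10000 .d 10000 .e 10000 .nil))) (.leaf (.cons .c .c .c .e 10000 .c 10000 .e 10000 .nil)) .nil (.leaf (.cons .c .c .c .e 10000 .c 10000 .e 10000 .nil))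 (.leaf (.cons .b .d .c .e 10000 .c 10000 .d 10000 .nil))) .nil (.node (.leaf (.cons .b .d .d .e 10000 .c 10000 .d 10000 .nil)) (.leaf (.cons .b .d .d .e 10000 .c 10000 .d 10000 .nil)) (.leaf (.cons .b .c .c .e 10000 .d 10000 .e 10000 .nil)) (.leaf (.cons .c .c .c .e 10000 .c 10000 .e 10000 .nil)) .nil))) (.node (.node (.node .nil (.leaf (.cons .c .d .d .e 10000 .c 10000 .d 10000 .nil)) (.leaf (.cons .c .d .d .d 10000 .c 10000 .d 10000 .nil)) (.leaf (.cons .c .d .d .d 10000 .c 10000 .d 10000 .nil)) (.leaf (.cons .c .d .d .e 10000 .c 10000 .d 10000 .nil))) (.node (.leaf (.cons .c .d .d .e 10000 .c 10000 .d 10000 .nil)) .nil (.leaf (.cons .c .d .d .d 10000 .c 10000 .d 10000 .nil)) (.leaf (.cons .c .d .d .d 10000 .c 10000 .d 10000 .nil)) (.leaf (.cons .c .d .d .e 10000 .c 10000 .d 10000 .nil))) (.node (.leaf (.cons .b .d .d .e 10000 .d 10000 .e 10000 .nil)) (.leaf (.cons .b .d .d .e 10000 .d 10000 .e 10000 .nil))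 .nil (.leaf (.cons .b .d .d .d 10000 .d 10000 .e 10000 (.cons .b .d .b .e 10000 .c 10000 .e 10000 .nil))) (.leaf (.cons .c .d .b .e 10000 .c 10000 .d 10000 .nil))) (.node (.leaf (.cons .c .d .c .e 10000 .c 10000 .d 10000 (.cons .b .d .d .e 10000 .c 10000 .e 10000 .nil))) (.leaf (.cons .c .d .c .e 10000 .c 10000 .d 10000 .nil)) (.leaf (.cons .b .d .c .e 10000 .d 10000 .e 10000 .nil)) .nil (.leaf (.cons .c .d .c .e 10000 .c 10000 .d 10000 .nil))) .nil) (.node (.node .nil (.leaf (.cons .c .d .d .e 10000 .c 10000 .d 10000 .nil)) (.leaf (.cons .c .d .d .d 10000 .c 10000 .d 10000 .nil)) (.leaf (.cons .c .d .d .d 10000 .c 10000 .d 10000 .nil)) (.leaf (.cons .c .d .d .e 10000 .c 10000 .d 10000 .nil))) (.node (.leaf (.cons .c .d .d .e 10000 .c 10000 .d 10000 .nil)) .nil (.leaf (.cons .c .d .d .d 10000 .c 10000 .d 10000 .nil)) (.leaf (.cons .c .d .d .d 10000 .c 10000 .d 10000 .nil)) (.leaf (.cons .c .d .d .e 10000 .c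 10000 .d 10000 .nil))) (.node (.leaf (.cons .b .d .d .e 10000 .d 10000 .e 10000 .nil)) (.leaf (.cons .b .d .d .e 10000 .d 10000 .e 10000 .nil)) .nil (.leaf (.cons .b .d .d .d 10000 .d 10000 .e 10000 (.cons .b .d .b .e 10000 .c 10000 .e 10000 .nil))) (.leaf (.cons .c .d .b .e 10000 .c 10000 .d 10000 .nil))) (.node (.leaf (.cons .b .d .d .e 10000 .c 10000 .e 10000 .nil)) (.leaf (.cons .b .d .d .e 10000 .c 10000 .e 10000 .nil)) (.leaf (.cons .b .d .d .d 10000 .c 10000 .e 10000 (.cons .b .d .a .e 10000 .d 10000 .e 10000 .nil))) .nil (.leaf (.cons .c .d .a .e 10000 .c 10000 .d 10000 .nil))) .nil) (.node (.node .nil (.leaf (.cons .b .d .d .e 10000 .d 10000 .e 10000 .nil)) (.leaf (.cons .b .d .d .e 10000 .d 10000 .e 10000 .nil)) (.leaf (.cons .c .c .d .d 10000 .c 10000 .d 10000 .nil)) (.leaf (.cons .c .c .d .e 10000 .c 10000 .d 10000 .nil))) (.node (.leaf (.cons .c .c .d .e 10000 .c 10000 .d 10000 .nil)) .nil (.leaf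 (.cons .b .d .d .e 10000 .d 10000 .e 10000 .nil)) (.leaf (.cons .b .c .d .e 10000 .c 10000 .e 10000 .nil)) (.leaf (.cons .c .c .d .e 10000 .c 10000 .d 10000 .nil))) (.node (.leaf (.cons .b .d .d .e 10000 .d 10000 .e 10000 .nil)) (.leaf (.cons .b .d .d .e 10000 .d 10000 .e 10000 .nil)) .nil (.leaf (.cons .b .c .c .e 10000 .c 10000 .e 10000 .nil)) (.leaf (.cons .c .c .c .e 10000 .c 10000 .d 10000 .nil))) .nil .nil) (.node (.node .nil (.leaf (.cons .b .d .d .e 10000 .c 10000 .e 10000 .nil)) (.leaf (.cons .b .c .d .e 10000 .d 10000 .e 10000 .nil)) (.leaf (.cons .b .d .d .e 10000 .c 10000 .e 10000 .nil)) (.leaf (.cons .c .c .d .e 10000 .c 10000 .d 10000 .nil))) (.node (.leaf (.cons .c .c .d .e 10000 .c 10000 .d 10000 .nil)) .nil (.leaf (.cons .b .c .d .e 10000 .d 10000 .e 10000 .nil)) (.leaf (.cons .b .d .d .e 10000 .c 10000 .e 10000 .nil)) (.leaf (.cons .c .c .d .e 10000 .c 10000 .d 10000 .nil))) (.node (.leaf (.cons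 .c .c .c .e 10000 .c 10000 .d 10000 (.cons .b .c .d .e 10000 .d 10000 .e 10000 .nil))) (.leaf (.cons .c .c .c .e 10000 .c 10000 .d 10000 .nil)) .nil (.leaf (.cons .b .d .c .e 10000 .c 10000 .e 10000 .nil)) (.leaf (.cons .c .c .c .e 10000 .c 10000 .d 10000 .nil))) (.node (.leaf (.cons .b .d .d .e 10000 .c 10000 .e 10000 .nil)) (.leaf (.cons .b .d .d .e 10000 .c 10000 .e 10000 .nil)) (.leaf (.cons .b .d .d .d 10000 .c 10000 .e 10000 (.cons .b .c .c .e 10000 .d 10000 .e 10000 .nil))) .nil (.leaf (.cons .c .c .c .e 10000 .c 10000 .d 10000 .nil))) .nil) .nil))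

def tbcab : Tr := (.node .nil (.node (.node (.node .nil (.leaf (.cons .c .d .d .e 10000 .d 10000 .e 10000 .nil)) (.leaf (.cons .c .d .d .e 10000 .d 10000 .e 10000 .nil)) (.leaf (.cons .c .d .d .d 10000 .d 10000 .e 10000 .nil)) .nil) .nil (.node (.leaf (.cons .c .d .d .e 10000 .d 10000 .e 10000 .nil)) (.leaf (.cons .c .d .d .e 10000 .d 10000 .e 10000 .nil)) .nil (.leaf (.cons .c .d .d .d 10000 .d 10000 .e 10000 .nil)) .nil) (.node (.leaf (.cons .c .d .c .e 10000 .d 10000 .e 10000 .nil)) (.leaf (.cons .c .d .c .e 10000 .d 10000 .e 10000 .nil)) (.leaf (.cons .c .d .c .e 10000 .d 10000 .e 10000 .nil)) .nil (.leaf (.cons .c .d .c .d 10000 .d 10000 .e 10000 .nil))) .nil) .nil (.node .nil .nil (.node (.leaf (.cons .c .d .d .e 10000 .d 10000 .e 10000 .nil)) (.leaf (.cons .c .d .d .e 10000 .d 10000 .e 10000 .nil)) .nil (.leaf (.cons .c .d .d .d 10000 .d 10000 .e 10000 .nil)) .nil) (.node (.leaf (.cons .c .d .c .e 10000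 .d 10000 .e 10000 .nil)) (.leaf (.cons .c .d .c .e 10000 .d 10000 .e 10000 .nil)) (.leaf (.cons .c .d .c .e 10000 .d 10000 .e 10000 .nil)) .nil (.leaf (.cons .c .d .c .d 10000 .d 10000 .e 10000 .nil))) .nil) (.node (.node .nil (.leaf (.cons .c .c .d .e 10000 .d 10000 .e 10000 .nil)) (.leaf (.cons .c .c .d .e 10000 .d 10000 .e 10000 .nil)) (.leaf (.cons .c .c .d .d 10000 .d 10000 .e 10000 .nil)) (.leaf (.cons .c .c .d .d 10000 .d 10000 .e 10000 .nil))) .nil (.node (.leaf (.cons .c .c .d .e 10000 .d 10000 .e 10000 .nil)) (.leaf (.cons .c .c .d .e 10000 .d 10000 .e 10000 .nil)) .nil (.leaf (.cons .c .c .d .d 10000 .d 10000 .e 10000 .nil)) (.leaf (.cons .c .c .d .d 10000 .d 10000 .e 10000 .nil))) (.node (.leaf (.cons .c .c .c .e 10000 .d 10000 .e 10000 .nil)) (.leaf (.cons .c .c .c .e 10000 .d 10000 .e 10000 .nil)) (.leaf (.cons .c .c .c .e 10000 .d 10000 .e 10000 .nil)) .nil (.leaf (.cons .c .c .c .d 10000 .d 10000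 .e 10000 .nil))) (.node (.leaf (.cons .c .c .c .e 10000 .d 10000 .e 10000 .nil)) (.leaf (.cons .c .c .c .e 10000 .d 10000 .e 10000 .nil)) (.leaf (.cons .c .c .c .e 10000 .d 10000 .e 10000 .nil)) (.leaf (.cons .c .c .c .d 10000 .d 10000 .e 10000 .nil)) .nil)) .nil) .nil (.node (.node (.node .nil (.leaf (.cons .b .d .d .e 10000 .d 10000 .e 10000 .nil)) (.leaf (.cons .b .d .d .e 10000 .d 10000 .e 10000 .nil)) (.leaf (.cons .b .d .d .d 10000 .d 10000 .e 10000 .nil)) (.leaf (.cons .b .d .d .d 10000 .d 10000 .e 10000 .nil))) .nil (.node (.leaf (.cons .b .d .d .e 10000 .d 10000 .e 10000 .nil)) (.leaf (.cons .b .d .d .e 10000 .d 10000 .e 10000 .nil)) .nil (.leaf (.cons .b .d .d .d 10000 .d 10000 .e 10000 .nil)) (.leaf (.cons .b .d .d .d 10000 .d 10000 .e 10000 .nil))) .nil (.node (.leaf (.cons .b .d .c .e 10000 .d 10000 .e 10000 .nil)) (.leaf (.cons .b .d .c .e 10000 .d 10000 .e 10000 .nil)) (.leaf (.cons .b .d .c .e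 10000 .d 10000 .e 10000 .nil)) (.leaf (.cons .b .d .c .d 10000 .d 10000 .e 10000 .nil)) .nil)) (.node (.node .nil (.leaf (.cons .b .d .d .e 10000 .d 10000 .e 10000 .nil)) (.leaf (.cons .b .d .d .e 10000 .d 10000 .e 10000 .nil)) (.leaf (.cons .b .d .d .d 10000 .d 10000 .e 10000 .nil)) (.leaf (.cons .b .d .d .d 10000 .d 10000 .e 10000 .nil))) (.node (.leaf (.cons .b .d .d .e 10000 .d 10000 .e 10000 .nil)) .nil (.leaf (.cons .b .d .d .e 10000 .d 10000 .e 10000 .nil)) (.leaf (.cons .b .d .d .d 10000 .d 10000 .e 10000 .nil)) (.leaf (.cons .b .d .d .d 10000 .d 10000 .e 10000 .nil))) (.node (.leaf (.cons .b .d .d .e 10000 .d 10000 .e 10000 .nil)) (.leaf (.cons .b .d .d .e 10000 .d 10000 .e 10000 .nil)) .nil (.leaf (.cons .b .d .d .d 10000 .d 10000 .e 10000 .nil)) (.leaf (.cons .b .d .d .d 10000 .d 10000 .e 10000 .nil))) .nil (.node (.leaf (.cons .b .d .b .e 10000 .d 10000 .e 10000 .nil)) (.leaf (.cons .b .d .b .e 10000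 .d 10000 .e 10000 .nil)) (.leaf (.cons .b .d .b .e 10000 .d 10000 .e 10000 .nil)) (.leaf (.cons .b .d .b .d 10000 .d 10000 .e 10000 .nil)) .nil)) (.node (.node .nil (.leaf (.cons .b .d .d .e 10000 .d 10000 .e 10000 .nil)) (.leaf (.cons .b .d .d .e 10000 .d 10000 .e 10000 .nil)) (.leaf (.cons .b .d .d .d 10000 .d 10000 .e 10000 .nil)) (.leaf (.cons .b .d .d .d 10000 .d 10000 .e 10000 .nil))) (.node (.leaf (.cons .b .d .d .e 10000 .d 10000 .e 10000 .nil)) .nil (.leaf (.cons .b .d .d .e 10000 .d 10000 .e 10000 .nil)) (.leaf (.cons .b .d .d .c 10000 .d 10000 .e 10000 .nil)) (.leaf (.cons .b .d .d .c 10000 .d 10000 .e 10000 .nil))) (.node (.leaf (.cons .b .d .d .e 10000 .d 10000 .e 10000 .nil)) (.leaf (.cons .b .d .d .e 10000 .d 10000 .e 10000 .nil)) .nil (.leaf (.cons .b .d .d .d 10000 .d 10000 .e 10000 .nil)) (.leaf (.cons .b .d .d .d 10000 .d 10000 .e 10000 .nil))) .nil (.node (.leaf (.cons .b .d .c .e 10000 .d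 10000 .e 10000 .nil)) (.leaf (.cons .b .d .c .e 10000 .d 10000 .e 10000 .nil)) (.leaf (.cons .b .d .c .e 10000 .d 10000 .e 10000 .nil)) (.leaf (.cons .b .d .c .d 10000 .d 10000 .e 10000 .nil)) .nil)) .nil (.node (.node .nil (.leaf (.cons .b .c .d .e 10000 .d 10000 .e 10000 .nil)) (.leaf (.cons .b .c .d .e 10000 .d 10000 .e 10000 .nil)) (.leaf (.cons .b .c .d .d 10000 .d 10000 .e 10000 .nil)) (.leaf (.cons .b .c .d .d 10000 .d 10000 .e 10000 .nil))) (.node (.leaf (.cons .b .c .d .e 10000 .d 10000 .e 10000 .nil)) .nil (.leaf (.cons .b .c .d .e 10000 .d 10000 .e 10000 .nil)) (.leaf (.cons .b .c .d .c 10000 .d 10000 .e 10000 .nil)) (.leaf (.cons .b .c .d .d 10000 .d 10000 .e 10000 .nil))) (.node (.leaf (.cons .b .c .d .e 10000 .d 10000 .e 10000 .nil)) (.leaf (.cons .b .c .d .e 10000 .d 10000 .e 10000 .nil)) .nil (.leaf (.cons .b .c .d .d 10000 .d 10000 .e 10000 .nil)) (.leaf (.cons .b .c .d .d 10000 .d 10000 .e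 10000 .nil))) .nil (.node (.leaf (.cons .b .c .c .e 10000 .d 10000 .e 10000 .nil)) (.leaf (.cons .b .c .c .e 10000 .d 10000 .e 10000 .nil)) (.leaf (.cons .b .c .c .e 10000 .d 10000 .e 10000 .nil)) (.leaf (.cons .b .c .c .d 10000 .d 10000 .e 10000 .nil)) .nil))) .nil)

def tbcac : Tr := (.node .nil (.node (.node (.node .nil (.leaf (.cons .c .d .d .e 10000 .d 10000 .e 10000 .nil)) (.leaf (.cons .c .d .d .e 10000 .d 10000 .e 10000 .nil)) (.leaf (.cons .c .d .d .d 10000 .d 10000 .e 10000 .nil)) .nil) .nil .nil (.node (.leaf (.cons .c .d .c .e 10000 .d 10000 .e 10000 .nil)) (.leaf (.cons .c .d .c .e 10000 .d 10000 .e 10000 .nil)) (.leaf (.cons .c .d .c .e 10000 .d 10000 .e 10000 .nil)) .nil (.leaf (.cons .c .d .c .d 10000 .d 10000 .e 10000 .nil))) .nil) .nil (.node .nil .nil (.node (.leaf (.cons .c .d .d .e 10000 .d 10000 .e 10000 .nil)) (.leaf (.cons .c .d .d .e 10000 .d 10000 .e 10000 .nil)) .nil (.leaf (.cons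 .c .d .d .d 10000 .d 10000 .e 10000 .nil)) .nil) (.node (.leaf (.cons .c .d .c .e 10000 .d 10000 .e 10000 .nil)) (.leaf (.cons .c .d .c .e 10000 .d 10000 .e 10000 .nil)) (.leaf (.cons .c .d .c .e 10000 .d 10000 .e 10000 .nil)) .nil (.leaf (.cons .c .d .c .d 10000 .d 10000 .e 10000 .nil))) .nil) (.node (.node .nil (.leaf (.cons .c .b .d .e 10000 .d 10000 .e 10000 .nil)) (.leaf (.cons .c .b .d .e 10000 .d 10000 .e 10000 .nil)) (.leaf (.cons .c .b .d .d 10000 .d 10000 .e 10000 .nil)) (.leaf (.cons .c .b .d .d 10000 .d 10000 .e 10000 .nil))) .nil (.node (.leaf (.cons .c .b .d .e 10000 .d 10000 .e 10000 .nil)) (.leaf (.cons .c .b .d .e 10000 .d 10000 .e 10000 .nil)) .nil (.leaf (.cons .c .b .d .d 10000 .d 10000 .e 10000 .nil)) (.leaf (.cons .c .b .d .d 10000 .d 10000 .e 10000 .nil))) (.node (.leaf (.cons .c .b .c .e 10000 .d 10000 .e 10000 .nil)) (.leaf (.cons .c .b .c .e 10000 .d 10000 .e 10000 .nil)) (.leaf (.cons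 .c .b .c .e 10000 .d 10000 .e 10000 .nil)) .nil (.leaf (.cons .c .b .c .d 10000 .d 10000 .e 10000 .nil))) (.node (.leaf (.cons .c .b .c .e 10000 .d 10000 .e 10000 .nil)) (.leaf (.cons .c .b .c .e 10000 .d 10000 .e 10000 .nil)) (.leaf (.cons .c .b .c .e 10000 .d 10000 .e 10000 .nil)) (.leaf (.cons .c .b .c .d 10000 .d 10000 .e 10000 .nil)) .nil)) .nil) (.node (.node (.node .nil .nil (.leaf (.cons .c .d .d .e 10000 .d 10000 .e 10000 .nil)) (.leaf (.cons .c .d .d .d 10000 .d 10000 .e 10000 .nil)) .nil) (.node (.leaf (.cons .c .d .d .e 10000 .d 10000 .e 10000 .nil)) .nil (.leaf (.cons .c .d .d .e 10000 .d 10000 .e 10000 .nil)) (.leaf (.cons .c .d .d .d 10000 .d 10000 .e 10000 .nil)) .nil) .nil (.node (.leaf (.cons .c .d .c .e 10000 .d 10000 .e 10000 .nil)) (.leaf (.cons .c .d .c .e 10000 .d 10000 .e 10000 .nil)) (.leaf (.cons .c .d .c .e 10000 .d 10000 .e 10000 .nil)) .nil (.leaf (.cons .c .d .c .d 10000 .d 10000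 .e 10000 .nil))) .nil) (.node (.node .nil (.leaf (.cons .c .d .d .e 10000 .d 10000 .e 10000 .nil)) (.leaf (.cons .c .d .d .e 10000 .d 10000 .e 10000 .nil)) (.leaf (.cons .c .d .d .d 10000 .d 10000 .e 10000 .nil)) .nil) (.node (.leaf (.cons .c .d .d .e 10000 .d 10000 .e 10000 .nil)) .nil .nil (.leaf (.cons .c .d .d .d 10000 .d 10000 .e 10000 .nil)) .nil) .nil (.node (.leaf (.cons .c .d .b .e 10000 .d 10000 .e 10000 .nil)) (.leaf (.cons .c .d .b .e 10000 .d 10000 .e 10000 .nil)) (.leaf (.cons .c .d .b .e 10000 .d 10000 .e 10000 .nil)) .nil (.leaf (.cons .c .d .b .d 10000 .d 10000 .e 10000 .nil))) .nil) .nil (.node (.node .nil (.leaf (.cons .c .c .d .e 10000 .d 10000 .e 10000 .nil)) (.leaf (.cons .c .c .d .e 10000 .d 10000 .e 10000 .nil)) (.leaf (.cons .c .c .d .d 10000 .d 10000 .e 10000 .nil)) (.leaf (.cons .c .c .d .d 10000 .d 10000 .e 10000 .nil))) (.node (.leaf (.cons .c .c .d .e 10000 .d 10000 .e 10000 .nil))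 .nil (.leaf (.cons .c .c .d .e 10000 .d 10000 .e 10000 .nil)) (.leaf (.cons .c .c .d .d 10000 .d 10000 .e 10000 .nil)) (.leaf (.cons .c .c .d .c 10000 .d 10000 .e 10000 .nil))) .nil (.node (.leaf (.cons .c .c .c .e 10000 .d 10000 .e 10000 .nil)) (.leaf (.cons .c .c .c .e 10000 .d 10000 .e 10000 .nil)) (.leaf (.cons .c .c .c .e 10000 .d 10000 .e 10000 .nil)) .nil (.leaf (.cons .c .c .c .d 10000 .d 10000 .e 10000 .nil))) (.node (.leaf (.cons .c .c .c .e 10000 .d 10000 .e 10000 .nil)) (.leaf (.cons .c .c .c .e 10000 .d 10000 .e 10000 .nil)) (.leaf (.cons .c .c .c .e 10000 .d 10000 .e 10000 .nil)) (.leaf (.cons .c .c .c .d 10000 .d 10000 .e 10000 .nil)) .nil)) .nil) (.node (.node (.node .nil (.leaf (.cons .b .d .d .e 10000 .d 10000 .e 10000 .nil)) (.leaf (.cons .b .d .d .e 10000 .d 10000 .e 10000 .nil)) (.leaf (.cons .b .d .d .d 10000 .d 10000 .e 10000 .nil)) (.leaf (.cons .b .d .d .d 10000 .d 10000 .e 10000 .nil)))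 (.node (.leaf (.cons .b .d .d .e 10000 .d 10000 .e 10000 .nil)) .nil (.leaf (.cons .b .d .d .e 10000 .d 10000 .e 10000 .nil)) (.leaf (.cons .b .d .d .d 10000 .d 10000 .e 10000 .nil)) (.leaf (.cons .b .d .d .d 10000 .d 10000 .e 10000 .nil))) .nil .nil (.node (.leaf (.cons .b .d .c .e 10000 .d 10000 .e 10000 .nil)) (.leaf (.cons .b .d .c .e 10000 .d 10000 .e 10000 .nil)) (.leaf (.cons .b .d .c .e 10000 .d 10000 .e 10000 .nil)) (.leaf (.cons .b .d .c .d 10000 .d 10000 .e 10000 .nil)) .nil)) (.node (.node .nil (.leaf (.cons .b .d .d .e 10000 .d 10000 .e 10000 .nil)) (.leaf (.cons .b .d .d .e 10000 .d 10000 .e 10000 .nil)) (.leaf (.cons .b .d .d .d 10000 .d 10000 .e 10000 .nil)) (.leaf (.cons .b .d .d .d 10000 .d 10000 .e 10000 .nil))) (.node (.leaf (.cons .b .d .d .e 10000 .d 10000 .e 10000 .nil)) .nil (.leaf (.cons .b .d .d .e 10000 .d 10000 .e 10000 .nil)) (.leaf (.cons .b .d .d .d 10000 .d 10000 .e 10000 .nil))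 (.leaf (.cons .b .d .d .d 10000 .d 10000 .e 10000 .nil))) (.node (.leaf (.cons .b .d .d .e 10000 .d 10000 .e 10000 .nil)) (.leaf (.cons .b .d .d .e 10000 .d 10000 .e 10000 .nil)) .nil (.leaf (.cons .b .d .d .c 10000 .d 10000 .e 10000 (.cons .a .d .d .d 10000 .d 10000 .e 10000 .nil))) (.leaf (.cons .b .d .d .d 10000 .d 10000 .e 10000 .nil))) .nil (.node (.leaf (.cons .b .d .b .e 10000 .d 10000 .e 10000 .nil)) (.leaf (.cons .b .d .b .e 10000 .d 10000 .e 10000 .nil)) (.leaf (.cons .b .d .b .e 10000 .d 10000 .e 10000 .nil)) (.leaf (.cons .b .d .b .d 10000 .d 10000 .e 10000 .nil)) .nil)) (.node (.node .nil (.leaf (.cons .b .d .d .e 10000 .d 10000 .e 10000 .nil)) (.leaf (.cons .b .d .d .e 10000 .d 10000 .e 10000 .nil)) (.leaf (.cons .b .d .d .d 10000 .d 10000 .e 10000 .nil)) (.leaf (.cons .b .d .d .d 10000 .d 10000 .e 10000 .nil))) (.node (.leaf (.cons .b .d .d .e 10000 .d 10000 .e 10000 .nil)) .nil (.leaf (.cons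 .b .d .d .e 10000 .d 10000 .e 10000 .nil)) (.leaf (.cons .b .d .d .c 10000 .d 10000 .e 10000 .nil)) (.leaf (.cons .b .d .d .c 10000 .d 10000 .e 10000 .nil))) (.node (.leaf (.cons .b .d .d .e 10000 .d 10000 .e 10000 .nil)) (.leaf (.cons .b .d .d .e 10000 .d 10000 .e 10000 .nil)) .nil (.leaf (.cons .b .d .d .d 10000 .d 10000 .e 10000 .nil)) (.leaf (.cons .b .d .d .d 10000 .d 10000 .e 10000 .nil))) .nil (.node (.leaf (.cons .b .d .c .e 10000 .d 10000 .e 10000 .nil)) (.leaf (.cons .b .d .c .e 10000 .d 10000 .e 10000 .nil)) (.leaf (.cons .b .d .c .e 10000 .d 10000 .e 10000 .nil)) (.leaf (.cons .b .d .c .d 10000 .d 10000 .e 10000 .nil)) .nil)) .nil (.node (.node .nil (.leaf (.cons .b .c .d .e 10000 .d 10000 .e 10000 .nil)) (.leaf (.cons .b .c .d .e 10000 .d 10000 .e 10000 .nil)) (.leaf (.cons .b .c .d .d 10000 .d 10000 .e 10000 .nil)) (.leaf (.cons .b .c .d .d 10000 .d 10000 .e 10000 .nil))) (.node (.leaf (.cons .b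 .c .d .e 10000 .d 10000 .e 10000 .nil)) .nil (.leaf (.cons .b .c .d .e 10000 .d 10000 .e 10000 .nil)) (.leaf (.cons .b .c .d .b 10000 .d 10000 .e 10000 .nil)) (.leaf (.cons .b .c .d .d 10000 .d 10000 .e 10000 .nil))) (.node (.leaf (.cons .b .c .d .e 10000 .d 10000 .e 10000 .nil)) (.leaf (.cons .b .c .d .e 10000 .d 10000 .e 10000 .nil)) .nil (.leaf (.cons .a .c .d .d 10000 .d 10000 .e 10000 .nil)) (.leaf (.cons .b .c .d .d 10000 .d 10000 .e 10000 .nil))) .nil (.node (.leaf (.cons .b .c .c .e 10000 .d 10000 .e 10000 .nil)) (.leaf (.cons .b .c .c .e 10000 .d 10000 .e 10000 .nil)) (.leaf (.cons .b .c .c .e 10000 .d 10000 .e 10000 .nil)) (.leaf (.cons .b .c .c .d 10000 .d 10000 .e 10000 .nil)) .nil))) .nil)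

def tbcad : Tr := (.node .nil (.node (.node (.node .nil (.leaf (.cons .c .d .d .e 10000 .d 10000 .e 10000 .nil)) (.leaf (.cons .c .d .d .e 10000 .d 10000 .e 10000 .nil)) (.leaf (.cons .c .d .d .d 10000 .d 10000 .e 10000 .nil)) (.leaf (.cons .c .d .d .d 10000 .d 10000 .e 10000 .nil))) .nil (.node (.leaf (.cons .c .d .d .e 10000 .d 10000 .e 10000 .nil)) (.leaf (.cons .c .d .d .e 10000 .d 10000 .e 10000 .nil)) .nil (.leaf (.cons .c .d .d .d 10000 .d 10000 .e 10000 .nil)) (.leaf (.cons .c .d .d .d 10000 .d 10000 .e 10000 .nil))) .nil (.node (.leaf (.cons .c .d .c .e 10000 .d 10000 .e 10000 .nil)) (.leaf (.cons .c .d .c .e 10000 .d 10000 .e 10000 .nil)) (.leaf (.cons .c .d .c .e 10000 .d 10000 .e 10000 .nil)) (.leaf (.cons .c .d .c .d 10000 .d 10000 .e 10000 .nil)) .nil)) .nil (.node .nil .nil (.node (.leaf (.cons .c .d .d .e 10000 .d 10000 .e 10000 .nil)) (.leaf (.cons .c .d .d .e 10000 .d 10000 .e 10000 .nil))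 .nil (.leaf (.cons .c .d .d .d 10000 .d 10000 .e 10000 .nil)) (.leaf (.cons .c .d .d .d 10000 .d 10000 .e 10000 .nil))) (.node (.leaf (.cons .c .d .c .e 10000 .d 10000 .e 10000 .nil)) (.leaf (.cons .c .d .c .e 10000 .d 10000 .e 10000 .nil)) (.leaf (.cons .c .d .c .e 10000 .d 10000 .e 10000 .nil)) .nil (.leaf (.cons .c .d .c .d 10000 .d 10000 .e 10000 .nil))) (.node (.leaf (.cons .c .d .c .e 10000 .d 10000 .e 10000 .nil)) (.leaf (.cons .c .d .c .e 10000 .d 10000 .e 10000 .nil)) (.leaf (.cons .c .d .c .e 10000 .d 10000 .e 10000 .nil)) (.leaf (.cons .c .d .c .d 10000 .d 10000 .e 10000 .nil)) .nil)) (.node (.node .nil (.leaf (.cons .c .c .d .e 10000 .d 10000 .e 10000 .nil)) (.leaf (.cons .c .c .d .e 10000 .d 10000 .e 10000 .nil)) (.leaf (.cons .c .c .d .d 10000 .d 10000 .e 10000 .nil)) (.leaf (.cons .c .c .d .d 10000 .d 10000 .e 10000 .nil))) .nil (.node (.leaf (.cons .c .c .d .e 10000 .d 10000 .e 10000 .nil)) (.leaf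 (.cons .c .c .d .e 10000 .d 10000 .e 10000 .nil)) .nil (.leaf (.cons .c .c .d .d 10000 .d 10000 .e 10000 .nil)) (.leaf (.cons .c .c .d .d 10000 .d 10000 .e 10000 .nil))) (.node (.leaf (.cons .c .c .c .e 10000 .d 10000 .e 10000 .nil)) (.leaf (.cons .c .c .c .e 10000 .d 10000 .e 10000 .nil)) (.leaf (.cons .c .c .c .e 10000 .d 10000 .e 10000 .nil)) .nil (.leaf (.cons .c .c .c .d 10000 .d 10000 .e 10000 .nil))) (.node (.leaf (.cons .c .c .c .e 10000 .d 10000 .e 10000 .nil)) (.leaf (.cons .c .c .c .e 10000 .d 10000 .e 10000 .nil)) (.leaf (.cons .c .c .c .e 10000 .d 10000 .e 10000 .nil)) (.leaf (.cons .c .c .c .d 10000 .d 10000 .e 10000 .nil)) .nil)) (.node (.node .nil (.leaf (.cons .c .b .d .e 10000 .d 10000 .e 10000 .nil)) (.leaf (.cons .c .b .d .e 10000 .d 10000 .e 10000 .nil)) (.leaf (.cons .c .b .d .d 10000 .d 10000 .e 10000 .nil)) (.leaf (.cons .c .b .d .d 10000 .d 10000 .e 10000 .nil))) .nil (.node (.leaf (.cons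 .c .b .d .e 10000 .d 10000 .e 10000 .nil)) (.leaf (.cons .c .b .d .e 10000 .d 10000 .e 10000 .nil)) .nil (.leaf (.cons .c .b .d .d 10000 .d 10000 .e 10000 .nil)) (.leaf (.cons .c .b .d .d 10000 .d 10000 .e 10000 .nil))) (.node (.leaf (.cons .c .b .c .e 10000 .d 10000 .e 10000 .nil)) (.leaf (.cons .c .b .c .e 10000 .d 10000 .e 10000 .nil)) (.leaf (.cons .c .b .c .e 10000 .d 10000 .e 10000 .nil)) .nil (.leaf (.cons .c .b .c .d 10000 .d 10000 .e 10000 .nil))) (.node (.leaf (.cons .c .b .c .e 10000 .d 10000 .e 10000 .nil)) (.leaf (.cons .c .b .c .e 10000 .d 10000 .e 10000 .nil)) (.leaf (.cons .c .b .c .e 10000 .d 10000 .e 10000 .nil)) (.leaf (.cons .c .b .c .d 10000 .d 10000 .e 10000 .nil)) .nil))) (.node (.node (.node .nil (.leaf (.cons .c .d .d .e 10000 .d 9600 .e 10000 .nil)) (.leaf (.cons .c .d .d .e 10000 .d 9600 .e 10000 .nil)) (.leaf (.cons .c .d .d .d 10000 .d 9600 .e 10000 .nil)) (.leaf (.cons .c .d .d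 .d 10000 .d 9600 .e 10000 .nil))) (.node (.leaf (.cons .c .d .d .e 10000 .d 9600 .e 10000 .nil)) .nil (.leaf (.cons .c .d .d .e 10000 .d 9600 .e 10000 .nil)) (.leaf (.cons .c .d .d .d 10000 .d 9600 .e 10000 .nil)) (.leaf (.cons .c .d .d .d 10000 .d 9600 .e 10000 .nil))) .nil .nil (.node (.leaf (.cons .c .d .c .e 10000 .d 9600 .e 10000 .nil)) (.leaf (.cons .c .d .c .e 10000 .d 9600 .e 10000 .nil)) (.leaf (.cons .c .d .c .e 10000 .d 9600 .e 10000 .nil)) (.leaf (.cons .c .d .c .d 10000 .d 9514 .e 10000 .nil)) .nil)) (.node (.node .nil (.leaf (.cons .c .d .d .e 10000 .d 9600 .e 10000 .nil)) (.leaf (.cons .c .d .d .e 10000 .d 9600 .e 10000 .nil)) (.leaf (.cons .c .d .d .d 10000 .d 9600 .e 10000 .nil)) (.leaf (.cons .c .d .d .d 10000 .d 9600 .e 10000 .nil))) (.node (.leaf (.cons .c .d .d .e 10000 .d 9600 .e 10000 .nil)) .nil (.leaf (.cons .c .d .d .e 10000 .d 9600 .e 10000 .nil)) (.leaf (.cons .c .d .d .d 10000 .d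 9600 .e 10000 .nil)) (.leaf (.cons .c .d .d .d 10000 .d 9600 .e 10000 .nil))) .nil (.node (.leaf (.cons .c .d .b .e 8755 .d 7347 .e 10000 (.cons .c .d .c .e 7347 .d 5000 .e 10000 (.cons .c .d .d .e 5000 .e 10000 .e 0 (.cons .c .d .a .e 9600 .d 8755 .e 10000 .nil))))) (.leaf (.cons .c .d .a .e 9600 .d 8755 .e 10000 .nil)) (.leaf (.cons .c .d .a .e 9600 .d 8755 .e 10000 .nil)) .nil (.leaf (.cons .c .d .a .d 9600 .d 8755 .e 10000 .nil))) (.node (.leaf (.cons .c .d .b .e 10000 .d 9600 .e 10000 (.cons .c .d .c .e 7107 .d 9600 .e 5000 .nil))) (.leaf (.cons .c .d .b .e 10000 .d 9600 .e 10000 .nil)) (.leaf (.cons .c .d .b .e 10000 .d 9600 .e 10000 .nil)) (.leaf (.cons .c .d .b .d 10000 .d 9514 .e 10000 .nil)) .nil)) .nil (.node (.node .nil (.leaf (.cons .c .c .d .e 10000 .d 9600 .e 10000 .nil)) (.leaf (.cons .c .c .d .e 10000 .d 9600 .e 10000 .nil)) (.leaf (.cons .c .c .d .d 10000 .d 9600 .e 10000 .nil)) (.leaf (.cons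 .c .c .d .d 10000 .d 9600 .e 10000 .nil))) (.node (.leaf (.cons .c .c .d .e 10000 .d 9600 .e 10000 .nil)) .nil (.leaf (.cons .c .c .d .e 10000 .d 9600 .e 10000 .nil)) (.leaf (.cons .c .c .d .d 10000 .d 9600 .e 10000 .nil)) (.leaf (.cons .c .c .d .c 10000 .d 9600 .e 10000 .nil))) .nil (.node (.leaf (.cons .c .c .c .e 10000 .d 9600 .e 10000 .nil)) (.leaf (.cons .c .c .c .e 10000 .d 9600 .e 10000 .nil)) (.leaf (.cons .c .c .c .e 10000 .d 9600 .e 10000 .nil)) .nil (.leaf (.cons .c .c .c .d 10000 .d 9600 .e 10000 .nil))) (.node (.leaf (.cons .c .c .c .e 10000 .d 9600 .e 10000 .nil)) (.leaf (.cons .c .c .c .e 10000 .d 9600 .e 10000 .nil)) (.leaf (.cons .c .c .c .e 10000 .d 9600 .e 10000 .nil)) (.leaf (.cons .c .c .c .d 10000 .d 9600 .e 10000 .nil)) .nil)) (.node (.node .nil (.leaf (.cons .c .c .d .e 10000 .d 9600 .e 10000 .nil)) (.leaf (.cons .c .c .d .e 10000 .d 9600 .e 10000 .nil)) (.leaf (.cons .c .c .d .d 10000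 .d 9600 .e 10000 .nil)) (.leaf (.cons .c .c .d .d 10000 .d 9600 .e 10000 .nil))) (.node (.leaf (.cons .c .c .d .e 10000 .d 9600 .e 10000 .nil)) .nil (.leaf (.cons .c .c .d .e 10000 .d 9600 .e 10000 .nil)) (.leaf (.cons .c .c .d .c 10000 .d 9600 .e 10000 .nil)) (.leaf (.cons .c .c .d .d 10000 .d 9600 .e 10000 .nil))) .nil (.node (.leaf (.cons .c .c .c .e 10000 .d 9600 .e 10000 (.cons .c .c .d .e 5000 .e 10000 .e 0 .nil))) (.leaf (.cons .c .c .c .e 10000 .d 9600 .e 10000 .nil)) (.leaf (.cons .c .c .c .e 10000 .d 9600 .e 10000 .nil)) .nil (.leaf (.cons .c .c .c .d 10000 .d 9600 .e 10000 .nil))) (.node (.leaf (.cons .c .c .c .e 10000 .d 9600 .e 10000 .nil)) (.leaf (.cons .c .c .c .e 10000 .d 9600 .e 10000 .nil)) (.leaf (.cons .c .c .c .e 10000 .d 9600 .e 10000 .nil)) (.leaf (.cons .c .c .c .d 10000 .d 9600 .e 10000 .nil)) .nil))) (.node (.node (.node .nil (.leaf (.cons .b .d .d .e 10000 .d 10000 .e 10000 .nil))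 (.leaf (.cons .b .d .d .e 10000 .d 10000 .e 10000 .nil)) (.leaf (.cons .b .d .d .d 10000 .d 10000 .e 10000 .nil)) (.leaf (.cons .b .d .d .d 10000 .d 10000 .e 10000 .nil))) (.node (.leaf (.cons .b .d .d .e 10000 .d 10000 .e 10000 .nil)) .nil (.leaf (.cons .b .d .d .e 10000 .d 10000 .e 10000 .nil)) (.leaf (.cons .b .d .d .d 10000 .d 10000 .e 10000 .nil)) (.leaf (.cons .b .d .d .d 10000 .d 10000 .e 10000 .nil))) (.node (.leaf (.cons .b .d .d .e 10000 .d 10000 .e 10000 .nil)) (.leaf (.cons .b .d .d .e 10000 .d 10000 .e 10000 .nil)) .nil (.leaf (.cons .b .d .d .d 10000 .d 10000 .e 10000 .nil)) (.leaf (.cons .b .d .d .d 10000 .d 10000 .e 10000 .nil))) .nil (.node (.leaf (.cons .b .d .c .e 10000 .d 10000 .e 10000 .nil)) (.leaf (.cons .b .d .c .e 10000 .d 10000 .e 10000 .nil)) (.leaf (.cons .b .d .c .e 10000 .d 10000 .e 10000 .nil)) (.leaf (.cons .b .d .c .d 10000 .d 10000 .e 10000 .nil)) .nil)) (.node (.node .nil (.leaf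 (.cons .b .d .d .e 10000 .d 10000 .e 10000 .nil)) (.leaf (.cons .b .d .d .e 10000 .d 10000 .e 10000 .nil)) (.leaf (.cons .b .d .d .d 10000 .d 10000 .e 10000 .nil)) (.leaf (.cons .b .d .d .d 10000 .d 10000 .e 10000 .nil))) (.node (.leaf (.cons .b .d .d .e 10000 .d 10000 .e 10000 .nil)) .nil (.leaf (.cons .b .d .d .e 10000 .d 10000 .e 10000 .nil)) (.leaf (.cons .b .d .d .d 10000 .d 10000 .e 10000 .nil)) (.leaf (.cons .b .d .d .d 10000 .d 10000 .e 10000 .nil))) (.node (.leaf (.cons .b .d .d .e 10000 .d 10000 .e 10000 .nil)) (.leaf (.cons .b .d .d .e 10000 .d 10000 .e 10000 .nil)) .nil (.leaf (.cons .b .d .d .d 10000 .d 10000 .e 10000 .nil)) (.leaf (.cons .b .d .d .d 10000 .d 10000 .e 10000 .nil))) .nil (.node (.leaf (.cons .b .d .b .e 10000 .d 10000 .e 10000 .nil)) (.leaf (.cons .b .d .b .e 10000 .d 10000 .e 10000 .nil)) (.leaf (.cons .b .d .b .e 10000 .d 10000 .e 10000 .nil)) (.leaf (.cons .b .d .b .d 10000 .d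 10000 .e 10000 .nil)) .nil)) (.node (.node .nil (.leaf (.cons .b .d .d .e 10000 .d 10000 .e 10000 .nil)) (.leaf (.cons .b .d .d .e 10000 .d 10000 .e 10000 .nil)) (.leaf (.cons .b .d .d .d 10000 .d 10000 .e 10000 .nil)) (.leaf (.cons .b .d .d .d 10000 .d 10000 .e 10000 .nil))) (.node (.leaf (.cons .b .d .d .e 10000 .d 10000 .e 10000 .nil)) .nil (.leaf (.cons .b .d .d .e 10000 .d 10000 .e 10000 .nil)) (.leaf (.cons .b .d .d .c 10000 .d 10000 .e 10000 .nil)) (.leaf (.cons .b .d .d .c 10000 .d 10000 .e 10000 .nil))) (.node (.leaf (.cons .b .d .d .e 10000 .d 10000 .e 10000 .nil)) (.leaf (.cons .b .d .d .e 10000 .d 10000 .e 10000 .nil)) .nil (.leaf (.cons .b .d .d .d 10000 .d 10000 .e 10000 .nil)) (.leaf (.cons .b .d .d .d 10000 .d 10000 .e 10000 .nil))) .nil (.node (.leaf (.cons .b .d .c .e 10000 .d 10000 .e 10000 .nil)) (.leaf (.cons .b .d .c .e 10000 .d 10000 .e 10000 .nil)) (.leaf (.cons .b .d .c .e 10000 .d 10000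 .e 10000 .nil)) (.leaf (.cons .b .d .c .d 10000 .d 10000 .e 10000 .nil)) .nil)) .nil (.node (.node .nil (.leaf (.cons .b .c .d .e 10000 .d 10000 .e 10000 .nil)) (.leaf (.cons .b .c .d .e 10000 .d 10000 .e 10000 .nil)) (.leaf (.cons .b .c .d .d 10000 .d 10000 .e 10000 .nil)) (.leaf (.cons .b .c .d .d 10000 .d 10000 .e 10000 .nil))) (.node (.leaf (.cons .b .c .d .e 10000 .d 10000 .e 10000 .nil)) .nil (.leaf (.cons .b .c .d .e 10000 .d 10000 .e 10000 .nil)) (.leaf (.cons .b .c .d .c 10000 .d 10000 .e 10000 .nil)) (.leaf (.cons .b .c .d .d 10000 .d 10000 .e 10000 .nil))) (.node (.leaf (.cons .b .c .d .e 10000 .d 10000 .e 10000 .nil)) (.leaf (.cons .b .c .d .e 10000 .d 10000 .e 10000 .nil)) .nil (.leaf (.cons .b .c .d .d 10000 .d 10000 .e 10000 .nil)) (.leaf (.cons .b .c .d .d 10000 .d 10000 .e 10000 .nil))) .nil (.node (.leaf (.cons .b .c .c .e 10000 .d 10000 .e 10000 .nil)) (.leaf (.cons .b .c .c .e 10000 .d 10000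 .e 10000 .nil)) (.leaf (.cons .b .c .c .e 10000 .d 10000 .e 10000 .nil)) (.leaf (.cons .b .c .c .d 10000 .d 10000 .e 10000 .nil)) .nil))) (.node (.node (.node .nil (.leaf (.cons .b .d .d .e 10000 .d 10000 .e 10000 .nil)) (.leaf (.cons .b .d .d .e 10000 .d 10000 .e 10000 .nil)) (.leaf (.cons .b .d .d .d 10000 .d 10000 .e 10000 .nil)) (.leaf (.cons .b .d .d .d 10000 .d 10000 .e 10000 .nil))) (.node (.leaf (.cons .b .d .d .e 10000 .d 10000 .e 10000 .nil)) .nil (.leaf (.cons .b .d .d .e 10000 .d 10000 .e 10000 .nil)) (.leaf (.cons .b .d .d .d 10000 .d 10000 .e 10000 .nil)) (.leaf (.cons .b .d .d .d 10000 .d 10000 .e 10000 .nil))) (.node (.leaf (.cons .b .d .d .e 10000 .d 10000 .e 10000 .nil)) (.leaf (.cons .b .d .d .e 10000 .d 10000 .e 10000 .nil)) .nil (.leaf (.cons .b .d .d .d 10000 .d 10000 .e 10000 .nil)) (.leaf (.cons .b .d .d .d 10000 .d 10000 .e 10000 .nil))) .nil .nil) (.node (.node .nil (.leaf (.cons .b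 .d .d .e 10000 .d 10000 .e 10000 .nil)) (.leaf (.cons .b .d .d .e 10000 .d 10000 .e 10000 .nil)) (.leaf (.cons .b .d .d .d 10000 .d 10000 .e 10000 .nil)) (.leaf (.cons .b .d .d .d 10000 .d 10000 .e 10000 .nil))) (.node (.leaf (.cons .b .d .d .e 10000 .d 10000 .e 10000 .nil)) .nil (.leaf (.cons .b .d .d .e 10000 .d 10000 .e 10000 .nil)) (.leaf (.cons .b .d .d .d 10000 .d 10000 .e 10000 .nil)) (.leaf (.cons .b .d .d .d 10000 .d 10000 .e 10000 .nil))) (.node (.leaf (.cons .b .d .d .e 10000 .d 10000 .e 10000 .nil)) (.leaf (.cons .b .d .d .e 10000 .d 10000 .e 10000 .nil)) .nil (.leaf (.cons .b .d .d .d 10000 .d 10000 .e 10000 .nil)) (.leaf (.cons .b .d .d .d 10000 .d 10000 .e 10000 .nil))) (.node (.leaf (.cons .b .d .a .e 10000 .d 10000 .e 10000 (.cons .b .d .b .e 8611 .d 7107 .e 10000 .nil))) (.leaf (.cons .b .d .a .e 10000 .d 10000 .e 10000 .nil)) (.leaf (.cons .b .d .a .e 10000 .d 10000 .e 10000 .nil)) .nil (.leaf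 (.cons .b .d .a .c 10000 .d 10000 .e 10000 (.cons .a .d .a .d 10000 .d 10000 .e 10000 .nil)))) .nil) (.node (.node .nil (.leaf (.cons .b .d .d .e 10000 .d 10000 .e 10000 .nil)) (.leaf (.cons .b .d .d .e 10000 .d 10000 .e 10000 .nil)) (.leaf (.cons .b .d .d .d 10000 .d 10000 .e 10000 .nil)) (.leaf (.cons .b .d .d .d 10000 .d 10000 .e 10000 .nil))) (.node (.leaf (.cons .b .d .d .e 10000 .d 10000 .e 10000 .nil)) .nil (.leaf (.cons .b .d .d .e 10000 .d 10000 .e 10000 .nil)) (.leaf (.cons .b .d .d .c 10000 .d 10000 .e 10000 .nil)) (.leaf (.cons .b .d .d .b 10000 .d 10000 .e 10000 .nil))) (.node (.leaf (.cons .b .d .d .e 10000 .d 10000 .e 10000 .nil)) (.leaf (.cons .b .d .d .e 10000 .d 10000 .e 10000 .nil)) .nil (.leaf (.cons .b .d .d .d 10000 .d 10000 .e 10000 .nil)) (.leaf (.cons .b .d .d .d 10000 .d 10000 .e 10000 .nil))) (.node (.leaf (.cons .b .d .c .e 10000 .d 10000 .e 10000 .nil)) (.leaf (.cons .b .d .c .e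 10000 .d 10000 .e 10000 .nil)) (.leaf (.cons .b .d .c .e 10000 .d 10000 .e 10000 .nil)) .nil (.leaf (.cons .a .d .c .d 10000 .d 10000 .e 10000 .nil))) .nil) (.node (.node .nil (.leaf (.cons .b .c .d .e 10000 .d 10000 .e 10000 .nil)) (.leaf (.cons .b .c .d .e 10000 .d 10000 .e 10000 .nil)) (.leaf (.cons .b .c .d .d 10000 .d 10000 .e 10000 .nil)) (.leaf (.cons .b .c .d .d 10000 .d 10000 .e 10000 .nil))) (.node (.leaf (.cons .b .c .d .e 10000 .d 10000 .e 10000 .nil)) .nil (.leaf (.cons .b .c .d .e 10000 .d 10000 .e 10000 .nil)) (.leaf (.cons .b .c .d .d 10000 .d 10000 .e 10000 .nil)) (.leaf (.cons .b .c .d .c 10000 .d 10000 .e 10000 .nil))) (.node (.leaf (.cons .b .c .d .e 10000 .d 10000 .e 10000 .nil)) (.leaf (.cons .b .c .d .e 10000 .d 10000 .e 10000 .nil)) .nil (.leaf (.cons .b .c .d .d 10000 .d 10000 .e 10000 .nil)) (.leaf (.cons .b .c .d .d 10000 .d 10000 .e 10000 .nil))) (.node (.leaf (.cons .b .c .c .e 10000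 .d 10000 .e 10000 .nil)) (.leaf (.cons .b .c .c .e 10000 .d 10000 .e 10000 .nil)) (.leaf (.cons .b .c .c .e 10000 .d 10000 .e 10000 .nil)) .nil (.leaf (.cons .b .c .c .d 10000 .d 10000 .e 10000 .nil))) .nil) .nil))

def tbcca : Tr := (.node (.node .nil (.node .nil .nil (.node (.leaf (.cons .c .d .d .e 10000 .d 10000 .e 10000 .nil)) .nil .nil (.leaf (.cons .c .d .c .e 10000 .c 10000 .e 10000 .nil)) .nil) (.node (.leaf (.cons .c .d .d .e 10000 .c 10000 .e 10000 .nil)) .nil (.leaf (.cons .c .d .d .d 10000 .c 10000 .e 10000 (.cons .c .d .c .e 10000 .d 10000 .e 10000 .nil))) .nil (.leaf (.cons .c .d .d .d 10000 .c 10000 .e 10000 (.cons .c .d .c .e 10000 .c 10000 .d 10000 .nil)))) .nil) (.node .nil .nil (.node (.leaf (.cons .c .d .d .e 10000 .d 10000 .e 10000 .nil)) .nil .nil (.leaf (.cons .c .c .c .e 10000 .c 10000 .e 10000 .nil)) .nil) (.node (.leaf (.cons .c .c .d .e 10000 .c 10000 .e 10000 .nil)) .nil (.leaf (.cons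 .c .d .c .e 10000 .d 10000 .e 10000 .nil)) .nil (.leaf (.cons .c .c .c .e 10000 .c 10000 .d 10000 .nil))) .nil) (.node .nil .nil (.node (.leaf (.cons .c .d .c .e 10000 .c 10000 .e 10000 .nil)) .nil .nil (.leaf (.cons .c .d .c .e 10000 .c 10000 .e 10000 .nil)) (.leaf (.cons .c .d .c .d 10000 .c 10000 .e 10000 (.cons .c .c .c .e 10000 .c 10000 .d 10000 .nil)))) (.node (.leaf (.cons .c .d .d .e 10000 .c 10000 .e 10000 .nil)) .nil (.leaf (.cons .c .d .d .d 10000 .c 10000 .e 10000 (.cons .c .c .c .e 10000 .d 10000 .e 10000 .nil))) .nil (.leaf (.cons .c .c .c .e 10000 .c 10000 .d 10000 .nil))) (.node (.leaf (.cons .c .c .d .e 10000 .c 10000 .d 10000 .nil)) .nil (.leaf (.cons .c .d .c .d 10000 .c 10000 .e 10000 (.cons .c .c .c .e 10000 .d 10000 .e 10000 .nil))) (.leaf (.cons .c .d .c .e 10000 .c 10000 .e 10000 .nil)) .nil)) .nil) (.node (.node (.node .nil (.leaf (.cons .c .d .d .e 10000 .d 10000 .e 10000 .nil)) (.leaf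 (.cons .c .d .d .e 10000 .d 10000 .e 10000 .nil)) (.leaf (.cons .c .d .d .d 10000 .d 10000 .e 10000 .nil)) .nil) .nil (.node (.leaf (.cons .c .d .d .e 10000 .d 10000 .e 10000 .nil)) .nil .nil (.leaf (.cons .c .d .d .d 10000 .d 10000 .e 10000 .nil)) .nil) (.node (.leaf (.cons .c .d .c .e 10000 .d 10000 .e 10000 .nil)) (.leaf (.cons .c .d .c .e 10000 .d 10000 .e 10000 .nil)) (.leaf (.cons .c .d .c .e 10000 .d 10000 .e 10000 .nil)) .nil (.leaf (.cons .c .d .c .d 10000 .d 10000 .e 10000 .nil))) .nil) .nil (.node .nil .nil .nil (.node (.leaf (.cons .c .d .c .e 10000 .d 10000 .e 10000 .nil)) (.leaf (.cons .c .d .c .e 10000 .d 10000 .e 10000 .nil)) (.leaf (.cons .c .d .c .e 10000 .d 10000 .e 10000 .nil)) .nil (.leaf (.cons .c .d .c .d 10000 .d 10000 .e 10000 .nil))) .nil) (.node (.node .nil .nil (.leaf (.cons .c .c .d .e 10000 .d 10000 .e 10000 .nil)) (.leaf (.cons .c .c .d .d 10000 .d 10000 .e 10000 .nil)) (.leaf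 (.cons .c .c .d .d 10000 .d 10000 .e 10000 .nil))) .nil (.node (.leaf (.cons .c .c .d .e 10000 .d 10000 .e 10000 .nil)) .nil .nil (.leaf (.cons .c .c .d .d 10000 .d 10000 .e 10000 .nil)) (.leaf (.cons .c .c .d .d 10000 .d 10000 .e 10000 .nil))) (.node (.leaf (.cons .c .c .c .e 10000 .d 10000 .e 10000 .nil)) (.leaf (.cons .c .c .c .e 10000 .d 10000 .e 10000 .nil)) (.leaf (.cons .c .c .c .e 10000 .d 10000 .e 10000 .nil)) .nil (.leaf (.cons .c .c .c .d 10000 .d 10000 .e 10000 .nil))) (.node (.leaf (.cons .c .c .c .e 10000 .d 10000 .e 10000 .nil)) (.leaf (.cons .c .c .c .e 10000 .d 10000 .e 10000 .nil)) (.leaf (.cons .c .c .c .e 10000 .d 10000 .e 10000 .nil)) (.leaf (.cons .c .c .c .d 10000 .d 10000 .e 10000 .nil)) .nil)) .nil) .nil (.node (.node (.node .nil (.leaf (.cons .c .d .d .e 10000 .c 10000 .e 10000 .nil)) (.leaf (.cons .c .d .d .d 10000 .c 10000 .e 10000 .nil)) (.leaf (.cons .c .d .d .e 10000 .c 10000 .e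 10000 .nil)) (.leaf (.cons .c .d .d .d 10000 .c 10000 .e 10000 .nil))) (.node (.leaf (.cons .c .d .d .e 10000 .c 10000 .e 10000 .nil)) .nil .nil .nil .nil) (.node (.leaf (.cons .c .d .c .e 10000 .c 10000 .e 10000 .nil)) .nil .nil (.leaf (.cons .c .d .c .e 10000 .c 10000 .e 10000 .nil)) (.leaf (.cons .c .d .c .d 10000 .c 10000 .e 10000 (.cons .b .d .c .e 10000 .c 10000 .d 10000 .nil)))) .nil (.node (.leaf (.cons .c .d .c .e 10000 .c 10000 .e 10000 (.cons .b .d .d .e 10000 .c 10000 .d 10000 .nil))) (.leaf (.cons .c .d .c .e 10000 .c 10000 .e 10000 .nil)) (.leaf (.cons .b .d .c .e 10000 .d 10000 .e 10000 .nil)) (.leaf (.cons .c .d .c .e 10000 .c 10000 .e 10000 .nil)) .nil)) (.node (.node .nil (.leaf (.cons .c .d .d .e 10000 .c 10000 .e 10000 .nil)) (.leaf (.cons .c .d .d .d 10000 .c 10000 .e 10000 .nil)) (.leaf (.cons .c .d .d .e 10000 .c 10000 .e 10000 .nil)) (.leaf (.cons .c .d .d .d 10000 .c 10000 .e 10000 .nil)))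 (.node (.leaf (.cons .c .d .d .e 10000 .c 10000 .e 10000 .nil)) .nil .nil .nil .nil) (.node (.leaf (.cons .b .d .d .e 10000 .d 10000 .e 10000 .nil)) .nil .nil (.leaf (.cons .c .d .b .e 10000 .c 10000 .e 10000 .nil)) (.leaf (.cons .b .d .b .e 10000 .c 10000 .d 10000 .nil))) .nil (.node (.leaf (.cons .b .d .d .e 10000 .c 10000 .d 10000 .nil)) (.leaf (.cons .b .d .d .e 10000 .c 10000 .d 10000 .nil)) (.leaf (.cons .b .d .d .d 10000 .c 10000 .d 10000 (.cons .b .d .b .e 10000 .d 10000 .e 10000 .nil))) (.leaf (.cons .c .d .b .e 10000 .c 10000 .e 10000 .nil)) .nil)) (.node .nil (.node (.leaf (.cons .c .c .d .e 10000 .c 10000 .e 10000 .nil)) .nil .nil .nil .nil) (.node (.leaf (.cons .b .d .d .e 10000 .d 10000 .e 10000 .nil)) (.leaf (.cons .b .d .d .e 10000 .d 10000 .e 10000 .nil)) .nil (.leaf (.cons .c .c .c .e 10000 .c 10000 .e 10000 .nil)) (.leaf (.cons .b .d .d .d 10000 .d 10000 .e 10000 (.cons .b .c .c .e 10000 .c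 10000 .d 10000 .nil)))) .nil (.node (.leaf (.cons .c .c .c .e 10000 .c 10000 .e 10000 (.cons .b .c .d .e 10000 .c 10000 .d 10000 .nil))) (.leaf (.cons .c .c .c .e 10000 .c 10000 .e 10000 .nil)) (.leaf (.cons .b .d .c .e 10000 .d 10000 .e 10000 .nil)) (.leaf (.cons .c .c .c .e 10000 .c 10000 .e 10000 .nil)) .nil)) .nil (.node (.node .nil (.leaf (.cons .b .d .d .e 10000 .c 10000 .d 10000 .nil)) (.leaf (.cons .c .c .d .d 10000 .c 10000 .e 10000 .nil)) (.leaf (.cons .c .c .d .e 10000 .c 10000 .e 10000 .nil)) (.leaf (.cons .b .d .d .e 10000 .c 10000 .d 10000 .nil))) (.node (.leaf (.cons .c .c .d .e 10000 .c 10000 .e 10000 .nil)) .nil .nil .nil .nil) (.node (.leaf (.cons .c .c .c .e 10000 .c 10000 .e 10000 .nil)) .nil .nil (.leaf (.cons .c .c .c .e 10000 .c 10000 .e 10000 .nil)) (.leaf (.cons .b .d .c .e 10000 .c 10000 .d 10000 .nil))) .nil (.node (.leaf (.cons .b .d .d .e 10000 .c 10000 .d 10000 .nil)) (.leaf (.cons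 .b .d .d .e 10000 .c 10000 .d 10000 .nil)) (.leaf (.cons .b .d .d .d 10000 .c 10000 .d 10000 (.cons .b .c .c .e 10000 .d 10000 .e 10000 .nil))) (.leaf (.cons .c .c .c .e 10000 .c 10000 .e 10000 .nil)) .nil))) .nil)

def tbccb : Tr := (.node (.node .nil (.node .nil .nil (.node (.leaf (.cons .c .d .d .e 10000 .d 10000 .e 10000 .nil)) .nil .nil (.leaf (.cons .c .d .d .d 10000 .d 10000 .e 10000 (.cons .c .d .c .e 10000 .c 10000 .e 10000 .nil))) .nil) (.node (.leaf (.cons .c .d .d .e 10000 .c 10000 .e 10000 .nil)) (.leaf (.cons .c .d .d .e 10000 .c 10000 .e 10000 .nil)) (.leaf (.cons .c .d .d .d 10000 .c 10000 .e 10000 (.cons .c .d .c .e 10000 .d 10000 .e 10000 .nil))) .nil (.leaf (.cons .c .d .d .d 10000 .c 10000 .e 10000 (.cons .c .d .c .e 10000 .c 10000 .d 10000 .nil)))) .nil) (.node .nil .nil (.node (.leaf (.cons .c .d .d .e 10000 .d 10000 .e 10000 .nil)) (.leaf (.cons .c .d .d .e 10000 .d 10000 .e 10000 .nil))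 .nil (.leaf (.cons .c .c .c .e 10000 .c 10000 .e 10000 .nil)) .nil) (.node (.leaf (.cons .c .c .d .e 10000 .c 10000 .e 10000 .nil)) (.leaf (.cons .c .d .c .e 10000 .d 10000 .e 10000 .nil)) (.leaf (.cons .c .d .c .e 10000 .d 10000 .e 10000 .nil)) .nil (.leaf (.cons .c .d .c .d 10000 .d 10000 .e 10000 (.cons .c .c .c .e 10000 .c 10000 .d 10000 .nil)))) .nil) (.node .nil (.node (.leaf (.cons .c .d .d .e 10000 .c 10000 .e 10000 .nil)) .nil .nil .nil .nil) (.node (.leaf (.cons .c .d .c .e 10000 .c 10000 .e 10000 .nil)) .nil .nil (.leaf (.cons .c .d .c .e 10000 .c 10000 .e 10000 .nil)) (.leaf (.cons .c .d .c .d 10000 .c 10000 .e 10000 (.cons .c .c .c .e 10000 .c 10000 .d 10000 .nil)))) (.node (.leaf (.cons .c .d .d .e 10000 .c 10000 .e 10000 .nil)) (.leaf (.cons .c .d .d .e 10000 .c 10000 .e 10000 .nil)) (.leaf (.cons .c .d .d .d 10000 .c 10000 .e 10000 (.cons .c .c .c .e 10000 .d 10000 .e 10000 .nil))) .nil (.leaf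 (.cons .c .c .c .e 10000 .c 10000 .d 10000 .nil))) (.node (.leaf (.cons .c .c .d .e 10000 .c 10000 .d 10000 .nil)) (.leaf (.cons .c .d .c .e 10000 .c 10000 .e 10000 .nil)) (.leaf (.cons .c .d .c .d 10000 .c 10000 .e 10000 (.cons .c .c .c .e 10000 .d 10000 .e 10000 .nil))) (.leaf (.cons .c .d .c .e 10000 .c 10000 .e 10000 .nil)) .nil)) .nil) (.node (.node (.node .nil .nil (.leaf (.cons .c .d .d .e 10000 .d 10000 .e 10000 .nil)) (.leaf (.cons .c .d .d .e 10000 .c 10000 .e 10000 .nil)) .nil) .nil (.node (.leaf (.cons .c .d .d .e 10000 .d 10000 .e 10000 .nil)) .nil .nil (.leaf (.cons .c .d .c .e 10000 .c 10000 .e 10000 .nil)) .nil) (.node (.leaf (.cons .c .d .d .e 10000 .c 10000 .e 10000 .nil)) .nil (.leaf (.cons .c .d .d .d 10000 .c 10000 .e 10000 (.cons .c .d .c .e 10000 .d 10000 .e 10000 .nil))) .nil (.leaf (.cons .c .d .c .e 10000 .c 10000 .d 10000 .nil))) .nil) .nil (.node (.node .nil .nil (.leaf (.cons .c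 .d .d .e 10000 .d 10000 .e 10000 .nil)) (.leaf (.cons .c .d .d .d 10000 .d 10000 .e 10000 .nil)) .nil) .nil .nil (.node (.leaf (.cons .c .c .d .e 10000 .c 10000 .e 10000 .nil)) .nil (.leaf (.cons .c .d .c .e 10000 .d 10000 .e 10000 .nil)) .nil (.leaf (.cons .c .d .c .d 10000 .d 10000 .e 10000 (.cons .c .c .c .e 10000 .c 10000 .d 10000 .nil)))) .nil) (.node (.node .nil .nil (.leaf (.cons .c .d .d .d 10000 .c 10000 .e 10000 .nil)) (.leaf (.cons .c .d .d .e 10000 .c 10000 .e 10000 .nil)) (.leaf (.cons .c .d .d .d 10000 .c 10000 .e 10000 .nil))) .nil (.node (.leaf (.cons .c .d .c .e 10000 .c 10000 .e 10000 .nil)) .nil .nil (.leaf (.cons .c .d .c .e 10000 .c 10000 .e 10000 .nil)) (.leaf (.cons .c .d .c .d 10000 .c 10000 .e 10000 (.cons .c .c .c .e 10000 .c 10000 .d 10000 .nil)))) (.node (.leaf (.cons .c .d .d .e 10000 .c 10000 .e 10000 .nil)) .nil (.leaf (.cons .c .d .d .d 10000 .c 10000 .e 10000 (.cons .c .c .c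 .e 10000 .d 10000 .e 10000 .nil))) .nil (.leaf (.cons .c .d .d .d 10000 .c 10000 .e 10000 (.cons .c .c .c .e 10000 .c 10000 .d 10000 .nil)))) (.node (.leaf (.cons .c .d .c .e 10000 .c 10000 .e 10000 (.cons .c .c .d .e 10000 .c 10000 .d 10000 .nil))) .nil (.leaf (.cons .c .d .c .d 10000 .c 10000 .e 10000 (.cons .c .c .c .e 10000 .d 10000 .e 10000 .nil))) (.leaf (.cons .c .d .c .e 10000 .c 10000 .e 10000 .nil)) .nil)) .nil) .nil (.node (.node (.node .nil (.leaf (.cons .c .d .d .e 10000 .c 10000 .e 10000 .nil)) (.leaf (.cons .c .d .d .d 10000 .c 10000 .e 10000 .nil)) (.leaf (.cons .c .d .d .e 10000 .c 10000 .e 10000 .nil)) (.leaf (.cons .c .d .d .d 10000 .c 10000 .e 10000 .nil))) (.node .nil .nil .nil (.leaf (.cons .c .d .d .e 10000 .c 10000 .e 10000 .nil)) .nil) (.node (.leaf (.cons .c .d .c .e 10000 .c 10000 .e 10000 (.cons .a .d .d .e 10000 .d 10000 .e 10000 .nil))) .nil .nil (.leaf (.cons .c .d .c .e 10000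 .c 10000 .e 10000 .nil)) (.leaf (.cons .c .d .c .d 10000 .c 10000 .e 10000 (.cons .a .d .c .e 10000 .c 10000 .d 10000 .nil)))) .nil (.node (.leaf (.cons .c .d .c .e 10000 .c 10000 .e 10000 (.cons .a .d .d .e 10000 .c 10000 .d 10000 .nil))) (.leaf (.cons .c .d .c .e 10000 .c 10000 .e 10000 .nil)) (.leaf (.cons .a .d .c .e 10000 .d 10000 .e 10000 .nil)) (.leaf (.cons .c .d .c .e 10000 .c 10000 .e 10000 .nil)) .nil)) (.node (.node .nil (.leaf (.cons .c .d .d .e 10000 .c 10000 .e 10000 .nil)) (.leaf (.cons .c .d .d .d 10000 .c 10000 .e 10000 .nil)) (.leaf (.cons .c .d .d .e 10000 .c 10000 .e 10000 .nil)) (.leaf (.cons .c .d .d .d 10000 .c 10000 .e 10000 .nil))) .nil (.node (.leaf (.cons .a .d .d .e 10000 .d 10000 .e 10000 .nil)) .nil .nil (.leaf (.cons .c .d .b .e 10000 .c 10000 .e 10000 .nil)) (.leaf (.cons .c .d .b .d 10000 .c 10000 .e 10000 (.cons .a .d .b .e 10000 .c 10000 .d 10000 .nil)))) .nil (.node (.leaf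 (.cons .a .d .d .e 10000 .c 10000 .d 10000 .nil)) (.leaf (.cons .c .d .b .e 10000 .c 10000 .e 10000 .nil)) (.leaf (.cons .a .d .b .e 10000 .d 10000 .e 10000 .nil)) (.leaf (.cons .c .d .b .e 10000 .c 10000 .e 10000 .nil)) .nil)) (.node (.node .nil (.leaf (.cons .a .d .d .e 10000 .d 10000 .e 10000 .nil)) (.leaf (.cons .c .c .d .d 10000 .c 10000 .e 10000 .nil)) (.leaf (.cons .c .c .d .e 10000 .c 10000 .e 10000 .nil)) (.leaf (.cons .c .c .d .d 10000 .c 10000 .e 10000 .nil))) .nil (.node (.leaf (.cons .c .c .c .e 10000 .c 10000 .e 10000 (.cons .a .d .d .e 10000 .d 10000 .e 10000 .nil))) (.leaf (.cons .c .c .c .e 10000 .c 10000 .e 10000 .nil)) .nil (.leaf (.cons .c .c .c .e 10000 .c 10000 .e 10000 .nil)) (.leaf (.cons .c .c .c .d 10000 .c 10000 .e 10000 (.cons .a .c .c .e 10000 .c 10000 .d 10000 .nil)))) .nil (.node (.leaf (.cons .c .c .c .e 10000 .c 10000 .e 10000 (.cons .a .c .d .e 10000 .c 10000 .d 10000 .nil)))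 (.leaf (.cons .c .c .c .e 10000 .c 10000 .e 10000 .nil)) (.leaf (.cons .c .c .c .d 10000 .c 10000 .e 10000 (.cons .a .d .c .e 10000 .d 10000 .e 10000 .nil))) (.leaf (.cons .c .c .c .e 10000 .c 10000 .e 10000 .nil)) .nil)) .nil (.node (.node .nil (.leaf (.cons .a .d .d .e 10000 .c 10000 .d 10000 .nil)) (.leaf (.cons .c .c .d .d 10000 .c 10000 .e 10000 .nil)) (.leaf (.cons .c .c .d .e 10000 .c 10000 .e 10000 .nil)) (.leaf (.cons .c .c .d .d 10000 .c 10000 .e 10000 .nil))) (.node .nil .nil .nil (.leaf (.cons .c .c .d .e 10000 .c 10000 .e 10000 .nil)) .nil) (.node (.leaf (.cons .c .c .c .e 10000 .c 10000 .e 10000 (.cons .a .c .d .e 10000 .d 10000 .e 10000 .nil))) .nil .nil (.leaf (.cons .c .c .c .e 10000 .c 10000 .e 10000 .nil)) (.leaf (.cons .c .c .c .d 10000 .c 10000 .e 10000 (.cons .a .d .c .e 10000 .c 10000 .d 10000 .nil)))) .nil (.node (.leaf (.cons .c .c .c .e 10000 .c 10000 .e 10000 (.cons .a .d .d .e 10000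 .c 10000 .d 10000 .nil))) (.leaf (.cons .c .c .c .e 10000 .c 10000 .e 10000 .nil)) (.leaf (.cons .c .c .c .d 10000 .c 10000 .e 10000 (.cons .a .c .c .e 10000 .d 10000 .e 10000 .nil))) (.leaf (.cons .c .c .c .e 10000 .c 10000 .e 10000 .nil)) .nil))) .nil)

def tbccd : Tr := (.node (.node .nil (.node .nil (.node .nil .nil .nil (.leaf (.cons .c .d .d .e 10000 .c 10000 .e 10000 .nil)) .nil) (.node (.leaf (.cons .c .d .c .e 10000 .c 10000 .e 10000 .nil)) .nil .nil (.leaf (.cons .c .d .c .e 10000 .c 10000 .e 10000 .nil)) (.leaf (.cons .c .d .c .d 10000 .c 10000 .e 10000 .nil))) (.node (.leaf (.cons .c .d .d .e 10000 .c 10000 .e 10000 .nil)) (.leaf (.cons .c .d .d .e 10000 .c 10000 .e 10000 .nil)) (.leaf (.cons .c .d .c .e 10000 .d 10000 .e 10000 .nil)) .nil (.leaf (.cons .c .d .d .d 10000 .c 10000 .e 10000 (.cons .c .d .c .e 10000 .c 10000 .d 10000 .nil)))) (.node (.leaf (.cons .c .d .d .e 10000 .c 10000 .d 10000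 .nil)) (.leaf (.cons .c .d .d .e 10000 .c 10000 .d 10000 .nil)) (.leaf (.cons .c .d .c .e 10000 .d 10000 .e 10000 .nil)) (.leaf (.cons .c .d .d .d 10000 .c 10000 .d 10000 (.cons .c .d .c .e 10000 .c 10000 .e 10000 .nil))) .nil)) (.node .nil (.node .nil .nil .nil (.leaf (.cons .c .c .d .e 10000 .c 10000 .e 10000 .nil)) .nil) (.node (.leaf (.cons .c .d .d .e 10000 .d 10000 .e 10000 .nil)) (.leaf (.cons .c .d .d .e 10000 .d 10000 .e 10000 .nil)) .nil (.leaf (.cons .c .d .d .d 10000 .d 10000 .e 10000 .nil)) (.leaf (.cons .c .d .d .d 10000 .d 10000 .e 10000 (.cons .c .c .c .e 10000 .c 10000 .d 10000 .nil)))) .nil (.node (.leaf (.cons .c .d .c .e 10000 .d 10000 .e 10000 (.cons .c .c .d .e 10000 .c 10000 .d 10000 .nil))) (.leaf (.cons .c .d .c .e 10000 .d 10000 .e 10000 .nil)) (.leaf (.cons .c .d .c .e 10000 .d 10000 .e 10000 .nil)) (.leaf (.cons .c .d .c .d 10000 .d 10000 .e 10000 (.cons .c .c .c .e 10000 .c 10000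 .e 10000 .nil))) .nil)) (.node .nil (.node .nil .nil .nil (.leaf (.cons .c .d .d .e 10000 .c 10000 .e 10000 .nil)) .nil) (.node (.leaf (.cons .c .d .c .e 10000 .c 10000 .e 10000 .nil)) .nil .nil (.leaf (.cons .c .d .c .e 10000 .c 10000 .e 10000 .nil)) (.leaf (.cons .c .d .c .d 10000 .c 10000 .e 10000 (.cons .c .c .c .e 10000 .c 10000 .d 10000 .nil)))) (.node (.leaf (.cons .c .d .d .e 10000 .c 10000 .e 10000 .nil)) (.leaf (.cons .c .d .d .e 10000 .c 10000 .e 10000 .nil)) (.leaf (.cons .c .c .c .e 10000 .d 10000 .e 10000 .nil)) .nil (.leaf (.cons .c .c .c .e 10000 .c 10000 .d 10000 .nil))) (.node (.leaf (.cons .c .c .d .e 10000 .c 10000 .d 10000 .nil)) (.leaf (.cons .c .d .c .e 10000 .c 10000 .e 10000 .nil)) (.leaf (.cons .c .d .c .d 10000 .c 10000 .e 10000 (.cons .c .c .c .e 10000 .d 10000 .e 10000 .nil))) (.leaf (.cons .c .d .c .e 10000 .c 10000 .e 10000 .nil)) .nil)) (.node .nil (.node .nil .nil .nil (.leaf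 (.cons .c .c .d .e 10000 .c 10000 .e 10000 .nil)) .nil) (.node (.leaf (.cons .c .d .c .e 10000 .c 10000 .d 10000 .nil)) .nil .nil (.leaf (.cons .c .d .c .d 10000 .c 10000 .d 10000 .nil)) (.leaf (.cons .c .d .c .e 10000 .c 10000 .d 10000 .nil))) (.node (.leaf (.cons .c .d .c .e 10000 .c 10000 .d 10000 (.cons .c .c .d .e 10000 .c 10000 .e 10000 .nil))) (.leaf (.cons .c .d .c .e 10000 .c 10000 .d 10000 .nil)) (.leaf (.cons .c .d .c .d 10000 .c 10000 .d 10000 (.cons .c .c .c .e 10000 .d 10000 .e 10000 .nil))) .nil (.leaf (.cons .c .d .c .e 10000 .c 10000 .d 10000 .nil))) (.node (.leaf (.cons .c .d .d .e 10000 .c 10000 .d 10000 .nil)) (.leaf (.cons .c .d .d .e 10000 .c 10000 .d 10000 .nil)) (.leaf (.cons .c .c .c .e 10000 .d 10000 .e 10000 .nil)) (.leaf (.cons .c .d .d .d 10000 .c 10000 .d 10000 (.cons .c .c .c .e 10000 .c 10000 .e 10000 .nil))) .nil))) (.node (.node (.node .nil (.leaf (.cons .c .d .d .e 10000 .c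 10000 .d 10000 .nil)) (.leaf (.cons .c .d .d .e 10000 .d 10000 .e 10000 .nil)) (.leaf (.cons .c .d .d .e 10000 .c 10000 .e 10000 .nil)) (.leaf (.cons .c .d .d .e 10000 .c 10000 .d 10000 .nil))) .nil (.node (.leaf (.cons .c .d .d .e 10000 .d 10000 .e 10000 .nil)) .nil .nil (.leaf (.cons .c .d .c .e 10000 .c 10000 .e 10000 .nil)) (.leaf (.cons .c .d .c .e 10000 .c 10000 .d 10000 .nil))) (.node (.leaf (.cons .c .d .d .e 10000 .c 10000 .e 10000 .nil)) .nil (.leaf (.cons .c .d .d .d 10000 .c 10000 .e 10000 (.cons .c .d .c .e 10000 .d 10000 .e 10000 .nil))) .nil (.leaf (.cons .c .d .d .d 10000 .c 10000 .e 10000 (.cons .c .d .c .e 10000 .c 10000 .d 10000 .nil)))) (.node (.leaf (.cons .c .d .d .e 10000 .c 10000 .d 10000 .nil)) (.leaf (.cons .c .d .d .e 10000 .c 10000 .d 10000 .nil)) (.leaf (.cons .c .d .d .d 10000 .c 10000 .d 10000 (.cons .c .d .c .e 10000 .d 10000 .e 10000 .nil))) (.leaf (.cons .c .d .c .e 10000 .c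 10000 .e 10000 .nil)) .nil)) .nil (.node (.node .nil (.leaf (.cons .c .d .d .e 10000 .d 10000 .e 10000 .nil)) (.leaf (.cons .c .d .d .e 10000 .d 10000 .e 10000 .nil)) (.leaf (.cons .c .d .d .d 10000 .d 10000 .e 10000 .nil)) (.leaf (.cons .c .d .d .d 10000 .d 10000 .e 10000 .nil))) .nil .nil .nil (.node (.leaf (.cons .c .d .c .e 10000 .d 10000 .e 10000 (.cons .c .b .d .e 10000 .c 10000 .d 10000 .nil))) (.leaf (.cons .c .d .c .e 10000 .d 10000 .e 10000 .nil)) (.leaf (.cons .c .d .c .e 10000 .d 10000 .e 10000 .nil)) (.leaf (.cons .c .d .c .d 10000 .d 10000 .e 10000 (.cons .c .b .c .e 10000 .c 10000 .e 10000 .nil))) .nil)) (.node (.node .nil (.leaf (.cons .c .d .d .e 10000 .c 10000 .e 10000 .nil)) (.leaf (.cons .c .d .d .d 10000 .c 10000 .e 10000 .nil)) (.leaf (.cons .c .d .d .e 10000 .c 10000 .e 10000 .nil)) (.leaf (.cons .c .d .d .d 10000 .c 10000 .e 10000 .nil))) .nil (.node (.leaf (.cons .c .d .c .e 10000 .c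 10000 .e 10000 .nil)) .nil .nil (.leaf (.cons .c .d .c .e 10000 .c 10000 .e 10000 .nil)) (.leaf (.cons .c .d .c .d 10000 .c 10000 .e 10000 (.cons .c .c .c .e 10000 .c 10000 .d 10000 .nil)))) (.node (.leaf (.cons .c .d .d .e 10000 .c 10000 .e 10000 .nil)) (.leaf (.cons .c .d .d .e 10000 .c 10000 .e 10000 .nil)) (.leaf (.cons .c .d .d .d 10000 .c 10000 .e 10000 (.cons .c .c .c .e 10000 .d 10000 .e 10000 .nil))) .nil (.leaf (.cons .c .d .d .d 10000 .c 10000 .e 10000 (.cons .c .c .c .e 10000 .c 10000 .d 10000 .nil)))) (.node (.leaf (.cons .c .c .d .e 10000 .c 10000 .d 10000 .nil)) (.leaf (.cons .c .d .c .e 10000 .c 10000 .e 10000 .nil)) (.leaf (.cons .c .d .c .d 10000 .c 10000 .e 10000 (.cons .c .c .c .e 10000 .d 10000 .e 10000 .nil))) (.leaf (.cons .c .d .c .e 10000 .c 10000 .e 10000 .nil)) .nil)) (.node (.node .nil (.leaf (.cons .c .d .d .e 10000 .c 10000 .d 10000 .nil)) (.leaf (.cons .c .d .d .d 10000 .c 10000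 .d 10000 .nil)) (.leaf (.cons .c .d .d .d 10000 .c 10000 .d 10000 .nil)) (.leaf (.cons .c .d .d .e 10000 .c 10000 .d 10000 .nil))) .nil (.node (.leaf (.cons .c .d .c .e 10000 .c 10000 .d 10000 (.cons .c .b .d .e 10000 .d 10000 .e 10000 .nil))) .nil .nil (.leaf (.cons .c .d .c .d 10000 .c 10000 .d 10000 (.cons .c .b .c .e 10000 .c 10000 .e 10000 .nil))) (.leaf (.cons .c .d .c .e 10000 .c 10000 .d 10000 .nil))) (.node (.leaf (.cons .c .d .c .e 10000 .c 10000 .d 10000 (.cons .c .b .d .e 10000 .c 10000 .e 10000 .nil))) .nil (.leaf (.cons .c .d .c .d 10000 .c 10000 .d 10000 (.cons .c .b .c .e 10000 .d 10000 .e 10000 .nil))) .nil (.leaf (.cons .c .d .c .e 10000 .c 10000 .d 10000 .nil))) (.node (.leaf (.cons .c .d .d .e 10000 .c 10000 .d 10000 .nil)) (.leaf (.cons .c .d .d .e 10000 .c 10000 .d 10000 .nil)) (.leaf (.cons .c .d .d .d 10000 .c 10000 .d 10000 (.cons .c .b .c .e 10000 .d 10000 .e 10000 .nil))) (.leaf (.cons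 .c .d .d .d 10000 .c 10000 .d 10000 (.cons .c .b .c .e 10000 .c 10000 .e 10000 .nil))) .nil))) .nil (.node (.node (.node .nil .nil (.leaf (.cons .c .d .d .d 10000 .c 10000 .e 10000 .nil)) (.leaf (.cons .c .d .d .e 10000 .c 10000 .e 10000 .nil)) (.leaf (.cons .c .d .d .d 10000 .c 10000 .e 10000 .nil))) .nil (.node (.leaf (.cons .c .d .c .e 10000 .c 10000 .e 10000 .nil)) .nil .nil (.leaf (.cons .c .d .c .e 10000 .c 10000 .e 10000 .nil)) (.leaf (.cons .c .d .c .d 10000 .c 10000 .e 10000 (.cons .b .d .c .e 10000 .c 10000 .d 10000 .nil)))) .nil (.node (.leaf (.cons .c .d .c .e 10000 .c 10000 .e 10000 (.cons .b .d .d .e 10000 .c 10000 .d 10000 .nil))) .nil (.leaf (.cons .b .d .c .e 10000 .d 10000 .e 10000 .nil)) (.leaf (.cons .c .d .c .e 10000 .c 10000 .e 10000 .nil)) .nil)) (.node (.node .nil .nil (.leaf (.cons .c .d .d .d 10000 .c 10000 .e 10000 .nil)) (.leaf (.cons .c .d .d .e 10000 .c 10000 .e 10000 .nil)) (.leaf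 (.cons .c .d .d .d 10000 .c 10000 .e 10000 .nil))) .nil (.node (.leaf (.cons .b .d .d .e 10000 .d 10000 .e 10000 .nil)) .nil .nil (.leaf (.cons .c .d .b .e 10000 .c 10000 .e 10000 .nil)) (.leaf (.cons .b .d .d .d 10000 .d 10000 .e 10000 (.cons .b .d .b .e 10000 .c 10000 .d 10000 .nil)))) .nil (.node (.leaf (.cons .b .d .d .e 10000 .c 10000 .d 10000 .nil)) .nil (.leaf (.cons .b .d .b .e 10000 .d 10000 .e 10000 .nil)) (.leaf (.cons .c .d .b .e 10000 .c 10000 .e 10000 .nil)) .nil)) (.node (.node .nil .nil (.leaf (.cons .b .d .d .e 10000 .d 10000 .e 10000 .nil)) (.leaf (.cons .c .c .d .e 10000 .c 10000 .e 10000 .nil)) (.leaf (.cons .c .c .d .d 10000 .c 10000 .e 10000 .nil))) .nil (.node (.leaf (.cons .b .d .d .e 10000 .d 10000 .e 10000 .nil)) .nil .nil (.leaf (.cons .c .c .c .e 10000 .c 10000 .e 10000 .nil)) (.leaf (.cons .b .d .d .d 10000 .d 10000 .e 10000 (.cons .b .c .c .e 10000 .c 10000 .d 10000 .nil)))) .nil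 (.node (.leaf (.cons .c .c .c .e 10000 .c 10000 .e 10000 (.cons .b .c .d .e 10000 .c 10000 .d 10000 .nil))) .nil (.leaf (.cons .b .d .c .e 10000 .d 10000 .e 10000 .nil)) (.leaf (.cons .c .c .c .e 10000 .c 10000 .e 10000 .nil)) .nil)) .nil (.node (.node .nil .nil (.leaf (.cons .c .c .d .d 10000 .c 10000 .e 10000 .nil)) (.leaf (.cons .c .c .d .e 10000 .c 10000 .e 10000 .nil)) (.leaf (.cons .b .d .d .e 10000 .c 10000 .d 10000 .nil))) .nil (.node (.leaf (.cons .c .c .c .e 10000 .c 10000 .e 10000 .nil)) .nil .nil (.leaf (.cons .c .c .c .e 10000 .c 10000 .e 10000 .nil)) (.leaf (.cons .b .d .c .e 10000 .c 10000 .d 10000 .nil))) .nil (.node (.leaf (.cons .b .d .d .e 10000 .c 10000 .d 10000 .nil)) .nil (.leaf (.cons .b .c .c .e 10000 .d 10000 .e 10000 .nil)) (.leaf (.cons .c .c .c .e 10000 .c 10000 .e 10000 .nil)) .nil))) (.node (.node (.node .nil (.leaf (.cons .c .d .d .e 10000 .c 10000 .d 10000 .nil)) (.leaf (.cons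 .c .d .d .d 10000 .c 10000 .d 10000 .nil)) (.leaf (.cons .c .d .d .d 10000 .c 10000 .d 10000 .nil)) (.leaf (.cons .c .d .d .e 10000 .c 10000 .d 10000 .nil))) (.node .nil .nil .nil (.leaf (.cons .c .d .d .d 10000 .c 10000 .d 10000 .nil)) .nil) (.node (.leaf (.cons .c .d .c .e 10000 .c 10000 .d 10000 .nil)) .nil .nil (.leaf (.cons .c .d .c .d 10000 .c 10000 .d 10000 (.cons .b .d .c .e 10000 .c 10000 .e 10000 .nil))) (.leaf (.cons .c .d .c .e 10000 .c 10000 .d 10000 .nil))) (.node (.leaf (.cons .c .d .c .e 10000 .c 10000 .d 10000 (.cons .b .d .d .e 10000 .c 10000 .e 10000 .nil))) (.leaf (.cons .c .d .c .e 10000 .c 10000 .d 10000 .nil)) (.leaf (.cons .b .d .c .e 10000 .d 10000 .e 10000 .nil)) .nil (.leaf (.cons .c .d .c .e 10000 .c 10000 .d 10000 .nil))) .nil) (.node (.node .nil (.leaf (.cons .c .d .d .e 10000 .c 10000 .d 10000 .nil)) (.leaf (.cons .c .d .d .d 10000 .c 10000 .d 10000 .nil)) (.leaf (.cons .c .d .d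 .d 10000 .c 10000 .d 10000 .nil)) (.leaf (.cons .c .d .d .e 10000 .c 10000 .d 10000 .nil))) (.node .nil .nil .nil (.leaf (.cons .c .d .d .d 10000 .c 10000 .d 10000 .nil)) .nil) (.node (.leaf (.cons .b .d .d .e 10000 .d 10000 .e 10000 .nil)) .nil .nil (.leaf (.cons .b .d .b .e 10000 .c 10000 .e 10000 .nil)) (.leaf (.cons .c .d .b .e 10000 .c 10000 .d 10000 .nil))) (.node (.leaf (.cons .b .d .d .e 10000 .c 10000 .e 10000 .nil)) (.leaf (.cons .b .d .d .e 10000 .c 10000 .e 10000 .nil)) (.leaf (.cons .b .d .d .d 10000 .c 10000 .e 10000 (.cons .b .d .a .e 10000 .d 10000 .e 10000 .nil))) .nil (.leaf (.cons .c .d .a .e 10000 .c 10000 .d 10000 .nil))) .nil) (.node (.node .nil (.leaf (.cons .b .d .d .e 10000 .d 10000 .e 10000 .nil)) (.leaf (.cons .b .d .d .e 10000 .d 10000 .e 10000 .nil)) (.leaf (.cons .c .c .d .d 10000 .c 10000 .d 10000 .nil)) (.leaf (.cons .c .c .d .e 10000 .c 10000 .d 10000 .nil))) (.node .nil .nil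 .nil (.leaf (.cons .b .c .d .e 10000 .c 10000 .e 10000 .nil)) .nil) (.node (.leaf (.cons .b .d .d .e 10000 .d 10000 .e 10000 .nil)) (.leaf (.cons .b .d .d .e 10000 .d 10000 .e 10000 .nil)) .nil (.leaf (.cons .b .d .d .d 10000 .d 10000 .e 10000 (.cons .b .c .c .e 10000 .c 10000 .e 10000 .nil))) (.leaf (.cons .c .c .c .e 10000 .c 10000 .d 10000 .nil))) .nil .nil) (.node (.node .nil (.leaf (.cons .b .d .d .e 10000 .c 10000 .e 10000 .nil)) (.leaf (.cons .c .c .d .d 10000 .c 10000 .d 10000 .nil)) (.leaf (.cons .b .d .d .e 10000 .c 10000 .e 10000 .nil)) (.leaf (.cons .c .c .d .e 10000 .c 10000 .d 10000 .nil))) (.node .nil .nil .nil (.leaf (.cons .b .d .d .e 10000 .c 10000 .e 10000 .nil)) .nil) (.node (.leaf (.cons .c .c .c .e 10000 .c 10000 .d 10000 .nil)) .nil .nil (.leaf (.cons .b .d .c .e 10000 .c 10000 .e 10000 .nil)) (.leaf (.cons .c .c .c .e 10000 .c 10000 .d 10000 .nil))) (.node (.leaf (.cons .b .d .d .e 10000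 .c 10000 .e 10000 .nil)) (.leaf (.cons .b .d .d .e 10000 .c 10000 .e 10000 .nil)) (.leaf (.cons .b .d .d .d 10000 .c 10000 .e 10000 (.cons .b .c .c .e 10000 .d 10000 .e 10000 .nil))) .nil (.leaf (.cons .c .c .c .e 10000 .c 10000 .d 10000 .nil))) .nil) .nil))

def tbcda : Tr := (.node (.node .nil (.node .nil (.node (.leaf (.cons .c .d .d .e 10000 .c 10000 .d 10000 .nil)) .nil (.leaf (.cons .c .d .d .e 10000 .d 10000 .e 10000 .nil)) (.leaf (.cons .c .d .d .e 10000 .c 10000 .e 10000 .nil)) (.leaf (.cons .c .d .d .e 10000 .c 10000 .d 10000 .nil))) (.node (.leaf (.cons .c .d .d .e 10000 .d 10000 .e 10000 .nil)) (.leaf (.cons .c .d .d .e 10000 .d 10000 .e 10000 .nil)) .nil (.leaf (.cons .c .d .d .d 10000 .d 10000 .e 10000 .nil)) (.leaf (.cons .c .d .d .d 10000 .d 10000 .e 10000 (.cons .c .d .c .e 10000 .c 10000 .d 10000 .nil)))) (.node (.leaf (.cons .c .d .d .e 10000 .c 10000 .e 10000 .nil)) (.leaf (.cons .c .d .d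 .e 10000 .c 10000 .e 10000 .nil)) (.leaf (.cons .c .d .d .d 10000 .c 10000 .e 10000 .nil)) .nil (.leaf (.cons .c .d .d .d 10000 .c 10000 .e 10000 (.cons .c .d .c .e 10000 .c 10000 .d 10000 .nil)))) (.node (.leaf (.cons .c .d .d .e 10000 .c 10000 .d 10000 .nil)) (.leaf (.cons .c .d .d .e 10000 .c 10000 .d 10000 .nil)) (.leaf (.cons .c .d .d .d 10000 .c 10000 .d 10000 (.cons .c .d .c .e 10000 .d 10000 .e 10000 .nil))) (.leaf (.cons .c .d .d .d 10000 .c 10000 .d 10000 .nil)) .nil)) (.node .nil (.node (.leaf (.cons .c .d .d .e 10000 .d 10000 .e 10000 .nil)) .nil (.leaf (.cons .c .d .d .e 10000 .d 10000 .e 10000 .nil)) (.leaf (.cons .c .c .d .e 10000 .c 10000 .e 10000 .nil)) (.leaf (.cons .c .c .d .e 10000 .c 10000 .d 10000 .nil))) (.node (.leaf (.cons .c .d .d .e 10000 .d 10000 .e 10000 .nil)) (.leaf (.cons .c .d .d .e 10000 .d 10000 .e 10000 .nil)) .nil (.leaf (.cons .c .d .d .d 10000 .d 10000 .e 10000 .nil)) (.leaf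 (.cons .c .c .c .e 10000 .c 10000 .d 10000 .nil))) (.node (.leaf (.cons .c .c .d .e 10000 .c 10000 .e 10000 .nil)) (.leaf (.cons .c .c .d .e 10000 .c 10000 .e 10000 .nil)) (.leaf (.cons .c .d .b .e 10000 .d 10000 .e 10000 .nil)) .nil (.leaf (.cons .c .c .d .d 10000 .c 10000 .e 10000 (.cons .c .c .b .e 10000 .c 10000 .d 10000 .nil)))) (.node (.leaf (.cons .c .c .d .e 10000 .c 10000 .d 10000 .nil)) (.leaf (.cons .c .d .c .e 10000 .d 10000 .e 10000 .nil)) (.leaf (.cons .c .d .c .e 10000 .d 10000 .e 10000 .nil)) (.leaf (.cons .c .d .c .d 10000 .d 10000 .e 10000 .nil)) .nil)) (.node .nil (.node (.leaf (.cons .c .d .d .e 10000 .c 10000 .e 10000 .nil)) .nil (.leaf (.cons .c .c .d .e 10000 .d 10000 .e 10000 .nil)) (.leaf (.cons .c .d .d .e 10000 .c 10000 .e 10000 .nil)) (.leaf (.cons .c .c .d .e 10000 .c 10000 .d 10000 .nil))) (.node (.leaf (.cons .c .c .d .e 10000 .d 10000 .e 10000 .nil)) (.leaf (.cons .c .d .c .e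 10000 .c 10000 .e 10000 .nil)) .nil (.leaf (.cons .c .d .c .e 10000 .c 10000 .e 10000 .nil)) (.leaf (.cons .c .c .c .e 10000 .c 10000 .d 10000 .nil))) (.node (.leaf (.cons .c .d .d .e 10000 .c 10000 .e 10000 .nil)) (.leaf (.cons .c .d .d .e 10000 .c 10000 .e 10000 .nil)) (.leaf (.cons .c .d .d .d 10000 .c 10000 .e 10000 .nil)) .nil (.leaf (.cons .c .d .d .d 10000 .c 10000 .e 10000 (.cons .c .c .c .e 10000 .c 10000 .d 10000 .nil)))) (.node (.leaf (.cons .c .d .c .e 10000 .c 10000 .e 10000 (.cons .c .c .d .e 10000 .c 10000 .d 10000 .nil))) (.leaf (.cons .c .d .c .e 10000 .c 10000 .e 10000 .nil)) (.leaf (.cons .c .c .c .e 10000 .d 10000 .e 10000 .nil)) (.leaf (.cons .c .d .c .e 10000 .c 10000 .e 10000 .nil)) .nil)) (.node .nil (.node (.leaf (.cons .c .d .d .e 10000 .c 10000 .d 10000 .nil)) .nil (.leaf (.cons .c .c .d .e 10000 .d 10000 .e 10000 .nil)) (.leaf (.cons .c .c .d .e 10000 .c 10000 .e 10000 .nil)) (.leaf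 (.cons .c .d .d .e 10000 .c 10000 .d 10000 .nil))) (.node (.leaf (.cons .c .c .d .e 10000 .d 10000 .e 10000 .nil)) (.leaf (.cons .c .d .c .e 10000 .c 10000 .d 10000 .nil)) .nil (.leaf (.cons .c .c .c .e 10000 .c 10000 .e 10000 .nil)) (.leaf (.cons .c .d .c .e 10000 .c 10000 .d 10000 .nil))) (.node (.leaf (.cons .c .d .c .e 10000 .c 10000 .d 10000 (.cons .c .c .d .e 10000 .c 10000 .e 10000 .nil))) (.leaf (.cons .c .d .c .e 10000 .c 10000 .d 10000 .nil)) (.leaf (.cons .c .d .c .d 10000 .c 10000 .d 10000 .nil)) .nil (.leaf (.cons .c .d .c .e 10000 .c 10000 .d 10000 .nil))) (.node (.leaf (.cons .c .d .d .e 10000 .c 10000 .d 10000 .nil)) (.leaf (.cons .c .d .d .e 10000 .c 10000 .d 10000 .nil)) (.leaf (.cons .c .c .c .e 10000 .d 10000 .e 10000 .nil)) (.leaf (.cons .c .d .d .d 10000 .c 10000 .d 10000 (.cons .c .c .c .e 10000 .c 10000 .e 10000 .nil))) .nil))) (.node (.node (.node .nil (.leaf (.cons .c .d .d .e 10000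 .c 10000 .e 10000 .nil)) (.leaf (.cons .c .d .d .d 10000 .c 10000 .e 10000 .nil)) (.leaf (.cons .c .d .d .e 10000 .c 10000 .e 10000 .nil)) (.leaf (.cons .c .d .d .d 10000 .c 10000 .e 10000 .nil))) .nil (.node (.leaf (.cons .c .d .c .e 10000 .c 10000 .e 10000 .nil)) (.leaf (.cons .c .d .c .e 10000 .c 10000 .e 10000 .nil)) .nil (.leaf (.cons .c .d .c .e 10000 .c 10000 .e 10000 .nil)) (.leaf (.cons .c .d .c .d 10000 .c 10000 .e 10000 .nil))) (.node (.leaf (.cons .c .d .d .e 10000 .c 10000 .e 10000 .nil)) (.leaf (.cons .c .d .d .e 10000 .c 10000 .e 10000 .nil)) (.leaf (.cons .c .d .d .d 10000 .c 10000 .e 10000 .nil)) .nil (.leaf (.cons .c .d .d .d 10000 .c 10000 .e 10000 .nil))) (.node (.leaf (.cons .c .d .c .e 10000 .c 10000 .e 10000 .nil)) (.leaf (.cons .c .d .c .e 10000 .c 10000 .e 10000 .nil)) (.leaf (.cons .c .d .c .d 10000 .c 10000 .e 10000 .nil)) (.leaf (.cons .c .d .c .e 10000 .c 10000 .e 10000 .nil)) .nil))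 .nil (.node (.node .nil (.leaf (.cons .c .c .d .e 10000 .c 10000 .e 10000 .nil)) (.leaf (.cons .c .c .d .d 10000 .c 10000 .e 10000 .nil)) (.leaf (.cons .c .c .d .e 10000 .c 10000 .e 10000 .nil)) (.leaf (.cons .c .c .d .d 10000 .c 10000 .e 10000 .nil))) .nil (.node (.leaf (.cons .c .c .c .e 10000 .c 10000 .e 10000 .nil)) (.leaf (.cons .c .c .c .e 10000 .c 10000 .e 10000 .nil)) .nil (.leaf (.cons .c .c .c .e 10000 .c 10000 .e 10000 .nil)) (.leaf (.cons .c .c .c .d 10000 .c 10000 .e 10000 .nil))) .nil (.node (.leaf (.cons .c .c .c .e 10000 .c 10000 .e 10000 .nil)) (.leaf (.cons .c .c .c .e 10000 .c 10000 .e 10000 .nil)) (.leaf (.cons .c .c .c .d 10000 .c 10000 .e 10000 .nil)) (.leaf (.cons .c .c .c .e 10000 .c 10000 .e 10000 .nil)) .nil)) (.node .nil .nil (.node (.leaf (.cons .c .d .c .e 10000 .c 10000 .e 10000 .nil)) (.leaf (.cons .c .d .c .e 10000 .c 10000 .e 10000 .nil)) .nil (.leaf (.cons .c .d .c .e 10000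 .c 10000 .e 10000 .nil)) (.leaf (.cons .c .d .c .d 10000 .c 10000 .e 10000 .nil))) (.node (.leaf (.cons .c .d .d .e 10000 .c 10000 .e 10000 .nil)) (.leaf (.cons .c .d .d .e 10000 .c 10000 .e 10000 .nil)) (.leaf (.cons .c .d .d .d 10000 .c 10000 .e 10000 .nil)) .nil (.leaf (.cons .c .d .d .d 10000 .c 10000 .e 10000 .nil))) (.node (.leaf (.cons .c .d .c .e 10000 .c 10000 .e 10000 .nil)) (.leaf (.cons .c .d .c .e 10000 .c 10000 .e 10000 .nil)) (.leaf (.cons .c .d .c .d 10000 .c 10000 .e 10000 .nil)) (.leaf (.cons .c .d .c .e 10000 .c 10000 .e 10000 .nil)) .nil)) (.node (.node .nil (.leaf (.cons .c .c .d .e 10000 .c 10000 .e 10000 .nil)) (.leaf (.cons .c .c .d .d 10000 .c 10000 .e 10000 .nil)) (.leaf (.cons .c .c .d .e 10000 .c 10000 .e 10000 .nil)) (.leaf (.cons .c .c .d .d 10000 .c 10000 .e 10000 .nil))) .nil (.node (.leaf (.cons .c .c .c .e 10000 .c 10000 .e 10000 .nil)) (.leaf (.cons .c .c .c .e 10000 .c 10000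 .e 10000 .nil)) .nil (.leaf (.cons .c .c .c .e 10000 .c 10000 .e 10000 .nil)) (.leaf (.cons .c .c .c .d 10000 .c 10000 .e 10000 .nil))) (.node (.leaf (.cons .c .c .d .e 10000 .c 10000 .e 10000 .nil)) (.leaf (.cons .c .c .d .e 10000 .c 10000 .e 10000 .nil)) (.leaf (.cons .c .c .d .d 10000 .c 10000 .e 10000 .nil)) .nil (.leaf (.cons .c .c .d .d 10000 .c 10000 .e 10000 .nil))) (.node (.leaf (.cons .c .c .c .e 10000 .c 10000 .e 10000 .nil)) (.leaf (.cons .c .c .c .e 10000 .c 10000 .e 10000 .nil)) (.leaf (.cons .c .c .c .d 10000 .c 10000 .e 10000 .nil)) (.leaf (.cons .c .c .c .e 10000 .c 10000 .e 10000 .nil)) .nil))) (.node (.node (.node .nil (.leaf (.cons .c .d .d .e 10000 .d 10000 .e 10000 .nil)) (.leaf (.cons .c .d .d .e 10000 .d 10000 .e 10000 .nil)) (.leaf (.cons .c .d .d .d 10000 .d 10000 .e 10000 .nil)) (.leaf (.cons .c .d .d .d 10000 .d 10000 .e 10000 .nil))) (.node (.leaf (.cons .c .d .d .e 10000 .d 10000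 .e 10000 .nil)) .nil (.leaf (.cons .c .d .d .e 10000 .d 10000 .e 10000 .nil)) (.leaf (.cons .c .d .d .d 10000 .d 10000 .e 10000 (.cons .b .d .d .e 10000 .c 10000 .e 10000 .nil))) (.leaf (.cons .c .d .d .d 10000 .d 10000 .e 10000 (.cons .b .d .d .e 10000 .c 10000 .d 10000 .nil)))) .nil (.node (.leaf (.cons .b .d .d .e 10000 .c 10000 .e 10000 .nil)) (.leaf (.cons .c .d .c .e 10000 .d 10000 .e 10000 .nil)) (.leaf (.cons .c .d .c .e 10000 .d 10000 .e 10000 .nil)) .nil (.leaf (.cons .c .d .c .d 10000 .d 10000 .e 10000 (.cons .b .d .c .e 10000 .c 10000 .d 10000 .nil)))) (.node (.leaf (.cons .c .d .c .e 10000 .d 10000 .e 10000 (.cons .b .d .d .e 10000 .c 10000 .d 10000 .nil))) (.leaf (.cons .c .d .c .e 10000 .d 10000 .e 10000 .nil)) (.leaf (.cons .c .d .c .e 10000 .d 10000 .e 10000 .nil)) (.leaf (.cons .b .d .c .e 10000 .c 10000 .e 10000 .nil)) .nil)) (.node (.node .nil (.leaf (.cons .c .d .d .e 10000 .d 10000 .e 10000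 .nil)) (.leaf (.cons .c .d .d .e 10000 .d 10000 .e 10000 .nil)) (.leaf (.cons .c .d .d .d 10000 .d 10000 .e 10000 .nil)) (.leaf (.cons .c .d .d .d 10000 .d 10000 .e 10000 .nil))) (.node (.leaf (.cons .c .d .d .e 10000 .d 10000 .e 10000 .nil)) .nil (.leaf (.cons .c .d .d .e 10000 .d 10000 .e 10000 .nil)) (.leaf (.cons .c .d .d .d 10000 .d 10000 .e 10000 (.cons .b .d .d .e 10000 .c 10000 .e 10000 .nil))) (.leaf (.cons .c .d .d .d 10000 .d 10000 .e 10000 (.cons .b .d .d .e 10000 .c 10000 .d 10000 .nil)))) .nil (.node (.leaf (.cons .b .d .d .e 10000 .c 10000 .e 10000 .nil)) (.leaf (.cons .b .d .d .e 10000 .c 10000 .e 10000 .nil)) (.leaf (.cons .c .d .b .e 10000 .d 10000 .e 10000 .nil)) .nil (.leaf (.cons .b .d .d .d 10000 .c 10000 .e 10000 (.cons .b .d .b .e 10000 .c 10000 .d 10000 .nil)))) (.node (.leaf (.cons .b .d .d .e 10000 .c 10000 .d 10000 .nil)) (.leaf (.cons .b .d .d .e 10000 .c 10000 .d 10000 .nil)) (.leaf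 (.cons .c .d .b .e 10000 .d 10000 .e 10000 .nil)) (.leaf (.cons .b .d .d .d 10000 .c 10000 .d 10000 (.cons .b .d .b .e 10000 .c 10000 .e 10000 .nil))) .nil)) .nil (.node .nil (.node (.leaf (.cons .b .d .d .e 10000 .c 10000 .e 10000 .nil)) .nil (.leaf (.cons .c .b .d .e 10000 .d 10000 .e 10000 .nil)) (.leaf (.cons .b .d .d .e 10000 .c 10000 .e 10000 .nil)) (.leaf (.cons .b .d .d .c 10000 .c 10000 .e 10000 (.cons .b .b .d .e 10000 .c 10000 .d 10000 .nil)))) .nil (.node (.leaf (.cons .b .d .d .e 10000 .c 10000 .e 10000 .nil)) (.leaf (.cons .b .d .d .e 10000 .c 10000 .e 10000 .nil)) (.leaf (.cons .b .d .d .d 10000 .c 10000 .e 10000 (.cons .c .b .c .e 10000 .d 10000 .e 10000 .nil))) .nil (.leaf (.cons .b .d .d .d 10000 .c 10000 .e 10000 (.cons .b .b .c .e 10000 .c 10000 .d 10000 .nil)))) (.node (.leaf (.cons .b .d .c .e 10000 .c 10000 .e 10000 (.cons .b .b .d .e 10000 .c 10000 .d 10000 .nil))) (.leaf (.cons .b .d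 .c .e 10000 .c 10000 .e 10000 .nil)) (.leaf (.cons .c .b .c .e 10000 .d 10000 .e 10000 .nil)) (.leaf (.cons .b .d .c .e 10000 .c 10000 .e 10000 .nil)) .nil)) (.node (.node .nil (.leaf (.cons .b .d .d .e 10000 .c 10000 .d 10000 .nil)) (.leaf (.cons .c .c .d .e 10000 .d 10000 .e 10000 .nil)) (.leaf (.cons .c .c .d .d 10000 .d 10000 .e 10000 .nil)) (.leaf (.cons .b .d .d .e 10000 .c 10000 .d 10000 .nil))) (.node (.leaf (.cons .c .c .d .e 10000 .d 10000 .e 10000 .nil)) .nil (.leaf (.cons .c .c .d .e 10000 .d 10000 .e 10000 .nil)) (.leaf (.cons .b .c .d .e 10000 .c 10000 .e 10000 .nil)) (.leaf (.cons .b .d .d .e 10000 .c 10000 .d 10000 .nil))) .nil (.node (.leaf (.cons .c .c .c .e 10000 .d 10000 .e 10000 (.cons .b .c .d .e 10000 .c 10000 .e 10000 .nil))) (.leaf (.cons .c .c .c .e 10000 .d 10000 .e 10000 .nil)) (.leaf (.cons .c .c .c .e 10000 .d 10000 .e 10000 .nil)) .nil (.leaf (.cons .b .d .c .e 10000 .c 10000 .d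 10000 .nil))) (.node (.leaf (.cons .b .d .d .e 10000 .c 10000 .d 10000 .nil)) (.leaf (.cons .b .d .d .e 10000 .c 10000 .d 10000 .nil)) (.leaf (.cons .c .c .c .e 10000 .d 10000 .e 10000 .nil)) (.leaf (.cons .b .d .d .d 10000 .c 10000 .d 10000 (.cons .b .c .c .e 10000 .c 10000 .e 10000 .nil))) .nil))) .nil (.node (.node (.node .nil (.leaf (.cons .c .d .d .e 10000 .c 10000 .d 10000 .nil)) (.leaf (.cons .c .d .d .d 10000 .c 10000 .d 10000 .nil)) (.leaf (.cons .c .d .d .d 10000 .c 10000 .d 10000 .nil)) (.leaf (.cons .c .d .d .e 10000 .c 10000 .d 10000 .nil))) (.node (.leaf (.cons .c .d .d .e 10000 .c 10000 .d 10000 .nil)) .nil (.leaf (.cons .c .d .d .d 10000 .c 10000 .d 10000 .nil)) (.leaf (.cons .c .d .d .d 10000 .c 10000 .d 10000 .nil)) (.leaf (.cons .c .d .d .e 10000 .c 10000 .d 10000 .nil))) (.node (.leaf (.cons .c .d .c .e 10000 .c 10000 .d 10000 (.cons .b .d .d .e 10000 .d 10000 .e 10000 .nil))) (.leaf (.cons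 .c .d .c .e 10000 .c 10000 .d 10000 .nil)) .nil (.leaf (.cons .b .d .c .e 10000 .c 10000 .e 10000 .nil)) (.leaf (.cons .c .d .c .e 10000 .c 10000 .d 10000 .nil))) (.node (.leaf (.cons .c .d .c .e 10000 .c 10000 .d 10000 (.cons .b .d .d .e 10000 .c 10000 .e 10000 .nil))) (.leaf (.cons .c .d .c .e 10000 .c 10000 .d 10000 .nil)) (.leaf (.cons .c .d .c .d 10000 .c 10000 .d 10000 (.cons .b .d .c .e 10000 .d 10000 .e 10000 .nil))) .nil (.leaf (.cons .c .d .c .e 10000 .c 10000 .d 10000 .nil))) .nil) (.node (.node .nil (.leaf (.cons .c .d .d .e 10000 .c 10000 .d 10000 .nil)) (.leaf (.cons .c .d .d .d 10000 .c 10000 .d 10000 .nil)) (.leaf (.cons .c .d .d .d 10000 .c 10000 .d 10000 .nil)) (.leaf (.cons .c .d .d .e 10000 .c 10000 .d 10000 .nil))) (.node (.leaf (.cons .c .d .d .e 10000 .c 10000 .d 10000 .nil)) .nil (.leaf (.cons .c .d .d .d 10000 .c 10000 .d 10000 .nil)) (.leaf (.cons .c .d .d .d 10000 .c 10000 .d 10000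 .nil)) (.leaf (.cons .c .d .d .e 10000 .c 10000 .d 10000 .nil))) (.node (.leaf (.cons .b .d .d .e 10000 .d 10000 .e 10000 .nil)) (.leaf (.cons .b .d .d .e 10000 .d 10000 .e 10000 .nil)) .nil (.leaf (.cons .b .d .d .d 10000 .d 10000 .e 10000 .nil)) (.leaf (.cons .c .d .b .e 10000 .c 10000 .d 10000 .nil))) (.node (.leaf (.cons .b .d .d .e 10000 .c 10000 .e 10000 .nil)) (.leaf (.cons .b .d .d .e 10000 .c 10000 .e 10000 .nil)) (.leaf (.cons .b .d .d .d 10000 .c 10000 .e 10000 .nil)) .nil (.leaf (.cons .c .d .b .e 10000 .c 10000 .d 10000 .nil))) .nil) (.node (.node .nil (.leaf (.cons .b .d .d .e 10000 .d 10000 .e 10000 .nil)) (.leaf (.cons .b .d .d .e 10000 .d 10000 .e 10000 .nil)) (.leaf (.cons .c .c .d .d 10000 .c 10000 .d 10000 .nil)) (.leaf (.cons .c .c .d .e 10000 .c 10000 .d 10000 .nil))) (.node (.leaf (.cons .c .c .d .e 10000 .c 10000 .d 10000 .nil)) .nil (.leaf (.cons .b .d .d .e 10000 .d 10000 .e 10000 .nil))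 (.leaf (.cons .b .c .d .e 10000 .c 10000 .e 10000 .nil)) (.leaf (.cons .c .c .d .e 10000 .c 10000 .d 10000 .nil))) (.node (.leaf (.cons .b .d .d .e 10000 .d 10000 .e 10000 .nil)) (.leaf (.cons .b .d .d .e 10000 .d 10000 .e 10000 .nil)) .nil (.leaf (.cons .b .d .d .d 10000 .d 10000 .e 10000 (.cons .b .c .c .e 10000 .c 10000 .e 10000 .nil))) (.leaf (.cons .c .c .c .e 10000 .c 10000 .d 10000 .nil))) (.node (.leaf (.cons .b .c .d .e 10000 .c 10000 .e 10000 .nil)) (.leaf (.cons .b .c .d .e 10000 .c 10000 .e 10000 .nil)) (.leaf (.cons .b .d .b .e 10000 .d 10000 .e 10000 .nil)) .nil (.leaf (.cons .c .c .b .e 10000 .c 10000 .d 10000 .nil))) .nil) (.node .nil (.node (.leaf (.cons .c .c .d .e 10000 .c 10000 .d 10000 .nil)) .nil (.leaf (.cons .b .c .d .e 10000 .d 10000 .e 10000 .nil)) (.leaf (.cons .b .d .d .e 10000 .c 10000 .e 10000 .nil)) (.leaf (.cons .c .c .d .e 10000 .c 10000 .d 10000 .nil))) (.node (.leaf (.cons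 .c .c .c .e 10000 .c 10000 .d 10000 (.cons .b .c .d .e 10000 .d 10000 .e 10000 .nil))) (.leaf (.cons .c .c .c .e 10000 .c 10000 .d 10000 .nil)) .nil (.leaf (.cons .b .d .c .e 10000 .c 10000 .e 10000 .nil)) (.leaf (.cons .c .c .c .e 10000 .c 10000 .d 10000 .nil))) (.node (.leaf (.cons .b .d .d .e 10000 .c 10000 .e 10000 .nil)) (.leaf (.cons .b .d .d .e 10000 .c 10000 .e 10000 .nil)) (.leaf (.cons .b .d .d .d 10000 .c 10000 .e 10000 .nil)) .nil (.leaf (.cons .c .c .c .e 10000 .c 10000 .d 10000 .nil))) .nil) .nil))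

def tbcdb : Tr := (.node (.node .nil (.node .nil (.node (.leaf (.cons .c .d .d .e 10000 .c 10000 .d 10000 .nil)) .nil (.leaf (.cons .c .d .d .e 10000 .d 10000 .e 10000 .nil)) (.leaf (.cons .c .d .d .e 10000 .c 10000 .e 10000 .nil)) (.leaf (.cons .c .d .d .e 10000 .c 10000 .d 10000 .nil))) (.node (.leaf (.cons .c .d .d .e 10000 .d 10000 .e 10000 .nil)) (.leaf (.cons .c .d .d .e 10000 .d 10000 .e 10000 .nil)) .nil (.leaf (.cons .c .d .d .d 10000 .d 10000 .e 10000 (.cons .c .d .c .e 10000 .c 10000 .e 10000 .nil))) (.leaf (.cons .c .d .d .d 10000 .d 10000 .e 10000 (.cons .c .d .c .e 10000 .c 10000 .d 10000 .nil)))) (.node (.leaf (.cons .c .d .d .e 10000 .c 10000 .e 10000 .nil)) (.leaf (.cons .c .d .d .e 10000 .c 10000 .e 10000 .nil)) (.leaf (.cons .c .d .d .d 10000 .c 10000 .e 10000 .nil)) .nil (.leaf (.cons .c .d .d .d 10000 .c 10000 .e 10000 (.cons .c .d .c .e 10000 .c 10000 .d 10000 .nil)))) (.node (.leaf (.cons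 .c .d .d .e 10000 .c 10000 .d 10000 .nil)) (.leaf (.cons .c .d .d .e 10000 .c 10000 .d 10000 .nil)) (.leaf (.cons .c .d .d .d 10000 .c 10000 .d 10000 (.cons .c .d .c .e 10000 .d 10000 .e 10000 .nil))) (.leaf (.cons .c .d .d .d 10000 .c 10000 .d 10000 (.cons .c .d .c .e 10000 .c 10000 .e 10000 .nil))) .nil)) (.node .nil (.node (.leaf (.cons .c .d .d .e 10000 .d 10000 .e 10000 .nil)) .nil (.leaf (.cons .c .d .d .e 10000 .d 10000 .e 10000 .nil)) (.leaf (.cons .c .c .d .e 10000 .c 10000 .e 10000 .nil)) (.leaf (.cons .c .c .d .e 10000 .c 10000 .d 10000 .nil))) (.node (.leaf (.cons .c .d .d .e 10000 .d 10000 .e 10000 .nil)) (.leaf (.cons .c .d .d .e 10000 .d 10000 .e 10000 .nil)) .nil (.leaf (.cons .c .d .d .d 10000 .d 10000 .e 10000 (.cons .c .c .c .e 10000 .c 10000 .e 10000 .nil))) (.leaf (.cons .c .c .c .e 10000 .c 10000 .d 10000 .nil))) (.node (.leaf (.cons .c .c .d .e 10000 .c 10000 .e 10000 .nil)) (.leaf (.cons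 .c .c .d .e 10000 .c 10000 .e 10000 .nil)) (.leaf (.cons .c .d .b .e 10000 .d 10000 .e 10000 .nil)) .nil (.leaf (.cons .c .c .d .d 10000 .c 10000 .e 10000 (.cons .c .c .b .e 10000 .c 10000 .d 10000 .nil)))) (.node (.leaf (.cons .c .c .d .e 10000 .c 10000 .d 10000 .nil)) (.leaf (.cons .c .d .c .e 10000 .d 10000 .e 10000 .nil)) (.leaf (.cons .c .d .c .e 10000 .d 10000 .e 10000 .nil)) (.leaf (.cons .c .d .c .d 10000 .d 10000 .e 10000 (.cons .c .c .c .e 10000 .c 10000 .e 10000 .nil))) .nil)) (.node .nil .nil (.node (.leaf (.cons .c .c .d .e 10000 .d 10000 .e 10000 .nil)) (.leaf (.cons .c .d .c .e 10000 .c 10000 .e 10000 .nil)) .nil (.leaf (.cons .c .d .c .e 10000 .c 10000 .e 10000 .nil)) (.leaf (.cons .c .d .c .d 10000 .c 10000 .e 10000 (.cons .c .c .c .e 10000 .c 10000 .d 10000 .nil)))) (.node (.leaf (.cons .c .d .d .e 10000 .c 10000 .e 10000 .nil)) (.leaf (.cons .c .d .d .e 10000 .c 10000 .e 10000 .nil)) (.leaf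 (.cons .c .d .d .d 10000 .c 10000 .e 10000 .nil)) .nil (.leaf (.cons .c .c .c .e 10000 .c 10000 .d 10000 .nil))) (.node (.leaf (.cons .c .c .d .e 10000 .c 10000 .d 10000 .nil)) (.leaf (.cons .c .d .c .e 10000 .c 10000 .e 10000 .nil)) (.leaf (.cons .c .d .c .d 10000 .c 10000 .e 10000 (.cons .c .c .c .e 10000 .d 10000 .e 10000 .nil))) (.leaf (.cons .c .d .c .e 10000 .c 10000 .e 10000 .nil)) .nil)) (.node .nil (.node (.leaf (.cons .c .d .d .e 10000 .c 10000 .d 10000 .nil)) .nil (.leaf (.cons .c .c .d .e 10000 .d 10000 .e 10000 .nil)) (.leaf (.cons .c .c .d .e 10000 .c 10000 .e 10000 .nil)) (.leaf (.cons .c .d .d .e 10000 .c 10000 .d 10000 .nil))) (.node (.leaf (.cons .c .c .d .e 10000 .d 10000 .e 10000 .nil)) (.leaf (.cons .c .d .c .e 10000 .c 10000 .d 10000 .nil)) .nil (.leaf (.cons .c .c .c .e 10000 .c 10000 .e 10000 .nil)) (.leaf (.cons .c .d .c .e 10000 .c 10000 .d 10000 .nil))) (.node (.leaf (.cons .c .d .c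 .e 10000 .c 10000 .d 10000 (.cons .c .c .d .e 10000 .c 10000 .e 10000 .nil))) (.leaf (.cons .c .d .c .e 10000 .c 10000 .d 10000 .nil)) (.leaf (.cons .c .d .c .d 10000 .c 10000 .d 10000 .nil)) .nil (.leaf (.cons .c .d .c .e 10000 .c 10000 .d 10000 .nil))) (.node (.leaf (.cons .c .d .d .e 10000 .c 10000 .d 10000 .nil)) (.leaf (.cons .c .d .d .e 10000 .c 10000 .d 10000 .nil)) (.leaf (.cons .c .c .c .e 10000 .d 10000 .e 10000 .nil)) (.leaf (.cons .c .d .d .d 10000 .c 10000 .d 10000 (.cons .c .c .c .e 10000 .c 10000 .e 10000 .nil))) .nil))) (.node (.node (.node .nil (.leaf (.cons .c .d .d .e 10000 .c 10000 .d 10000 .nil)) (.leaf (.cons .c .d .d .e 10000 .d 10000 .e 10000 .nil)) (.leaf (.cons .c .d .d .e 10000 .c 10000 .e 10000 .nil)) (.leaf (.cons .c .d .d .e 10000 .c 10000 .d 10000 .nil))) .nil (.node (.leaf (.cons .c .d .d .e 10000 .d 10000 .e 10000 .nil)) (.leaf (.cons .c .d .d .e 10000 .d 10000 .e 10000 .nil))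 .nil (.leaf (.cons .c .d .c .e 10000 .c 10000 .e 10000 .nil)) (.leaf (.cons .c .d .c .e 10000 .c 10000 .d 10000 .nil))) (.node (.leaf (.cons .c .d .d .e 10000 .c 10000 .e 10000 .nil)) (.leaf (.cons .c .d .d .e 10000 .c 10000 .e 10000 .nil)) (.leaf (.cons .c .d .c .e 10000 .d 10000 .e 10000 .nil)) .nil (.leaf (.cons .c .d .c .e 10000 .c 10000 .d 10000 .nil))) (.node (.leaf (.cons .c .d .d .e 10000 .c 10000 .d 10000 .nil)) (.leaf (.cons .c .d .d .e 10000 .c 10000 .d 10000 .nil)) (.leaf (.cons .c .d .c .e 10000 .d 10000 .e 10000 .nil)) (.leaf (.cons .c .d .d .d 10000 .c 10000 .d 10000 (.cons .c .d .c .e 10000 .c 10000 .e 10000 .nil))) .nil)) .nil (.node (.node .nil (.leaf (.cons .c .d .d .e 10000 .d 10000 .e 10000 .nil)) (.leaf (.cons .c .d .d .e 10000 .d 10000 .e 10000 .nil)) (.leaf (.cons .c .d .d .d 10000 .d 10000 .e 10000 .nil)) (.leaf (.cons .c .d .d .d 10000 .d 10000 .e 10000 .nil))) .nil (.node (.leaf (.cons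 .c .d .d .e 10000 .d 10000 .e 10000 .nil)) (.leaf (.cons .c .d .d .e 10000 .d 10000 .e 10000 .nil)) .nil (.leaf (.cons .c .d .d .d 10000 .d 10000 .e 10000 (.cons .c .c .c .e 10000 .c 10000 .e 10000 .nil))) (.leaf (.cons .c .d .d .d 10000 .d 10000 .e 10000 (.cons .c .c .c .e 10000 .c 10000 .d 10000 .nil)))) .nil (.node (.leaf (.cons .c .d .c .e 10000 .d 10000 .e 10000 (.cons .c .c .d .e 10000 .c 10000 .d 10000 .nil))) (.leaf (.cons .c .d .c .e 10000 .d 10000 .e 10000 .nil)) (.leaf (.cons .c .d .c .e 10000 .d 10000 .e 10000 .nil)) (.leaf (.cons .c .d .c .d 10000 .d 10000 .e 10000 (.cons .c .c .c .e 10000 .c 10000 .e 10000 .nil))) .nil)) (.node (.node .nil (.leaf (.cons .c .d .d .e 10000 .c 10000 .e 10000 .nil)) (.leaf (.cons .c .d .d .d 10000 .c 10000 .e 10000 .nil)) (.leaf (.cons .c .d .d .e 10000 .c 10000 .e 10000 .nil)) (.leaf (.cons .c .d .d .d 10000 .c 10000 .e 10000 .nil))) .nil (.node (.leaf (.cons .c .c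 .d .e 10000 .d 10000 .e 10000 .nil)) (.leaf (.cons .c .d .c .e 10000 .c 10000 .e 10000 .nil)) .nil (.leaf (.cons .c .d .c .e 10000 .c 10000 .e 10000 .nil)) (.leaf (.cons .c .d .c .d 10000 .c 10000 .e 10000 (.cons .c .c .c .e 10000 .c 10000 .d 10000 .nil)))) (.node (.leaf (.cons .c .d .d .e 10000 .c 10000 .e 10000 .nil)) (.leaf (.cons .c .d .d .e 10000 .c 10000 .e 10000 .nil)) (.leaf (.cons .c .d .d .d 10000 .c 10000 .e 10000 (.cons .c .c .c .e 10000 .d 10000 .e 10000 .nil))) .nil (.leaf (.cons .c .d .d .d 10000 .c 10000 .e 10000 (.cons .c .c .c .e 10000 .c 10000 .d 10000 .nil)))) (.node (.leaf (.cons .c .c .d .e 10000 .c 10000 .d 10000 .nil)) (.leaf (.cons .c .d .c .e 10000 .c 10000 .e 10000 .nil)) (.leaf (.cons .c .d .c .d 10000 .c 10000 .e 10000 .nil)) (.leaf (.cons .c .d .c .e 10000 .c 10000 .e 10000 .nil)) .nil)) (.node (.node .nil (.leaf (.cons .c .d .d .e 10000 .c 10000 .d 10000 .nil)) (.leaf (.cons .c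 .d .d .d 10000 .c 10000 .d 10000 .nil)) (.leaf (.cons .c .d .d .d 10000 .c 10000 .d 10000 .nil)) (.leaf (.cons .c .d .d .e 10000 .c 10000 .d 10000 .nil))) .nil (.node (.leaf (.cons .c .d .c .e 10000 .c 10000 .d 10000 (.cons .c .c .d .e 10000 .d 10000 .e 10000 .nil))) (.leaf (.cons .c .d .c .e 10000 .c 10000 .d 10000 .nil)) .nil (.leaf (.cons .c .c .c .e 10000 .c 10000 .e 10000 .nil)) (.leaf (.cons .c .d .c .e 10000 .c 10000 .d 10000 .nil))) (.node (.leaf (.cons .c .d .c .e 10000 .c 10000 .d 10000 (.cons .c .c .d .e 10000 .c 10000 .e 10000 .nil))) (.leaf (.cons .c .d .c .e 10000 .c 10000 .d 10000 .nil)) (.leaf (.cons .c .d .c .d 10000 .c 10000 .d 10000 (.cons .c .c .c .e 10000 .d 10000 .e 10000 .nil))) .nil (.leaf (.cons .c .d .c .e 10000 .c 10000 .d 10000 .nil))) (.node (.leaf (.cons .c .d .d .e 10000 .c 10000 .d 10000 .nil)) (.leaf (.cons .c .d .d .e 10000 .c 10000 .d 10000 .nil)) (.leaf (.cons .c .d .d .d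 10000 .c 10000 .d 10000 .nil)) (.leaf (.cons .c .d .d .d 10000 .c 10000 .d 10000 .nil)) .nil))) .nil .nil (.node (.node (.node .nil (.leaf (.cons .c .d .d .e 10000 .c 10000 .d 10000 .nil)) (.leaf (.cons .c .d .d .d 10000 .c 10000 .d 10000 .nil)) (.leaf (.cons .c .d .d .d 10000 .c 10000 .d 10000 .nil)) (.leaf (.cons .c .d .d .e 10000 .c 10000 .d 10000 .nil))) (.node (.leaf (.cons .c .d .d .e 10000 .c 10000 .d 10000 .nil)) .nil (.leaf (.cons .c .d .d .d 10000 .c 10000 .d 10000 .nil)) (.leaf (.cons .c .d .d .d 10000 .c 10000 .d 10000 .nil)) (.leaf (.cons .c .d .d .e 10000 .c 10000 .d 10000 .nil))) (.node (.leaf (.cons .c .d .c .e 10000 .c 10000 .d 10000 (.cons .a .d .d .e 10000 .d 10000 .e 10000 .nil))) (.leaf (.cons .c .d .c .e 10000 .c 10000 .d 10000 .nil)) .nil (.leaf (.cons .a .d .c .e 10000 .c 10000 .e 10000 .nil)) (.leaf (.cons .c .d .c .e 10000 .c 10000 .d 10000 .nil))) (.node (.leaf (.cons .c .d .c .e 10000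 .c 10000 .d 10000 (.cons .a .d .d .e 10000 .c 10000 .e 10000 .nil))) (.leaf (.cons .c .d .c .e 10000 .c 10000 .d 10000 .nil)) (.leaf (.cons .c .d .c .d 10000 .c 10000 .d 10000 (.cons .a .d .c .e 10000 .d 10000 .e 10000 .nil))) .nil (.leaf (.cons .c .d .c .e 10000 .c 10000 .d 10000 .nil))) .nil) (.node (.node .nil (.leaf (.cons .c .d .d .e 10000 .c 10000 .d 10000 .nil)) (.leaf (.cons .c .d .d .d 10000 .c 10000 .d 10000 .nil)) (.leaf (.cons .c .d .d .d 10000 .c 10000 .d 10000 .nil)) (.leaf (.cons .c .d .d .e 10000 .c 10000 .d 10000 .nil))) (.node (.leaf (.cons .c .d .d .e 10000 .c 10000 .d 10000 .nil)) .nil (.leaf (.cons .c .d .d .d 10000 .c 10000 .d 10000 .nil)) (.leaf (.cons .c .d .d .d 10000 .c 10000 .d 10000 .nil)) (.leaf (.cons .c .d .d .e 10000 .c 10000 .d 10000 .nil))) (.node (.leaf (.cons .a .d .d .e 10000 .d 10000 .e 10000 .nil)) (.leaf (.cons .c .d .b .e 10000 .c 10000 .d 10000 .nil)) .nil (.leaf (.cons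 .a .d .b .e 10000 .c 10000 .e 10000 .nil)) (.leaf (.cons .c .d .b .e 10000 .c 10000 .d 10000 .nil))) (.node (.leaf (.cons .a .d .d .e 10000 .c 10000 .e 10000 .nil)) (.leaf (.cons .c .d .b .e 10000 .c 10000 .d 10000 .nil)) (.leaf (.cons .c .d .b .d 10000 .c 10000 .d 10000 .nil)) .nil (.leaf (.cons .c .d .b .e 10000 .c 10000 .d 10000 .nil))) .nil) (.node (.node .nil (.leaf (.cons .a .d .d .e 10000 .d 10000 .e 10000 .nil)) (.leaf (.cons .c .c .d .d 10000 .c 10000 .d 10000 .nil)) (.leaf (.cons .c .c .d .d 10000 .c 10000 .d 10000 .nil)) (.leaf (.cons .c .c .d .e 10000 .c 10000 .d 10000 .nil))) (.node (.leaf (.cons .c .c .d .e 10000 .c 10000 .d 10000 .nil)) .nil (.leaf (.cons .c .c .d .d 10000 .c 10000 .d 10000 .nil)) (.leaf (.cons .c .c .d .c 10000 .c 10000 .d 10000 .nil)) (.leaf (.cons .c .c .d .e 10000 .c 10000 .d 10000 .nil))) (.node (.leaf (.cons .c .c .c .e 10000 .c 10000 .d 10000 (.cons .a .d .d .e 10000 .d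 10000 .e 10000 .nil))) (.leaf (.cons .c .c .c .e 10000 .c 10000 .d 10000 .nil)) .nil (.leaf (.cons .c .c .c .d 10000 .c 10000 .d 10000 (.cons .a .c .c .e 10000 .c 10000 .e 10000 .nil))) (.leaf (.cons .c .c .c .e 10000 .c 10000 .d 10000 .nil))) (.node (.leaf (.cons .c .c .b .e 10000 .c 10000 .d 10000 (.cons .a .c .d .e 10000 .c 10000 .e 10000 .nil))) (.leaf (.cons .c .c .b .e 10000 .c 10000 .d 10000 .nil)) (.leaf (.cons .c .c .b .d 10000 .c 10000 .d 10000 (.cons .a .d .b .e 10000 .d 10000 .e 10000 .nil))) .nil (.leaf (.cons .c .c .b .e 10000 .c 10000 .d 10000 .nil))) .nil) (.node (.node .nil (.leaf (.cons .a .d .d .e 10000 .c 10000 .e 10000 .nil)) (.leaf (.cons .c .c .d .d 10000 .c 10000 .d 10000 .nil)) (.leaf (.cons .c .c .d .d 10000 .c 10000 .d 10000 .nil)) (.leaf (.cons .c .c .d .e 10000 .c 10000 .d 10000 .nil))) .nil (.node (.leaf (.cons .c .c .c .e 10000 .c 10000 .d 10000 (.cons .a .c .d .e 10000 .d 10000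 .e 10000 .nil))) (.leaf (.cons .c .c .c .e 10000 .c 10000 .d 10000 .nil)) .nil (.leaf (.cons .c .c .c .d 10000 .c 10000 .d 10000 (.cons .a .d .c .e 10000 .c 10000 .e 10000 .nil))) (.leaf (.cons .c .c .c .e 10000 .c 10000 .d 10000 .nil))) (.node (.leaf (.cons .c .c .c .e 10000 .c 10000 .d 10000 (.cons .a .d .d .e 10000 .c 10000 .e 10000 .nil))) (.leaf (.cons .c .c .c .e 10000 .c 10000 .d 10000 .nil)) (.leaf (.cons .c .c .c .d 10000 .c 10000 .d 10000 .nil)) .nil (.leaf (.cons .c .c .c .e 10000 .c 10000 .d 10000 .nil))) .nil) .nil))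

def tbcdc : Tr := (.node (.node .nil (.node .nil (.node (.leaf (.cons .c .d .d .e 10000 .c 10000 .d 10000 .nil)) .nil (.leaf (.cons .c .d .d .e 10000 .d 10000 .e 10000 .nil)) (.leaf (.cons .c .d .d .e 10000 .c 10000 .e 10000 .nil)) (.leaf (.cons .c .d .d .e 10000 .c 10000 .d 10000 .nil))) (.node (.leaf (.cons .c .d .d .e 10000 .d 10000 .e 10000 .nil)) (.leaf (.cons .c .d .d .e 10000 .d 10000 .e 10000 .nil)) .nil (.leaf (.cons .c .d .d .d 10000 .d 10000 .e 10000 .nil)) (.leaf (.cons .c .d .d .d 10000 .d 10000 .e 10000 .nil))) (.node (.leaf (.cons .c .d .d .e 10000 .c 10000 .e 10000 .nil)) (.leaf (.cons .c .d .d .e 10000 .c 10000 .e 10000 .nil)) (.leaf (.cons .c .d .d .d 10000 .c 10000 .e 10000 .nil)) .nil (.leaf (.cons .c .d .d .d 10000 .c 10000 .e 10000 (.cons .c .d .c .e 10000 .c 10000 .d 10000 .nil)))) (.node (.leaf (.cons .c .d .d .e 10000 .c 10000 .d 10000 .nil)) (.leaf (.cons .c .d .d .e 10000 .c 10000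 .d 10000 .nil)) (.leaf (.cons .c .d .d .d 10000 .c 10000 .d 10000 (.cons .c .d .c .e 10000 .d 10000 .e 10000 .nil))) (.leaf (.cons .c .d .c .e 10000 .c 10000 .e 10000 .nil)) .nil)) (.node .nil (.node (.leaf (.cons .c .d .d .e 10000 .d 10000 .e 10000 .nil)) .nil (.leaf (.cons .c .d .d .e 10000 .d 10000 .e 10000 .nil)) (.leaf (.cons .c .c .d .e 10000 .c 10000 .e 10000 .nil)) (.leaf (.cons .c .c .d .e 10000 .c 10000 .d 10000 .nil))) (.node (.leaf (.cons .c .d .d .e 10000 .d 10000 .e 10000 .nil)) (.leaf (.cons .c .d .d .e 10000 .d 10000 .e 10000 .nil)) .nil (.leaf (.cons .c .c .c .e 10000 .c 10000 .e 10000 .nil)) (.leaf (.cons .c .c .c .e 10000 .c 10000 .d 10000 .nil))) (.node (.leaf (.cons .c .c .d .e 10000 .c 10000 .e 10000 .nil)) (.leaf (.cons .c .c .d .e 10000 .c 10000 .e 10000 .nil)) (.leaf (.cons .c .d .b .e 10000 .d 10000 .e 10000 .nil)) .nil (.leaf (.cons .c .c .d .d 10000 .c 10000 .e 10000 (.cons .c .c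 .b .e 10000 .c 10000 .d 10000 .nil)))) (.node (.leaf (.cons .c .c .d .e 10000 .c 10000 .d 10000 .nil)) (.leaf (.cons .c .d .c .e 10000 .d 10000 .e 10000 .nil)) (.leaf (.cons .c .d .c .e 10000 .d 10000 .e 10000 .nil)) (.leaf (.cons .c .d .c .d 10000 .d 10000 .e 10000 (.cons .c .c .c .e 10000 .c 10000 .e 10000 .nil))) .nil)) (.node .nil (.node (.leaf (.cons .c .d .d .e 10000 .c 10000 .e 10000 .nil)) .nil (.leaf (.cons .c .c .d .e 10000 .d 10000 .e 10000 .nil)) (.leaf (.cons .c .d .d .e 10000 .c 10000 .e 10000 .nil)) (.leaf (.cons .c .c .d .e 10000 .c 10000 .d 10000 .nil))) .nil (.node (.leaf (.cons .c .d .d .e 10000 .c 10000 .e 10000 .nil)) (.leaf (.cons .c .d .d .e 10000 .c 10000 .e 10000 .nil)) (.leaf (.cons .c .d .d .d 10000 .c 10000 .e 10000 .nil)) .nil (.leaf (.cons .c .d .d .d 10000 .c 10000 .e 10000 (.cons .c .c .c .e 10000 .c 10000 .d 10000 .nil)))) (.node (.leaf (.cons .c .d .c .e 10000 .c 10000 .e 10000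 (.cons .c .c .d .e 10000 .c 10000 .d 10000 .nil))) (.leaf (.cons .c .d .c .e 10000 .c 10000 .e 10000 .nil)) (.leaf (.cons .c .d .c .d 10000 .c 10000 .e 10000 (.cons .c .c .c .e 10000 .d 10000 .e 10000 .nil))) (.leaf (.cons .c .d .c .e 10000 .c 10000 .e 10000 .nil)) .nil)) (.node .nil (.node (.leaf (.cons .c .d .d .e 10000 .c 10000 .d 10000 .nil)) .nil (.leaf (.cons .c .c .d .e 10000 .d 10000 .e 10000 .nil)) (.leaf (.cons .c .c .d .e 10000 .c 10000 .e 10000 .nil)) (.leaf (.cons .c .d .d .e 10000 .c 10000 .d 10000 .nil))) (.node (.leaf (.cons .c .d .c .e 10000 .c 10000 .d 10000 (.cons .c .c .d .e 10000 .d 10000 .e 10000 .nil))) (.leaf (.cons .c .d .c .e 10000 .c 10000 .d 10000 .nil)) .nil (.leaf (.cons .c .c .c .e 10000 .c 10000 .e 10000 .nil)) (.leaf (.cons .c .d .c .e 10000 .c 10000 .d 10000 .nil))) (.node (.leaf (.cons .c .c .d .e 10000 .c 10000 .e 10000 .nil)) (.leaf (.cons .c .d .c .e 10000 .c 10000 .d 10000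 .nil)) (.leaf (.cons .c .d .c .d 10000 .c 10000 .d 10000 .nil)) .nil (.leaf (.cons .c .d .c .e 10000 .c 10000 .d 10000 .nil))) (.node (.leaf (.cons .c .d .d .e 10000 .c 10000 .d 10000 .nil)) (.leaf (.cons .c .d .d .e 10000 .c 10000 .d 10000 .nil)) (.leaf (.cons .c .d .d .d 10000 .c 10000 .d 10000 (.cons .c .c .c .e 10000 .d 10000 .e 10000 .nil))) (.leaf (.cons .c .c .c .e 10000 .c 10000 .e 10000 .nil)) .nil))) (.node (.node (.node .nil (.leaf (.cons .c .d .d .e 10000 .c 10000 .d 10000 .nil)) (.leaf (.cons .c .d .d .e 10000 .d 10000 .e 10000 .nil)) (.leaf (.cons .c .d .d .e 10000 .c 10000 .e 10000 .nil)) (.leaf (.cons .c .d .d .e 10000 .c 10000 .d 10000 .nil))) .nil (.node (.leaf (.cons .c .d .d .e 10000 .d 10000 .e 10000 .nil)) (.leaf (.cons .c .d .d .e 10000 .d 10000 .e 10000 .nil)) .nil (.leaf (.cons .c .d .c .e 10000 .c 10000 .e 10000 .nil)) (.leaf (.cons .c .d .d .d 10000 .d 10000 .e 10000 (.cons .c .d .c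 .e 10000 .c 10000 .d 10000 .nil)))) (.node (.leaf (.cons .c .d .d .e 10000 .c 10000 .e 10000 .nil)) (.leaf (.cons .c .d .d .e 10000 .c 10000 .e 10000 .nil)) (.leaf (.cons .c .d .c .e 10000 .d 10000 .e 10000 .nil)) .nil (.leaf (.cons .c .d .c .e 10000 .c 10000 .d 10000 .nil))) (.node (.leaf (.cons .c .d .d .e 10000 .c 10000 .d 10000 .nil)) (.leaf (.cons .c .d .d .e 10000 .c 10000 .d 10000 .nil)) (.leaf (.cons .c .d .c .e 10000 .d 10000 .e 10000 .nil)) (.leaf (.cons .c .d .d .d 10000 .c 10000 .d 10000 (.cons .c .d .c .e 10000 .c 10000 .e 10000 .nil))) .nil)) .nil (.node (.node .nil (.leaf (.cons .c .d .d .e 10000 .d 10000 .e 10000 .nil)) (.leaf (.cons .c .d .d .e 10000 .d 10000 .e 10000 .nil)) (.leaf (.cons .c .d .d .d 10000 .d 10000 .e 10000 .nil)) (.leaf (.cons .c .d .d .d 10000 .d 10000 .e 10000 .nil))) .nil (.node (.leaf (.cons .c .d .d .e 10000 .d 10000 .e 10000 .nil)) (.leaf (.cons .c .d .d .e 10000 .d 10000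 .e 10000 .nil)) .nil (.leaf (.cons .c .d .d .d 10000 .d 10000 .e 10000 (.cons .c .c .c .e 10000 .c 10000 .e 10000 .nil))) (.leaf (.cons .c .d .d .d 10000 .d 10000 .e 10000 (.cons .c .c .c .e 10000 .c 10000 .d 10000 .nil)))) .nil (.node (.leaf (.cons .c .c .d .e 10000 .c 10000 .d 10000 .nil)) (.leaf (.cons .c .d .c .e 10000 .d 10000 .e 10000 .nil)) (.leaf (.cons .c .d .c .e 10000 .d 10000 .e 10000 .nil)) (.leaf (.cons .c .d .c .d 10000 .d 10000 .e 10000 (.cons .c .c .c .e 10000 .c 10000 .e 10000 .nil))) .nil)) (.node (.node .nil (.leaf (.cons .c .d .d .e 10000 .c 10000 .e 10000 .nil)) (.leaf (.cons .c .d .d .d 10000 .c 10000 .e 10000 .nil)) (.leaf (.cons .c .d .d .e 10000 .c 10000 .e 10000 .nil)) (.leaf (.cons .c .d .d .d 10000 .c 10000 .e 10000 .nil))) .nil .nil (.node (.leaf (.cons .c .d .d .e 10000 .c 10000 .e 10000 .nil)) (.leaf (.cons .c .d .d .e 10000 .c 10000 .e 10000 .nil)) (.leaf (.cons .c .d .d .d 10000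 .c 10000 .e 10000 (.cons .c .b .c .e 10000 .d 10000 .e 10000 .nil))) .nil (.leaf (.cons .c .d .d .d 10000 .c 10000 .e 10000 (.cons .c .b .c .e 10000 .c 10000 .d 10000 .nil)))) (.node (.leaf (.cons .c .d .c .e 10000 .c 10000 .e 10000 (.cons .c .b .d .e 10000 .c 10000 .d 10000 .nil))) (.leaf (.cons .c .d .c .e 10000 .c 10000 .e 10000 .nil)) (.leaf (.cons .c .d .c .d 10000 .c 10000 .e 10000 .nil)) (.leaf (.cons .c .d .c .e 10000 .c 10000 .e 10000 .nil)) .nil)) (.node (.node .nil (.leaf (.cons .c .d .d .e 10000 .c 10000 .d 10000 .nil)) (.leaf (.cons .c .d .d .d 10000 .c 10000 .d 10000 .nil)) (.leaf (.cons .c .d .d .d 10000 .c 10000 .d 10000 .nil)) (.leaf (.cons .c .d .d .e 10000 .c 10000 .d 10000 .nil))) .nil (.node (.leaf (.cons .c .d .c .e 10000 .c 10000 .d 10000 (.cons .c .b .d .e 10000 .d 10000 .e 10000 .nil))) (.leaf (.cons .c .d .c .e 10000 .c 10000 .d 10000 .nil)) .nil (.leaf (.cons .c .d .c .c 10000 .c 10000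 .d 10000 (.cons .c .b .c .e 10000 .c 10000 .e 10000 .nil))) (.leaf (.cons .c .d .c .e 10000 .c 10000 .d 10000 .nil))) (.node (.leaf (.cons .c .d .c .e 10000 .c 10000 .d 10000 (.cons .c .b .d .e 10000 .c 10000 .e 10000 .nil))) (.leaf (.cons .c .d .c .e 10000 .c 10000 .d 10000 .nil)) (.leaf (.cons .c .d .c .d 10000 .c 10000 .d 10000 (.cons .c .b .c .e 10000 .d 10000 .e 10000 .nil))) .nil (.leaf (.cons .c .d .c .e 10000 .c 10000 .d 10000 .nil))) (.node (.leaf (.cons .c .d .d .e 10000 .c 10000 .d 10000 .nil)) (.leaf (.cons .c .d .d .e 10000 .c 10000 .d 10000 .nil)) (.leaf (.cons .c .d .d .d 10000 .c 10000 .d 10000 .nil)) (.leaf (.cons .c .d .d .d 10000 .c 10000 .d 10000 .nil)) .nil))) (.node (.node (.node .nil (.leaf (.cons .c .d .d .e 10000 .d 10000 .e 10000 .nil)) (.leaf (.cons .c .d .d .e 10000 .d 10000 .e 10000 .nil)) (.leaf (.cons .c .d .d .d 10000 .d 10000 .e 10000 .nil)) (.leaf (.cons .c .d .d .d 10000 .d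 10000 .e 10000 .nil))) (.node (.leaf (.cons .c .d .d .e 10000 .d 10000 .e 10000 .nil)) .nil (.leaf (.cons .c .d .d .e 10000 .d 10000 .e 10000 .nil)) (.leaf (.cons .c .d .d .d 10000 .d 10000 .e 10000 .nil)) (.leaf (.cons .c .d .d .d 10000 .d 10000 .e 10000 .nil))) .nil (.node (.leaf (.cons .c .d .c .e 10000 .d 10000 .e 10000 (.cons .b .d .d .e 10000 .c 10000 .e 10000 .nil))) (.leaf (.cons .c .d .c .e 10000 .d 10000 .e 10000 .nil)) (.leaf (.cons .c .d .c .e 10000 .d 10000 .e 10000 .nil)) .nil (.leaf (.cons .c .d .c .d 10000 .d 10000 .e 10000 (.cons .b .d .c .e 10000 .c 10000 .d 10000 .nil)))) (.node (.leaf (.cons .c .d .c .e 10000 .d 10000 .e 10000 (.cons .b .d .d .e 10000 .c 10000 .d 10000 .nil))) (.leaf (.cons .c .d .c .e 10000 .d 10000 .e 10000 .nil)) (.leaf (.cons .c .d .c .e 10000 .d 10000 .e 10000 .nil)) (.leaf (.cons .b .d .c .e 10000 .c 10000 .e 10000 .nil)) .nil)) (.node (.node .nil (.leaf (.cons .c .d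 .d .e 10000 .d 10000 .e 10000 .nil)) (.leaf (.cons .c .d .d .e 10000 .d 10000 .e 10000 .nil)) (.leaf (.cons .c .d .d .d 10000 .d 10000 .e 10000 .nil)) (.leaf (.cons .c .d .d .d 10000 .d 10000 .e 10000 .nil))) (.node (.leaf (.cons .c .d .d .e 10000 .d 10000 .e 10000 .nil)) .nil .nil (.leaf (.cons .c .d .d .d 10000 .d 10000 .e 10000 .nil)) (.leaf (.cons .c .d .d .d 10000 .d 10000 .e 10000 .nil))) .nil (.node (.leaf (.cons .b .d .d .e 10000 .c 10000 .e 10000 .nil)) (.leaf (.cons .b .d .d .e 10000 .c 10000 .e 10000 .nil)) (.leaf (.cons .c .d .b .e 10000 .d 10000 .e 10000 .nil)) .nil (.leaf (.cons .b .d .d .d 10000 .c 10000 .e 10000 (.cons .b .d .b .e 10000 .c 10000 .d 10000 .nil)))) (.node (.leaf (.cons .b .d .d .e 10000 .c 10000 .d 10000 .nil)) (.leaf (.cons .b .d .d .e 10000 .c 10000 .d 10000 .nil)) (.leaf (.cons .c .d .b .e 10000 .d 10000 .e 10000 .nil)) (.leaf (.cons .b .d .b .e 10000 .c 10000 .e 10000 .nil))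 .nil)) .nil (.node (.node .nil (.leaf (.cons .b .d .d .e 10000 .c 10000 .e 10000 .nil)) (.leaf (.cons .c .c .d .e 10000 .d 10000 .e 10000 .nil)) (.leaf (.cons .b .d .d .e 10000 .c 10000 .e 10000 .nil)) (.leaf (.cons .c .c .d .d 10000 .d 10000 .e 10000 .nil))) (.node (.leaf (.cons .c .c .d .e 10000 .d 10000 .e 10000 .nil)) .nil (.leaf (.cons .c .c .d .e 10000 .d 10000 .e 10000 .nil)) (.leaf (.cons .b .d .d .e 10000 .c 10000 .e 10000 .nil)) (.leaf (.cons .b .c .d .e 10000 .c 10000 .d 10000 .nil))) .nil (.node (.leaf (.cons .b .d .d .e 10000 .c 10000 .e 10000 .nil)) .nil (.leaf (.cons .c .c .c .e 10000 .d 10000 .e 10000 .nil)) .nil (.leaf (.cons .b .d .d .d 10000 .c 10000 .e 10000 (.cons .b .c .c .e 10000 .c 10000 .d 10000 .nil)))) (.node (.leaf (.cons .c .c .c .e 10000 .d 10000 .e 10000 (.cons .b .c .d .e 10000 .c 10000 .d 10000 .nil))) (.leaf (.cons .c .c .c .e 10000 .d 10000 .e 10000 .nil)) (.leaf (.cons .c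 .c .c .e 10000 .d 10000 .e 10000 .nil)) (.leaf (.cons .b .d .c .e 10000 .c 10000 .e 10000 .nil)) .nil)) (.node (.node .nil (.leaf (.cons .b .d .d .e 10000 .c 10000 .d 10000 .nil)) (.leaf (.cons .c .c .d .e 10000 .d 10000 .e 10000 .nil)) (.leaf (.cons .c .c .d .d 10000 .d 10000 .e 10000 .nil)) (.leaf (.cons .b .d .d .e 10000 .c 10000 .d 10000 .nil))) (.node (.leaf (.cons .c .c .d .e 10000 .d 10000 .e 10000 .nil)) .nil (.leaf (.cons .c .c .d .e 10000 .d 10000 .e 10000 .nil)) (.leaf (.cons .b .c .d .e 10000 .c 10000 .e 10000 .nil)) (.leaf (.cons .b .d .d .e 10000 .c 10000 .d 10000 .nil))) .nil (.node (.leaf (.cons .c .c .c .e 10000 .d 10000 .e 10000 (.cons .b .c .d .e 10000 .c 10000 .e 10000 .nil))) (.leaf (.cons .c .c .c .e 10000 .d 10000 .e 10000 .nil)) (.leaf (.cons .c .c .c .e 10000 .d 10000 .e 10000 .nil)) .nil (.leaf (.cons .b .d .c .e 10000 .c 10000 .d 10000 .nil))) (.node (.leaf (.cons .b .d .d .e 10000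 .c 10000 .d 10000 .nil)) (.leaf (.cons .b .d .d .e 10000 .c 10000 .d 10000 .nil)) (.leaf (.cons .c .c .c .e 10000 .d 10000 .e 10000 .nil)) (.leaf (.cons .b .c .c .e 10000 .c 10000 .e 10000 .nil)) .nil))) .nil (.node (.node (.node .nil (.leaf (.cons .c .d .d .e 10000 .c 10000 .d 10000 .nil)) (.leaf (.cons .c .d .d .d 10000 .c 10000 .d 10000 .nil)) (.leaf (.cons .c .d .d .d 10000 .c 10000 .d 10000 .nil)) (.leaf (.cons .c .d .d .e 10000 .c 10000 .d 10000 .nil))) (.node (.leaf (.cons .c .d .d .e 10000 .c 10000 .d 10000 .nil)) .nil (.leaf (.cons .c .d .d .d 10000 .c 10000 .d 10000 .nil)) (.leaf (.cons .c .d .d .d 10000 .c 10000 .d 10000 .nil)) (.leaf (.cons .c .d .d .e 10000 .c 10000 .d 10000 .nil))) (.node (.leaf (.cons .c .d .c .e 10000 .c 10000 .d 10000 (.cons .b .d .d .e 10000 .d 10000 .e 10000 .nil))) (.leaf (.cons .c .d .c .e 10000 .c 10000 .d 10000 .nil)) .nil (.leaf (.cons .b .d .c .e 10000 .c 10000 .e 10000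 .nil)) (.leaf (.cons .c .d .c .e 10000 .c 10000 .d 10000 .nil))) (.node (.leaf (.cons .c .d .c .e 10000 .c 10000 .d 10000 (.cons .b .d .d .e 10000 .c 10000 .e 10000 .nil))) (.leaf (.cons .c .d .c .e 10000 .c 10000 .d 10000 .nil)) (.leaf (.cons .c .d .c .d 10000 .c 10000 .d 10000 (.cons .b .d .c .e 10000 .d 10000 .e 10000 .nil))) .nil (.leaf (.cons .c .d .c .e 10000 .c 10000 .d 10000 .nil))) .nil) (.node (.node .nil (.leaf (.cons .c .d .d .e 10000 .c 10000 .d 10000 .nil)) (.leaf (.cons .c .d .d .d 10000 .c 10000 .d 10000 .nil)) (.leaf (.cons .c .d .d .d 10000 .c 10000 .d 10000 .nil)) (.leaf (.cons .c .d .d .e 10000 .c 10000 .d 10000 .nil))) (.node (.leaf (.cons .c .d .d .e 10000 .c 10000 .d 10000 .nil)) .nil (.leaf (.cons .c .d .d .d 10000 .c 10000 .d 10000 .nil)) (.leaf (.cons .c .d .d .d 10000 .c 10000 .d 10000 .nil)) (.leaf (.cons .c .d .d .e 10000 .c 10000 .d 10000 .nil))) (.node (.leaf (.cons .b .d .d .e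 10000 .d 10000 .e 10000 .nil)) (.leaf (.cons .b .d .d .e 10000 .d 10000 .e 10000 .nil)) .nil (.leaf (.cons .b .d .a .e 10000 .c 10000 .e 10000 .nil)) (.leaf (.cons .c .d .a .e 10000 .c 10000 .d 10000 .nil))) (.node (.leaf (.cons .b .d .d .e 10000 .c 10000 .e 10000 .nil)) (.leaf (.cons .b .d .d .e 10000 .c 10000 .e 10000 .nil)) (.leaf (.cons .b .d .d .d 10000 .c 10000 .e 10000 .nil)) .nil (.leaf (.cons .c .d .b .e 10000 .c 10000 .d 10000 .nil))) .nil) (.node (.node .nil (.leaf (.cons .b .d .d .e 10000 .d 10000 .e 10000 .nil)) (.leaf (.cons .b .d .d .e 10000 .d 10000 .e 10000 .nil)) (.leaf (.cons .c .c .d .d 10000 .c 10000 .d 10000 .nil)) (.leaf (.cons .c .c .d .e 10000 .c 10000 .d 10000 .nil))) (.node (.leaf (.cons .c .c .d .e 10000 .c 10000 .d 10000 .nil)) .nil (.leaf (.cons .b .d .d .e 10000 .d 10000 .e 10000 .nil)) (.leaf (.cons .b .c .d .e 10000 .c 10000 .e 10000 .nil)) (.leaf (.cons .c .c .d .e 10000 .c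 10000 .d 10000 .nil))) (.node (.leaf (.cons .b .d .d .e 10000 .d 10000 .e 10000 .nil)) (.leaf (.cons .b .d .d .e 10000 .d 10000 .e 10000 .nil)) .nil (.leaf (.cons .b .d .d .d 10000 .d 10000 .e 10000 (.cons .b .c .c .e 10000 .c 10000 .e 10000 .nil))) (.leaf (.cons .c .c .c .e 10000 .c 10000 .d 10000 .nil))) (.node (.leaf (.cons .b .c .d .e 10000 .c 10000 .e 10000 .nil)) (.leaf (.cons .b .c .d .e 10000 .c 10000 .e 10000 .nil)) (.leaf (.cons .b .d .b .e 10000 .d 10000 .e 10000 .nil)) .nil (.leaf (.cons .c .c .b .e 10000 .c 10000 .d 10000 .nil))) .nil) (.node (.node .nil (.leaf (.cons .b .d .d .e 10000 .c 10000 .e 10000 .nil)) (.leaf (.cons .c .c .d .d 10000 .c 10000 .d 10000 .nil)) (.leaf (.cons .b .d .d .e 10000 .c 10000 .e 10000 .nil)) (.leaf (.cons .c .c .d .e 10000 .c 10000 .d 10000 .nil))) (.node (.leaf (.cons .c .c .d .e 10000 .c 10000 .d 10000 .nil)) .nil (.leaf (.cons .b .c .d .e 10000 .d 10000 .e 10000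 .nil)) (.leaf (.cons .b .d .d .e 10000 .c 10000 .e 10000 .nil)) (.leaf (.cons .c .c .d .e 10000 .c 10000 .d 10000 .nil))) .nil (.node (.leaf (.cons .b .d .d .e 10000 .c 10000 .e 10000 .nil)) (.leaf (.cons .b .d .d .e 10000 .c 10000 .e 10000 .nil)) (.leaf (.cons .b .d .d .d 10000 .c 10000 .e 10000 .nil)) .nil (.leaf (.cons .c .c .c .e 10000 .c 10000 .d 10000 .nil))) .nil) .nil))

def tbcde : Tr := (.node (.node .nil (.node .nil (.node (.leaf (.cons .c .d .d .e 10000 .c 10000 .d 10000 .nil)) .nil (.leaf (.cons .c .d .d .e 10000 .d 10000 .e 10000 .nil)) (.leaf (.cons .c .d .d .e 10000 .c 10000 .e 10000 .nil)) (.leaf (.cons .c .d .d .e 10000 .c 10000 .d 10000 .nil))) (.node (.leaf (.cons .c .d .c .e 10000 .c 10000 .d 10000 .nil)) (.leaf (.cons .c .d .c .e 10000 .c 10000 .d 10000 .nil)) .nil (.leaf (.cons .c .d .c .d 10000 .c 10000 .d 10000 .nil)) (.leaf (.cons .c .d .c .e 10000 .c 10000 .d 10000 .nil))) (.node (.leaf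 (.cons .c .d .d .e 10000 .c 10000 .e 10000 .nil)) (.leaf (.cons .c .d .d .e 10000 .c 10000 .e 10000 .nil)) (.leaf (.cons .c .d .d .d 10000 .c 10000 .e 10000 .nil)) .nil (.leaf (.cons .c .d .c .e 10000 .c 10000 .d 10000 .nil))) (.node (.leaf (.cons .c .d .d .e 10000 .c 10000 .d 10000 .nil)) (.leaf (.cons .c .d .d .e 10000 .c 10000 .d 10000 .nil)) (.leaf (.cons .c .d .d .d 10000 .c 10000 .d 10000 (.cons .c .d .c .e 10000 .d 10000 .e 10000 .nil))) (.leaf (.cons .c .d .c .e 10000 .c 10000 .e 10000 .nil)) .nil)) (.node .nil (.node (.leaf (.cons .c .d .d .e 10000 .d 10000 .e 10000 .nil)) .nil (.leaf (.cons .c .d .d .e 10000 .d 10000 .e 10000 .nil)) (.leaf (.cons .c .c .d .e 10000 .c 10000 .e 10000 .nil)) (.leaf (.cons .c .c .d .e 10000 .c 10000 .d 10000 .nil))) (.node (.leaf (.cons .c .d .d .e 10000 .d 10000 .e 10000 .nil)) (.leaf (.cons .c .d .d .e 10000 .d 10000 .e 10000 .nil)) .nil (.leaf (.cons .c .c .c .e 10000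 .c 10000 .e 10000 .nil)) (.leaf (.cons .c .d .d .d 10000 .d 10000 .e 10000 (.cons .c .c .c .e 10000 .c 10000 .d 10000 .nil)))) (.node (.leaf (.cons .c .c .d .e 10000 .c 10000 .e 10000 .nil)) (.leaf (.cons .c .c .d .e 10000 .c 10000 .e 10000 .nil)) (.leaf (.cons .c .d .b .e 10000 .d 10000 .e 10000 .nil)) .nil (.leaf (.cons .c .c .d .d 10000 .c 10000 .e 10000 .nil))) (.node (.leaf (.cons .c .d .c .e 10000 .d 10000 .e 10000 (.cons .c .c .d .e 10000 .c 10000 .d 10000 .nil))) (.leaf (.cons .c .d .c .e 10000 .d 10000 .e 10000 .nil)) (.leaf (.cons .c .d .c .e 10000 .d 10000 .e 10000 .nil)) (.leaf (.cons .c .d .c .d 10000 .d 10000 .e 10000 (.cons .c .c .c .e 10000 .c 10000 .e 10000 .nil))) .nil)) (.node .nil (.node (.leaf (.cons .c .d .d .e 10000 .c 10000 .e 10000 .nil)) .nil (.leaf (.cons .c .c .d .e 10000 .d 10000 .e 10000 .nil)) (.leaf (.cons .c .d .d .e 10000 .c 10000 .e 10000 .nil)) (.leaf (.cons .c .c .d .e 10000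 .c 10000 .d 10000 .nil))) (.node (.leaf (.cons .c .d .c .e 10000 .c 10000 .e 10000 (.cons .c .c .d .e 10000 .d 10000 .e 10000 .nil))) (.leaf (.cons .c .d .c .e 10000 .c 10000 .e 10000 .nil)) .nil (.leaf (.cons .c .d .c .e 10000 .c 10000 .e 10000 .nil)) (.leaf (.cons .c .d .c .d 10000 .c 10000 .e 10000 (.cons .c .c .c .e 10000 .c 10000 .d 10000 .nil)))) (.node (.leaf (.cons .c .d .d .e 10000 .c 10000 .e 10000 .nil)) (.leaf (.cons .c .d .d .e 10000 .c 10000 .e 10000 .nil)) (.leaf (.cons .c .d .d .d 10000 .c 10000 .e 10000 .nil)) .nil (.leaf (.cons .c .d .d .d 10000 .c 10000 .e 10000 .nil))) .nil) (.node .nil (.node (.leaf (.cons .c .d .d .e 10000 .c 10000 .d 10000 .nil)) .nil (.leaf (.cons .c .c .d .e 10000 .d 10000 .e 10000 .nil)) (.leaf (.cons .c .c .d .e 10000 .c 10000 .e 10000 .nil)) (.leaf (.cons .c .d .d .e 10000 .c 10000 .d 10000 .nil))) (.node (.leaf (.cons .c .c .d .e 10000 .d 10000 .e 10000 .nil)) (.leaf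 (.cons .c .d .c .e 10000 .c 10000 .d 10000 .nil)) .nil (.leaf (.cons .c .c .c .e 10000 .c 10000 .e 10000 .nil)) (.leaf (.cons .c .d .c .e 10000 .c 10000 .d 10000 .nil))) (.node (.leaf (.cons .c .d .c .e 10000 .c 10000 .d 10000 (.cons .c .c .d .e 10000 .c 10000 .e 10000 .nil))) (.leaf (.cons .c .d .c .e 10000 .c 10000 .d 10000 .nil)) (.leaf (.cons .c .d .c .d 10000 .c 10000 .d 10000 .nil)) .nil (.leaf (.cons .c .d .c .e 10000 .c 10000 .d 10000 .nil))) (.node (.leaf (.cons .c .d .d .e 10000 .c 10000 .d 10000 .nil)) (.leaf (.cons .c .d .d .e 10000 .c 10000 .d 10000 .nil)) (.leaf (.cons .c .c .c .e 10000 .d 10000 .e 10000 .nil)) (.leaf (.cons .c .d .d .d 10000 .c 10000 .d 10000 (.cons .c .c .c .e 10000 .c 10000 .e 10000 .nil))) .nil))) (.node (.node (.node .nil (.leaf (.cons .c .d .d .e 10000 .c 10000 .d 10000 .nil)) (.leaf (.cons .c .d .d .e 10000 .d 10000 .e 10000 .nil)) (.leaf (.cons .c .d .d .e 10000 .c 10000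 .e 10000 .nil)) (.leaf (.cons .c .d .d .e 10000 .c 10000 .d 10000 .nil))) .nil (.node (.leaf (.cons .c .d .d .e 10000 .d 10000 .e 10000 .nil)) (.leaf (.cons .c .d .d .e 10000 .d 10000 .e 10000 .nil)) .nil (.leaf (.cons .c .d .c .e 10000 .c 10000 .e 10000 .nil)) (.leaf (.cons .c .d .c .e 10000 .c 10000 .d 10000 .nil))) (.node (.leaf (.cons .c .d .d .e 10000 .c 10000 .e 10000 .nil)) (.leaf (.cons .c .d .d .e 10000 .c 10000 .e 10000 .nil)) (.leaf (.cons .c .d .c .e 10000 .d 10000 .e 10000 .nil)) .nil (.leaf (.cons .c .d .c .e 10000 .c 10000 .d 10000 .nil))) (.node (.leaf (.cons .c .d .d .e 10000 .c 10000 .d 10000 .nil)) (.leaf (.cons .c .d .d .e 10000 .c 10000 .d 10000 .nil)) (.leaf (.cons .c .d .d .d 10000 .c 10000 .d 10000 .nil)) (.leaf (.cons .c .d .d .d 10000 .c 10000 .d 10000 (.cons .c .d .c .e 10000 .c 10000 .e 10000 .nil))) .nil)) .nil (.node (.node .nil (.leaf (.cons .c .d .d .e 10000 .d 10000 .e 10000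 .nil)) (.leaf (.cons .c .d .d .e 10000 .d 10000 .e 10000 .nil)) (.leaf (.cons .c .d .d .d 10000 .d 10000 .e 10000 .nil)) (.leaf (.cons .c .d .d .d 10000 .d 10000 .e 10000 .nil))) .nil (.node (.leaf (.cons .c .d .d .e 10000 .d 10000 .e 10000 .nil)) (.leaf (.cons .c .d .d .e 10000 .d 10000 .e 10000 .nil)) .nil (.leaf (.cons .c .d .d .d 10000 .d 10000 .e 10000 (.cons .c .b .c .e 10000 .c 10000 .e 10000 .nil))) (.leaf (.cons .c .d .d .d 10000 .d 10000 .e 10000 (.cons .c .b .c .e 10000 .c 10000 .d 10000 .nil)))) .nil (.node (.leaf (.cons .c .d .c .e 10000 .d 10000 .e 10000 (.cons .c .b .d .e 10000 .c 10000 .d 10000 .nil))) (.leaf (.cons .c .d .c .e 10000 .d 10000 .e 10000 .nil)) (.leaf (.cons .c .d .c .e 10000 .d 10000 .e 10000 .nil)) (.leaf (.cons .c .d .c .d 10000 .d 10000 .e 10000 (.cons .c .b .c .e 10000 .c 10000 .e 10000 .nil))) .nil)) (.node (.node .nil (.leaf (.cons .c .d .d .e 10000 .c 10000 .e 10000 .nil))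 (.leaf (.cons .c .d .d .d 10000 .c 10000 .e 10000 .nil)) (.leaf (.cons .c .d .d .e 10000 .c 10000 .e 10000 .nil)) (.leaf (.cons .c .d .d .d 10000 .c 10000 .e 10000 .nil))) .nil (.node (.leaf (.cons .c .d .c .e 10000 .c 10000 .e 10000 (.cons .c .a .d .e 10000 .d 10000 .e 10000 .nil))) (.leaf (.cons .c .d .c .e 10000 .c 10000 .e 10000 .nil)) .nil (.leaf (.cons .c .d .c .e 10000 .c 10000 .e 10000 .nil)) (.leaf (.cons .c .d .c .d 10000 .c 10000 .e 10000 (.cons .c .a .c .e 10000 .c 10000 .d 10000 .nil)))) (.node (.leaf (.cons .c .d .d .e 10000 .c 10000 .e 10000 .nil)) (.leaf (.cons .c .d .d .e 10000 .c 10000 .e 10000 .nil)) (.leaf (.cons .c .d .d .d 10000 .c 10000 .e 10000 (.cons .c .a .c .e 10000 .d 10000 .e 10000 .nil))) .nil (.leaf (.cons .c .d .d .d 10000 .c 10000 .e 10000 (.cons .c .a .c .e 10000 .c 10000 .d 10000 .nil)))) .nil) (.node (.node .nil (.leaf (.cons .c .d .d .e 10000 .c 10000 .d 10000 .nil)) (.leaf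 (.cons .c .d .d .d 10000 .c 10000 .d 10000 .nil)) (.leaf (.cons .c .d .d .d 10000 .c 10000 .d 10000 .nil)) (.leaf (.cons .c .d .d .e 10000 .c 10000 .d 10000 .nil))) .nil (.node (.leaf (.cons .c .c .d .e 10000 .d 10000 .e 10000 .nil)) (.leaf (.cons .c .d .c .e 10000 .c 10000 .d 10000 .nil)) .nil (.leaf (.cons .c .c .c .e 10000 .c 10000 .e 10000 .nil)) (.leaf (.cons .c .d .c .e 10000 .c 10000 .d 10000 .nil))) (.node (.leaf (.cons .c .d .c .e 10000 .c 10000 .d 10000 (.cons .c .c .d .e 10000 .c 10000 .e 10000 .nil))) (.leaf (.cons .c .d .c .e 10000 .c 10000 .d 10000 .nil)) (.leaf (.cons .c .d .c .d 10000 .c 10000 .d 10000 (.cons .c .c .c .e 10000 .d 10000 .e 10000 .nil))) .nil (.leaf (.cons .c .d .c .e 10000 .c 10000 .d 10000 .nil))) (.node (.leaf (.cons .c .d .d .e 10000 .c 10000 .d 10000 .nil)) (.leaf (.cons .c .d .d .e 10000 .c 10000 .d 10000 .nil)) (.leaf (.cons .c .d .d .d 10000 .c 10000 .d 10000 .nil)) (.leaf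 (.cons .c .d .d .d 10000 .c 10000 .d 10000 .nil)) .nil))) (.node (.node (.node .nil (.leaf (.cons .c .d .d .e 10000 .d 10000 .e 10000 .nil)) (.leaf (.cons .c .d .d .e 10000 .d 10000 .e 10000 .nil)) (.leaf (.cons .c .d .d .d 10000 .d 10000 .e 10000 .nil)) (.leaf (.cons .c .d .d .d 10000 .d 10000 .e 10000 .nil))) (.node (.leaf (.cons .c .d .d .e 10000 .d 10000 .e 10000 .nil)) .nil (.leaf (.cons .c .d .d .e 10000 .d 10000 .e 10000 .nil)) (.leaf (.cons .c .d .d .d 10000 .d 10000 .e 10000 (.cons .b .d .d .e 10000 .c 10000 .e 10000 .nil))) (.leaf (.cons .c .d .d .d 10000 .d 10000 .e 10000 (.cons .b .d .d .e 10000 .c 10000 .d 10000 .nil)))) .nil (.node (.leaf (.cons .c .d .c .e 10000 .d 10000 .e 10000 (.cons .b .d .d .e 10000 .c 10000 .e 10000 .nil))) (.leaf (.cons .c .d .c .e 10000 .d 10000 .e 10000 .nil)) (.leaf (.cons .c .d .c .e 10000 .d 10000 .e 10000 .nil)) .nil (.leaf (.cons .c .d .c .d 10000 .d 10000 .e 10000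 (.cons .b .d .c .e 10000 .c 10000 .d 10000 .nil)))) (.node (.leaf (.cons .c .d .c .e 10000 .d 10000 .e 10000 (.cons .b .d .d .e 10000 .c 10000 .d 10000 .nil))) (.leaf (.cons .c .d .c .e 10000 .d 10000 .e 10000 .nil)) (.leaf (.cons .c .d .c .e 10000 .d 10000 .e 10000 .nil)) (.leaf (.cons .b .d .c .e 10000 .c 10000 .e 10000 .nil)) .nil)) (.node (.node .nil (.leaf (.cons .c .d .d .e 10000 .d 10000 .e 10000 .nil)) (.leaf (.cons .c .d .d .e 10000 .d 10000 .e 10000 .nil)) (.leaf (.cons .c .d .d .d 10000 .d 10000 .e 10000 .nil)) (.leaf (.cons .c .d .d .d 10000 .d 10000 .e 10000 .nil))) (.node (.leaf (.cons .c .d .d .e 10000 .d 10000 .e 10000 .nil)) .nil (.leaf (.cons .c .d .d .e 10000 .d 10000 .e 10000 .nil)) (.leaf (.cons .c .d .d .d 10000 .d 10000 .e 10000 (.cons .b .d .d .e 10000 .c 10000 .e 10000 .nil))) (.leaf (.cons .c .d .d .d 10000 .d 10000 .e 10000 (.cons .b .d .d .e 10000 .c 10000 .d 10000 .nil)))) .nil (.node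 (.leaf (.cons .b .d .d .e 10000 .c 10000 .e 10000 .nil)) (.leaf (.cons .b .d .d .e 10000 .c 10000 .e 10000 .nil)) (.leaf (.cons .c .d .b .e 10000 .d 10000 .e 10000 .nil)) .nil (.leaf (.cons .b .d .d .d 10000 .c 10000 .e 10000 (.cons .b .d .b .e 10000 .c 10000 .d 10000 .nil)))) (.node (.leaf (.cons .b .d .d .e 10000 .c 10000 .d 10000 .nil)) (.leaf (.cons .b .d .d .e 10000 .c 10000 .d 10000 .nil)) (.leaf (.cons .b .d .d .c 10000 .c 10000 .d 10000 (.cons .c .d .a .e 9514 .d 10000 .e 8611 .nil))) (.leaf (.cons .b .d .d .d 10000 .c 10000 .d 10000 (.cons .b .d .a .e 9514 .c 10000 .e 8611 .nil))) .nil)) .nil (.node (.node .nil (.leaf (.cons .b .d .d .e 10000 .c 10000 .e 10000 .nil)) (.leaf (.cons .c .b .d .e 10000 .d 10000 .e 10000 .nil)) (.leaf (.cons .b .d .d .e 10000 .c 10000 .e 10000 .nil)) (.leaf (.cons .b .d .d .d 10000 .c 10000 .e 10000 .nil))) (.node (.leaf (.cons .b .d .d .e 10000 .c 10000 .e 10000 .nil))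 .nil (.leaf (.cons .c .b .d .e 10000 .d 10000 .e 10000 .nil)) (.leaf (.cons .b .d .d .e 10000 .c 10000 .e 10000 .nil)) (.leaf (.cons .b .d .d .c 10000 .c 10000 .e 10000 (.cons .b .b .d .e 10000 .c 10000 .d 10000 .nil)))) .nil (.node (.leaf (.cons .b .d .d .e 10000 .c 10000 .e 10000 .nil)) (.leaf (.cons .b .d .d .e 10000 .c 10000 .e 10000 .nil)) (.leaf (.cons .b .d .d .d 10000 .c 10000 .e 10000 (.cons .c .b .c .e 10000 .d 10000 .e 10000 .nil))) .nil (.leaf (.cons .b .d .d .d 10000 .c 10000 .e 10000 (.cons .b .b .c .e 10000 .c 10000 .d 10000 .nil)))) .nil) (.node (.node .nil (.leaf (.cons .b .d .d .e 10000 .c 10000 .d 10000 .nil)) (.leaf (.cons .c .c .d .e 10000 .d 10000 .e 10000 .nil)) (.leaf (.cons .c .c .d .d 10000 .d 10000 .e 10000 .nil)) (.leaf (.cons .b .d .d .e 10000 .c 10000 .d 10000 .nil))) (.node (.leaf (.cons .c .c .d .e 10000 .d 10000 .e 10000 .nil)) .nil (.leaf (.cons .c .c .d .e 10000 .d 10000 .e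 10000 .nil)) (.leaf (.cons .b .c .d .e 10000 .c 10000 .e 10000 .nil)) (.leaf (.cons .b .d .d .e 10000 .c 10000 .d 10000 .nil))) .nil (.node (.leaf (.cons .c .c .c .e 10000 .d 10000 .e 10000 (.cons .b .c .d .e 10000 .c 10000 .e 10000 .nil))) (.leaf (.cons .c .c .c .e 10000 .d 10000 .e 10000 .nil)) (.leaf (.cons .c .c .c .e 10000 .d 10000 .e 10000 .nil)) .nil (.leaf (.cons .b .d .c .e 10000 .c 10000 .d 10000 .nil))) (.node (.leaf (.cons .b .d .d .e 10000 .c 10000 .d 10000 .nil)) (.leaf (.cons .b .d .d .e 10000 .c 10000 .d 10000 .nil)) (.leaf (.cons .c .c .c .e 10000 .d 10000 .e 10000 .nil)) (.leaf (.cons .b .d .d .d 10000 .c 10000 .d 10000 (.cons .b .c .c .e 10000 .c 10000 .e 10000 .nil))) .nil))) .nil (.node (.node (.node .nil (.leaf (.cons .c .d .d .e 10000 .c 10000 .d 10000 .nil)) (.leaf (.cons .c .d .d .d 10000 .c 10000 .d 10000 .nil)) (.leaf (.cons .c .d .d .d 10000 .c 10000 .d 10000 .nil)) (.leaf (.cons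 .c .d .d .e 10000 .c 10000 .d 10000 .nil))) (.node (.leaf (.cons .c .d .d .e 10000 .c 10000 .d 10000 .nil)) .nil (.leaf (.cons .c .d .d .d 10000 .c 10000 .d 10000 .nil)) (.leaf (.cons .c .d .d .d 10000 .c 10000 .d 10000 .nil)) (.leaf (.cons .c .d .d .e 10000 .c 10000 .d 10000 .nil))) (.node (.leaf (.cons .c .d .c .e 10000 .c 10000 .d 10000 (.cons .b .d .d .e 10000 .d 10000 .e 10000 .nil))) (.leaf (.cons .c .d .c .e 10000 .c 10000 .d 10000 .nil)) .nil (.leaf (.cons .b .d .c .e 10000 .c 10000 .e 10000 .nil)) (.leaf (.cons .c .d .c .e 10000 .c 10000 .d 10000 .nil))) (.node (.leaf (.cons .c .d .c .e 10000 .c 10000 .d 10000 (.cons .b .d .d .e 10000 .c 10000 .e 10000 .nil))) (.leaf (.cons .c .d .c .e 10000 .c 10000 .d 10000 .nil)) (.leaf (.cons .c .d .c .d 10000 .c 10000 .d 10000 (.cons .b .d .c .e 10000 .d 10000 .e 10000 .nil))) .nil (.leaf (.cons .c .d .c .e 10000 .c 10000 .d 10000 .nil))) .nil) (.node (.node .nil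 (.leaf (.cons .c .d .d .e 10000 .c 10000 .d 10000 .nil)) (.leaf (.cons .c .d .d .d 10000 .c 10000 .d 10000 .nil)) (.leaf (.cons .c .d .d .d 10000 .c 10000 .d 10000 .nil)) (.leaf (.cons .c .d .d .e 10000 .c 10000 .d 10000 .nil))) (.node (.leaf (.cons .c .d .d .e 10000 .c 10000 .d 10000 .nil)) .nil (.leaf (.cons .c .d .d .d 10000 .c 10000 .d 10000 .nil)) (.leaf (.cons .c .d .d .d 10000 .c 10000 .d 10000 .nil)) (.leaf (.cons .c .d .d .e 10000 .c 10000 .d 10000 .nil))) (.node (.leaf (.cons .b .d .d .e 10000 .d 10000 .e 10000 .nil)) (.leaf (.cons .b .d .d .e 10000 .d 10000 .e 10000 .nil)) .nil (.leaf (.cons .b .d .b .e 10000 .c 10000 .e 10000 .nil)) (.leaf (.cons .c .d .b .e 10000 .c 10000 .d 10000 .nil))) (.node (.leaf (.cons .b .d .d .e 10000 .c 10000 .e 10000 .nil)) (.leaf (.cons .b .d .d .e 10000 .c 10000 .e 10000 .nil)) (.leaf (.cons .b .d .d .d 10000 .c 10000 .e 10000 .nil)) .nil (.leaf (.cons .c .d .b .e 10000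 .c 10000 .d 10000 .nil))) .nil) (.node (.node .nil (.leaf (.cons .b .d .d .e 10000 .d 10000 .e 10000 .nil)) (.leaf (.cons .b .d .d .e 10000 .d 10000 .e 10000 .nil)) (.leaf (.cons .c .c .d .d 10000 .c 10000 .d 10000 .nil)) (.leaf (.cons .c .c .d .e 10000 .c 10000 .d 10000 .nil))) (.node (.leaf (.cons .c .c .d .e 10000 .c 10000 .d 10000 .nil)) .nil (.leaf (.cons .b .d .d .e 10000 .d 10000 .e 10000 .nil)) (.leaf (.cons .b .c .d .e 10000 .c 10000 .e 10000 .nil)) (.leaf (.cons .c .c .d .e 10000 .c 10000 .d 10000 .nil))) (.node (.leaf (.cons .b .d .d .e 10000 .d 10000 .e 10000 .nil)) (.leaf (.cons .b .d .d .e 10000 .d 10000 .e 10000 .nil)) .nil (.leaf (.cons .b .c .c .e 10000 .c 10000 .e 10000 .nil)) (.leaf (.cons .c .c .c .e 10000 .c 10000 .d 10000 .nil))) (.node (.leaf (.cons .b .c .d .e 10000 .c 10000 .e 10000 .nil)) (.leaf (.cons .b .c .d .e 10000 .c 10000 .e 10000 .nil)) (.leaf (.cons .b .d .b .e 10000 .d 10000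 .e 10000 .nil)) .nil (.leaf (.cons .c .c .b .e 10000 .c 10000 .d 10000 .nil))) .nil) (.node (.node .nil (.leaf (.cons .b .d .d .e 10000 .c 10000 .e 10000 .nil)) (.leaf (.cons .c .c .d .d 10000 .c 10000 .d 10000 .nil)) (.leaf (.cons .b .d .d .e 10000 .c 10000 .e 10000 .nil)) (.leaf (.cons .c .c .d .e 10000 .c 10000 .d 10000 .nil))) (.node (.leaf (.cons .c .c .d .e 10000 .c 10000 .d 10000 .nil)) .nil (.leaf (.cons .b .c .d .e 10000 .d 10000 .e 10000 .nil)) (.leaf (.cons .b .d .d .e 10000 .c 10000 .e 10000 .nil)) (.leaf (.cons .c .c .d .e 10000 .c 10000 .d 10000 .nil))) (.node (.leaf (.cons .c .c .c .e 10000 .c 10000 .d 10000 (.cons .b .c .d .e 10000 .d 10000 .e 10000 .nil))) (.leaf (.cons .c .c .c .e 10000 .c 10000 .d 10000 .nil)) .nil (.leaf (.cons .b .d .c .e 10000 .c 10000 .e 10000 .nil)) (.leaf (.cons .c .c .c .e 10000 .c 10000 .d 10000 .nil))) (.node (.leaf (.cons .b .d .d .e 10000 .c 10000 .e 10000 .nil))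 (.leaf (.cons .b .d .d .e 10000 .c 10000 .e 10000 .nil)) (.leaf (.cons .b .d .d .d 10000 .c 10000 .e 10000 .nil)) .nil (.leaf (.cons .c .c .c .e 10000 .c 10000 .d 10000 .nil))) .nil) .nil))

/-- the certificate -/
def tree : Tr := (.node (.node .nil (.node .nil (.node tabba .nil tabbc .nil .nil) (.node tabca tabcb .nil tabcd .nil) .nil .nil) .nil .nil .nil) (.node (.node (.node .nil tbaab tbaac .nil .nil) .nil (.node tbaca tbacb .nil tbacd .nil) .nil .nil) .nil (.node (.node .nil tbcab tbcac tbcad .nil) .nil (.node tbcca tbccb .nil tbccd .nil) (.node tbcda tbcdb tbcdc .nil tbcde) .nil) .nil .nil) .nil .nil .nil)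

end Pool.Agent.Zk83.Game
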